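import Pool.Agent.StripNear.Basic

/-! # Paths of points across a strip and the insertion of a new point

A path is a list of points with increasing heights from `0` to `H`, steps of height at most `h0`,
and increasing switches.  A new point which is later than all points of the path replaces a segment
of the path.  `machine`: if every such replacement increases a potential by the weight of the new
point, the total weight of a separated set is bounded. -/

namespace Pool.Agent.Strip051

open Pool.Agent.StripNear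

/-- The switch between two consecutive points `p` (below) and `q` (above) of a path. -/
noncomputable def swi (p q : Pt) : ℝ := if p.1 ≤ q.1 then q.2 - h0 else p.2

/-- `b` may follow `a` in a path. -/
def OkEdge (a b : Pt) : Prop := a.2 < b.2 ∧ b.2 ≤ a.2 + h0

/-- `a :: Q` is the end of a path which ends at height `H`; `s` is the switch before `a`. -/
def Path (H : ℝ) : ℝ → Pt → List Pt → Prop
  | s, a, [] => a.2 = H ∧ s < H
  | s, a, b :: Q => OkEdge a b ∧ s < swi a b ∧ Path H (swi a b) b Q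

/-- `a :: M` is a segment of a path, `s` is the switch before `a`, all later switches are at most
`y`. -/
def Run (y : ℝ) : ℝ → Pt → List Pt → Prop
  | _, _, [] => True
  | s, a, b :: M => OkEdge a b ∧ s < swi a b ∧ swi a b ≤ y ∧ Run y (swi a b) b M

/-- Sum over the edges. -/
def esum (φ : Pt → Pt → ℝ) : Pt → List Pt → ℝ
  | _, [] => 0
  | a, b :: Q => φ a b + esum φ b Q

/-- Sum over the edges plus a term for the last point. -/
def tot (φ : Pt → Pt → ℝ) (G : Pt → ℝ) : Pt → List Pt → ℝ
  | a, [] => G a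
  | a, b :: Q => φ a b + tot φ G b Q

/-- Distance at least one. -/
def Sep (p q : Pt) : Prop := 1 ≤ (p.1 - q.1) ^ 2 + (p.2 - q.2) ^ 2

/-- `p` comes after `q`: order by the first coordinate, then by the height. -/
def After (p q : Pt) : Prop := q.1 < p.1 ∨ (q.1 = p.1 ∧ q.2 < p.2)

theorem After.le {p q : Pt} (h : After p q) : q.1 ≤ p.1 := by
  rcases h with h | h
  · exact h.le
  · exact h.1.le

theorem After.lt {p q : Pt} (h : After p q) (h2 : p.2 ≤ q.2) : q.1 < p.1 := by
  rcases h with h | h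
  · exact h
  · linarith [h.2]

theorem swi_le {a b : Pt} (h : OkEdge a b) : swi a b ≤ a.2 := by
  unfold swi
  split
  · linarith [h.2]
  · exact le_refl _

theorem le_swi {a b : Pt} (h : OkEdge a b) : b.2 ≤ swi a b + h0 := by
  unfold swi
  split
  · linarith
  · exact h.2

theorem swi_up {l p : Pt} (h : l.1 ≤ p.1) : swi l p = p.2 - h0 := if_pos h

theorem swi_down {p u : Pt} (h : u.1 < p.1) : swi p u = p.2 := if_neg (not_le.2 h)

theorem tot_append (φ : Pt → Pt → ℝ) (G : Pt → ℝ) (a : Pt) (M : List Pt) (u : Pt) (Q : List Pt) :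
    tot φ G a (M ++ u :: Q) = esum φ a (M ++ [u]) + tot φ G u Q := by
  induction M generalizing a with
  | nil => simp [esum, tot]
  | cons d M ih => simp [esum, tot, ih, add_assoc]

/-- The segment `l :: (mid ++ [u])` is to be replaced by `l, p, u`. -/
structure Seg (H : ℝ) (p l : Pt) (mid : List Pt) (u : Pt) : Prop where
  /-- the switch before `l` is below the windows of `p`, the switch before `u` is at most `p.2` -/
  run : ∃ s, s < p.2 - h0 ∧ Run p.2 s l (mid ++ [u])
  /-- the switch after `l` lies in the windows of `p` -/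
  first : ∀ b M, mid ++ [u] = b :: M → p.2 - h0 ≤ swi l b
  low : l.2 < p.2
  low' : p.2 ≤ l.2 + h0
  high : p.2 < u.2
  high' : u.2 ≤ p.2 + h0
  sep : ∀ q ∈ p :: l :: (mid ++ [u]), ∀ q' ∈ p :: l :: (mid ++ [u]), q ≠ q' → Sep q q'
  after : ∀ q ∈ l :: (mid ++ [u]), After p q
  strip : ∀ q ∈ p :: l :: (mid ++ [u]), 0 ≤ q.2 ∧ q.2 ≤ H

/-- The segment `a :: (mid ++ [u])` which begins at the bottom is to be replaced by `p, u`. -/
structure SegBot (H : ℝ) (p a : Pt) (mid : List Pt) (u : Pt) : Prop where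
  run : Run 0 (-h0) a (mid ++ [u])
  bot : a.2 = 0
  bot' : p.2 = 0
  high : 0 < u.2
  high' : u.2 ≤ h0
  sep : ∀ q ∈ p :: a :: (mid ++ [u]), ∀ q' ∈ p :: a :: (mid ++ [u]), q ≠ q' → Sep q q'
  after : ∀ q ∈ a :: (mid ++ [u]), After p q
  strip : ∀ q ∈ p :: a :: (mid ++ [u]), 0 ≤ q.2 ∧ q.2 ≤ H

/-- The segment `l :: (mid ++ [u])` which ends at the top is to be replaced by `l, p`. -/
structure SegTop (H : ℝ) (p l : Pt) (mid : List Pt) (u : Pt) : Prop where
  run : ∃ s, s < H - h0 ∧ Run H s l (mid ++ [u])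
  first : ∀ b M, mid ++ [u] = b :: M → H - h0 ≤ swi l b
  low : l.2 < H
  low' : H ≤ l.2 + h0
  top : u.2 = H
  top' : p.2 = H
  sep : ∀ q ∈ p :: l :: (mid ++ [u]), ∀ q' ∈ p :: l :: (mid ++ [u]), q ≠ q' → Sep q q'
  after : ∀ q ∈ l :: (mid ++ [u]), After p q
  strip : ∀ q ∈ p :: l :: (mid ++ [u]), 0 ≤ q.2 ∧ q.2 ≤ H

/-- The insertion inequalities for the potential `F (first) + ∑ φ (edge) + G (last)`. -/
structure Gain (H : ℝ) (φ : Pt → Pt → ℝ) (F G : Pt → ℝ) (W : ℝ → ℝ) : Prop where
  mid : ∀ p l mid u, Seg H p l mid u →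
    esum φ l (mid ++ [u]) + W p.2 ≤ φ l p + φ p u
  bot : ∀ p a mid u, SegBot H p a mid u →
    F a + esum φ a (mid ++ [u]) + W p.2 ≤ F p + φ p u
  top : ∀ p l mid u, SegTop H p l mid u →
    esum φ l (mid ++ [u]) + G u + W p.2 ≤ φ l p + G p

theorem skip {H y : ℝ} (hy : y < H) (Q : List Pt) : ∀ {s : ℝ} {a b : Pt}, Path H s a (b :: Q) →
    swi a b ≤ y → ∃ mid u Q2, b :: Q = mid ++ u :: Q2 ∧ Run y s a (mid ++ [u]) ∧
      Path H y u Q2 ∧ y < u.2 ∧ u.2 ≤ y + h0 := by
  induction Q with
  | nil =>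
    intro s a b hP hs
    obtain ⟨h1, h2, h3, h4⟩ := hP
    have h5 := le_swi h1
    exact ⟨[], b, [], rfl, ⟨h1, h2, hs, trivial⟩, ⟨h3, hy⟩, by linarith, by linarith⟩
  | cons c Q ih =>
    intro s a b hP hs
    obtain ⟨h1, h2, h3, h4, h5⟩ := hP
    rcases lt_or_ge y (swi b c) with h | h
    · have h6 := swi_le h3
      have h7 := le_swi h1
      exact ⟨[], b, c :: Q, rfl, ⟨h1, h2, hs, trivial⟩, ⟨h3, h, h5⟩, by linarith, by linarith⟩
    · obtain ⟨mid, u, Q2, e1, e2, e3, e4, e5⟩ := ih (s := swi a b) (a := b) (b := c)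
        ⟨h3, h4, h5⟩ h
      exact ⟨b :: mid, u, Q2, by rw [e1]; rfl, ⟨h1, h2, hs, e2⟩, e3, e4, e5⟩

theorem path_lt {H : ℝ} {Q : List Pt} : ∀ {s : ℝ} {a : Pt}, Path H s a Q → a.2 ≤ H := by
  induction Q with
  | nil => intro s a h; exact h.1.le
  | cons b Q ih => intro s a h; exact (h.1.1.trans_le (ih h.2.2)).le

theorem path_last {H : ℝ} {Q : List Pt} : ∀ {s : ℝ} {a b : Pt}, Path H s a (b :: Q) →
    ∃ mid u, b :: Q = mid ++ [u] ∧ u.2 = H ∧ Run H s a (mid ++ [u]) := by
  induction Q with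
  | nil =>
    intro s a b h
    obtain ⟨h1, h2, h3, h4⟩ := h
    have h5 := swi_le h1
    exact ⟨[], b, rfl, h3, ⟨h1, h2, by linarith [h1.1], trivial⟩⟩
  | cons c Q ih =>
    intro s a b h
    obtain ⟨h1, h2, h3⟩ := h
    obtain ⟨mid, u, e1, e2, e3⟩ := ih h3
    have h5 := swi_le h1
    have h6 := path_lt h3
    exact ⟨b :: mid, u, by rw [e1]; rfl, e2, ⟨h1, h2, by linarith [h1.1], e3⟩⟩

/-- Insertion of a point in the interior of the strip. -/
theorem insert_mid {H : ℝ} {φ : Pt → Pt → ℝ} {F G : Pt → ℝ} {W : ℝ → ℝ} (hG : Gain H φ F G W)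
    {T : Set Pt} (hT : ∀ q ∈ T, ∀ q' ∈ T, q ≠ q' → Sep q q') (hTs : ∀ q ∈ T, 0 ≤ q.2 ∧ q.2 ≤ H)
    {p : Pt} (hp : p ∈ T) (hpH : p.2 < H) (Q : List Pt) :
    ∀ {s : ℝ} {a : Pt}, Path H s a Q → s < p.2 - h0 → a.2 ≤ s + h0 →
      (∀ q ∈ a :: Q, q ∈ T) → (∀ q ∈ a :: Q, After p q) →
      ∃ Q', Path H s a Q' ∧ (∀ q ∈ Q', q = p ∨ q ∈ Q) ∧
        tot φ G a Q + W p.2 ≤ tot φ G a Q' := by
  induction Q with
  | nil =>
    intro s a hP hs ha _ _
    exfalso
    linarith [hP.1]
  | cons b R ih =>
    intro s a hP hs ha hQT hA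
    rcases lt_or_ge (swi a b) (p.2 - h0) with h | h
    · obtain ⟨h1, h2, h3⟩ := hP
      obtain ⟨R', e1, e2, e3⟩ := ih h3 h (le_swi h1) (fun q hq => hQT q (List.mem_cons_of_mem _ hq))
        (fun q hq => hA q (List.mem_cons_of_mem _ hq))
      refine ⟨b :: R', ⟨h1, h2, e1⟩, ?_, ?_⟩
      · intro q hq
        rcases List.mem_cons.1 hq with rfl | hq
        · exact Or.inr List.mem_cons_self
        · rcases e2 q hq with h | h
          · exact Or.inl h
          · exact Or.inr (List.mem_cons_of_mem _ h)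
      · simp only [tot]
        linarith
    · have h1 := hP.1
      have h5 := swi_le h1
      have hlow : a.2 < p.2 := by linarith
      have hlow' : p.2 ≤ a.2 + h0 := by linarith
      have hsw : swi a b ≤ p.2 := by linarith
      obtain ⟨mid, u, Q2, e1, e2, e3, e4, e5⟩ := skip hpH R hP hsw
      have hmem : ∀ q ∈ a :: (mid ++ [u]), q ∈ a :: b :: R := by
        intro q hq
        rw [e1]
        simp only [List.mem_cons, List.mem_append, List.not_mem_nil, or_false] at hq ⊢
        tauto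
      have hap : a.1 ≤ p.1 := (hA a List.mem_cons_self).le
      have hup : u.1 < p.1 := (hA u (hmem u (by simp))).lt e4.le
      have hseg : Seg H p a mid u :=
        { run := ⟨s, hs, e2⟩
          first := by
            intro b' M hM
            have : b' = b := by
              have h6 : mid ++ u :: Q2 = b' :: (M ++ Q2) := by
                have : mid ++ u :: Q2 = (mid ++ [u]) ++ Q2 := by simp
                rw [this, hM]
                rfl
              rw [← e1] at h6
              exact (List.cons.inj h6).1.symm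
            rw [this]
            exact h
          low := hlow
          low' := hlow'
          high := e4
          high' := e5
          sep := by
            intro q hq q' hq' hne
            have hin : ∀ q ∈ p :: a :: (mid ++ [u]), q ∈ T := by
              intro q hq
              rcases List.mem_cons.1 hq with rfl | hq
              · exact hp
              · exact hQT q (hmem q hq)
            exact hT q (hin q hq) q' (hin q' hq') hne
          after := fun q hq => hA q (hmem q hq)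
          strip := by
            intro q hq
            rcases List.mem_cons.1 hq with rfl | hq
            · exact hTs _ hp
            · exact hTs _ (hQT q (hmem q hq)) }
      have hgain := hG.mid p a mid u hseg
      refine ⟨p :: u :: Q2, ⟨⟨hlow, hlow'⟩, ?_, ⟨e4, e5⟩, ?_, ?_⟩, ?_, ?_⟩
      · rw [swi_up hap]
        exact hs
      · rw [swi_up hap, swi_down hup]
        linarith [h0_pos]
      · rw [swi_down hup]
        exact e3
      · intro q hq
        rw [e1]
        simp only [List.mem_cons, List.mem_append] at hq ⊢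
        tauto
      · rw [e1, tot_append]
        simp only [tot]
        linarith

/-- Insertion of a point at the top of the strip. -/
theorem insert_top {H : ℝ} {φ : Pt → Pt → ℝ} {F G : Pt → ℝ} {W : ℝ → ℝ} (hG : Gain H φ F G W)
    {T : Set Pt} (hT : ∀ q ∈ T, ∀ q' ∈ T, q ≠ q' → Sep q q') (hTs : ∀ q ∈ T, 0 ≤ q.2 ∧ q.2 ≤ H)
    {p : Pt} (hp : p ∈ T) (hpH : p.2 = H) (Q : List Pt) :
    ∀ {s : ℝ} {a : Pt}, Path H s a Q → s < p.2 - h0 → a.2 ≤ s + h0 →
      (∀ q ∈ a :: Q, q ∈ T) → (∀ q ∈ a :: Q, After p q) →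
      ∃ Q', Path H s a Q' ∧ (∀ q ∈ Q', q = p ∨ q ∈ Q) ∧
        tot φ G a Q + W p.2 ≤ tot φ G a Q' := by
  induction Q with
  | nil =>
    intro s a hP hs ha _ _
    exfalso
    linarith [hP.1]
  | cons b R ih =>
    intro s a hP hs ha hQT hA
    rcases lt_or_ge (swi a b) (p.2 - h0) with h | h
    · obtain ⟨h1, h2, h3⟩ := hP
      obtain ⟨R', e1, e2, e3⟩ := ih h3 h (le_swi h1) (fun q hq => hQT q (List.mem_cons_of_mem _ hq))
        (fun q hq => hA q (List.mem_cons_of_mem _ hq))
      refine ⟨b :: R', ⟨h1, h2, e1⟩, ?_, ?_⟩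
      · intro q hq
        rcases List.mem_cons.1 hq with rfl | hq
        · exact Or.inr List.mem_cons_self
        · rcases e2 q hq with h | h
          · exact Or.inl h
          · exact Or.inr (List.mem_cons_of_mem _ h)
      · simp only [tot]
        linarith
    · have h1 := hP.1
      have h5 := swi_le h1
      have hlow : a.2 < H := by linarith
      have hlow' : H ≤ a.2 + h0 := by linarith
      obtain ⟨mid, u, e1, e2, e3⟩ := path_last hP
      have hmem : ∀ q ∈ a :: (mid ++ [u]), q ∈ a :: b :: R := by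
        intro q hq
        rw [e1]
        exact hq
      have hap : a.1 ≤ p.1 := (hA a List.mem_cons_self).le
      have hseg : SegTop H p a mid u :=
        { run := ⟨s, by linarith, e3⟩
          first := by
            intro b' M hM
            have : b' = b := by
              rw [← e1] at hM
              exact (List.cons.inj hM).1.symm
            rw [this, ← hpH]
            exact h
          low := hlow
          low' := hlow'
          top := e2
          top' := hpH
          sep := by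
            intro q hq q' hq' hne
            have hin : ∀ q ∈ p :: a :: (mid ++ [u]), q ∈ T := by
              intro q hq
              rcases List.mem_cons.1 hq with rfl | hq
              · exact hp
              · exact hQT q (hmem q hq)
            exact hT q (hin q hq) q' (hin q' hq') hne
          after := fun q hq => hA q (hmem q hq)
          strip := by
            intro q hq
            rcases List.mem_cons.1 hq with rfl | hq
            · exact hTs _ hp
            · exact hTs _ (hQT q (hmem q hq)) }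
      have hgain := hG.top p a mid u hseg
      refine ⟨[p], ⟨⟨by rw [hpH]; exact hlow, by rw [hpH]; exact hlow'⟩, ?_, hpH, ?_⟩, ?_, ?_⟩
      · rw [swi_up hap]
        exact hs
      · rw [swi_up hap]
        linarith [h0_pos]
      · intro q hq
        simp only [List.mem_cons, List.not_mem_nil, or_false] at hq
        exact Or.inl hq
      · rw [e1, tot_append]
        simp only [tot]
        linarith

/-- Insertion of a point at the bottom of the strip. -/
theorem insert_bot {H : ℝ} {φ : Pt → Pt → ℝ} {F G : Pt → ℝ} {W : ℝ → ℝ} (hG : Gain H φ F G W)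
    (hH : 0 < H) {T : Set Pt} (hT : ∀ q ∈ T, ∀ q' ∈ T, q ≠ q' → Sep q q')
    (hTs : ∀ q ∈ T, 0 ≤ q.2 ∧ q.2 ≤ H)
    {p : Pt} (hp : p ∈ T) (hp0 : p.2 = 0) {Q : List Pt} {a : Pt} (hP : Path H (-h0) a Q)
    (ha : a.2 = 0) (hQT : ∀ q ∈ a :: Q, q ∈ T) (hA : ∀ q ∈ a :: Q, After p q) :
    ∃ Q', Path H (-h0) p Q' ∧ (∀ q ∈ Q', q ∈ Q) ∧
      F a + tot φ G a Q + W p.2 ≤ F p + tot φ G p Q' := by
  cases Q with
  | nil =>
    exfalso
    linarith [hP.1]
  | cons b R =>
    have h1 := hP.1
    have h5 := swi_le h1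
    obtain ⟨mid, u, Q2, e1, e2, e3, e4, e5⟩ := skip hH R hP (by linarith)
    have hmem : ∀ q ∈ a :: (mid ++ [u]), q ∈ a :: b :: R := by
      intro q hq
      rw [e1]
      simp only [List.mem_cons, List.mem_append, List.not_mem_nil, or_false] at hq ⊢
      tauto
    have hup : u.1 < p.1 := (hA u (hmem u (by simp))).lt (by linarith)
    have hseg : SegBot H p a mid u :=
      { run := e2
        bot := ha
        bot' := hp0
        high := e4
        high' := by linarith
        sep := by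
          intro q hq q' hq' hne
          have hin : ∀ q ∈ p :: a :: (mid ++ [u]), q ∈ T := by
            intro q hq
            rcases List.mem_cons.1 hq with rfl | hq
            · exact hp
            · exact hQT q (hmem q hq)
          exact hT q (hin q hq) q' (hin q' hq') hne
        after := fun q hq => hA q (hmem q hq)
        strip := by
          intro q hq
          rcases List.mem_cons.1 hq with rfl | hq
          · exact hTs _ hp
          · exact hTs _ (hQT q (hmem q hq)) }
    have hgain := hG.bot p a mid u hseg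
    refine ⟨u :: Q2, ⟨⟨by linarith, by linarith⟩, ?_, ?_⟩, ?_, ?_⟩
    · rw [swi_down hup]
      linarith [h0_pos]
    · rw [swi_down hup, hp0]
      exact e3
    · intro q hq
      rw [e1]
      exact List.mem_append_right _ hq
    · rw [e1, tot_append]
      simp only [tot]
      linarith

/-- Insertion of an arbitrary point. -/
theorem insert_point {H : ℝ} {φ : Pt → Pt → ℝ} {F G : Pt → ℝ} {W : ℝ → ℝ} (hG : Gain H φ F G W)
    (hH : 0 < H) {T : Set Pt} (hT : ∀ q ∈ T, ∀ q' ∈ T, q ≠ q' → Sep q q')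
    (hTs : ∀ q ∈ T, 0 ≤ q.2 ∧ q.2 ≤ H)
    {p : Pt} (hp : p ∈ T) {Q : List Pt} {a : Pt} (hP : Path H (-h0) a Q)
    (ha : a.2 = 0) (hQT : ∀ q ∈ a :: Q, q ∈ T) (hA : ∀ q ∈ a :: Q, After p q) :
    ∃ a' Q', Path H (-h0) a' Q' ∧ a'.2 = 0 ∧ (∀ q ∈ a' :: Q', q = p ∨ q ∈ a :: Q) ∧
      F a + tot φ G a Q + W p.2 ≤ F a' + tot φ G a' Q' := by
  obtain ⟨hp0, hpH⟩ := hTs p hp
  rcases hp0.eq_or_lt with h | h
  · obtain ⟨Q', e1, e2, e3⟩ := insert_bot hG hH hT hTs hp h.symm hP ha hQT hA
    refine ⟨p, Q', e1, h.symm, ?_, e3⟩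
    intro q hq
    rcases List.mem_cons.1 hq with rfl | hq
    · exact Or.inl rfl
    · exact Or.inr (List.mem_cons_of_mem _ (e2 q hq))
  · have hs : -h0 < p.2 - h0 := by linarith
    have ha' : a.2 ≤ -h0 + h0 := by linarith
    rcases hpH.eq_or_lt with h' | h'
    · obtain ⟨Q', e1, e2, e3⟩ := insert_top hG hT hTs hp h' Q hP hs ha' hQT hA
      refine ⟨a, Q', e1, ha, ?_, by linarith⟩
      intro q hq
      rcases List.mem_cons.1 hq with rfl | hq
      · exact Or.inr List.mem_cons_self
      · rcases e2 q hq with h | h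
        · exact Or.inl h
        · exact Or.inr (List.mem_cons_of_mem _ h)
    · obtain ⟨Q', e1, e2, e3⟩ := insert_mid hG hT hTs hp h' Q hP hs ha' hQT hA
      refine ⟨a, Q', e1, ha, ?_, by linarith⟩
      intro q hq
      rcases List.mem_cons.1 hq with rfl | hq
      · exact Or.inr List.mem_cons_self
      · rcases e2 q hq with h | h
        · exact Or.inl h
        · exact Or.inr (List.mem_cons_of_mem _ h)

/-- Insertion of all points of a finite set. -/
theorem insert_all {H : ℝ} {φ : Pt → Pt → ℝ} {F G : Pt → ℝ} {W : ℝ → ℝ} (hG : Gain H φ F G W)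
    (hH : 0 < H) {T : Set Pt} (hT : ∀ q ∈ T, ∀ q' ∈ T, q ≠ q' → Sep q q')
    (hTs : ∀ q ∈ T, 0 ≤ q.2 ∧ q.2 ≤ H) {a0 : Pt} {Q0 : List Pt} (hP : Path H (-h0) a0 Q0)
    (ha0 : a0.2 = 0) (hQT : ∀ q ∈ a0 :: Q0, q ∈ T) (X : Finset Pt) :
    (∀ p ∈ X, p ∈ T ∧ ∀ q ∈ a0 :: Q0, After p q) →
    ∃ a Q, Path H (-h0) a Q ∧ a.2 = 0 ∧ (∀ q ∈ a :: Q, q ∈ X ∨ q ∈ a0 :: Q0) ∧
      F a0 + tot φ G a0 Q0 + ∑ p ∈ X, W p.2 ≤ F a + tot φ G a Q := by
  classical
  refine Finset.induction_on_max_value (fun p : Pt => toLex p) X ?_ ?_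
  · intro _
    exact ⟨a0, Q0, hP, ha0, fun q hq => Or.inr hq, by simp⟩
  · intro p s hps hmax ih hX
    obtain ⟨a, Q, e1, e2, e3, e4⟩ := ih fun q hq => hX q (Finset.mem_insert_of_mem hq)
    have hpT := hX p (Finset.mem_insert_self _ _)
    have hA : ∀ q ∈ a :: Q, After p q := by
      intro q hq
      rcases e3 q hq with h | h
      · have h1 := hmax q h
        have hne : q ≠ p := fun h => hps (h ▸ ‹q ∈ s›)
        rw [Prod.Lex.le_iff] at h1
        rcases h1 with h1 | ⟨h1, h2⟩
        · exact Or.inl h1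
        · refine Or.inr ⟨h1, lt_of_le_of_ne h2 ?_⟩
          intro h3
          exact hne (Prod.ext h1 h3)
      · exact hpT.2 q h
    have hQT' : ∀ q ∈ a :: Q, q ∈ T := by
      intro q hq
      rcases e3 q hq with h | h
      · exact (hX q (Finset.mem_insert_of_mem h)).1
      · exact hQT q h
    obtain ⟨a', Q', f1, f2, f3, f4⟩ := insert_point hG hH hT hTs hpT.1 e1 e2 hQT' hA
    refine ⟨a', Q', f1, f2, ?_, ?_⟩
    · intro q hq
      rcases f3 q hq with h | h
      · exact Or.inl (h ▸ Finset.mem_insert_self _ _)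
      · rcases e3 q h with h | h
        · exact Or.inl (Finset.mem_insert_of_mem h)
        · exact Or.inr h
    · rw [Finset.sum_insert hps]
      linarith

/-! ### The start column -/

/-- The points `pt (i + 1), ..., pt (i + m)`. -/
def colList (pt : ℕ → Pt) : ℕ → ℕ → List Pt
  | _, 0 => []
  | i, m + 1 => pt (i + 1) :: colList pt (i + 1) m

theorem mem_colList {pt : ℕ → Pt} {m : ℕ} : ∀ {i : ℕ} {q : Pt}, q ∈ colList pt i m →
    ∃ j, j ≤ i + m ∧ q = pt j := by
  induction m with
  | zero => intro i q hq; simp [colList] at hq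
  | succ m ih =>
    intro i q hq
    simp only [colList, List.mem_cons] at hq
    rcases hq with h | h
    · exact ⟨i + 1, by omega, h⟩
    · obtain ⟨j, h1, h2⟩ := ih h
      exact ⟨j, by omega, h2⟩

theorem exists_start {H : ℝ} (hH : 0 < H) : ∃ (a : Pt) (Q : List Pt), Path H (-h0) a Q ∧
    a.2 = 0 ∧ (∀ q ∈ a :: Q, q.1 ≤ -2 ∧ 0 ≤ q.2 ∧ q.2 ≤ H) ∧
      ∀ q ∈ a :: Q, ∀ q' ∈ a :: Q, q ≠ q' → Sep q q' := by
  have h0' := h0_pos
  set N : ℕ := ⌈H / h0⌉₊ with hN
  have hN0 : 0 < N := Nat.ceil_pos.2 (div_pos hH h0')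
  have hNr : (0 : ℝ) < N := by exact_mod_cast hN0
  have hst : H / N ≤ h0 := by
    rw [div_le_iff₀ hNr]
    have : H / h0 ≤ N := Nat.le_ceil _
    rw [div_le_iff₀ h0'] at this
    linarith
  have hst0 : 0 < H / N := div_pos hH hNr
  set pt : ℕ → Pt := fun i => (-(N + 2 : ℝ) + i, i * (H / N)) with hpt
  have e1 : ∀ i, (pt i).1 = -(N + 2 : ℝ) + i := fun i => rfl
  have e2 : ∀ i, (pt i).2 = i * (H / N) := fun i => rfl
  have hok : ∀ i, OkEdge (pt i) (pt (i + 1)) := by
    intro i
    unfold OkEdge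
    rw [e2, e2]
    push_cast
    constructor <;> linarith
  have hsw : ∀ i, swi (pt i) (pt (i + 1)) = (i + 1) * (H / N) - h0 := by
    intro i
    rw [swi_up (by rw [e1, e1]; push_cast; linarith), e2]
    push_cast
    ring
  have hpath : ∀ m i s, i + m = N → s < (i + 1) * (H / N) - h0 → s < H →
      Path H s (pt i) (colList pt i m) := by
    intro m
    induction m with
    | zero =>
      intro i s hi hs hs'
      have : i = N := by omega
      refine ⟨?_, hs'⟩
      rw [e2, this]
      field_simp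
    | succ m ih =>
      intro i s hi hs hs'
      refine ⟨hok i, by rw [hsw]; exact hs, ?_⟩
      rw [hsw]
      apply ih (i + 1) _ (by omega)
      · push_cast
        linarith
      · have h1 : (i + 1 : ℝ) ≤ N := by
          have : i + 1 ≤ N := by omega
          exact_mod_cast this
        have h2 : (i + 1 : ℝ) * (H / N) ≤ N * (H / N) :=
          mul_le_mul_of_nonneg_right h1 hst0.le
        have h3 : (N : ℝ) * (H / N) = H := by field_simp
        linarith
  have hmem : ∀ q ∈ pt 0 :: colList pt 0 N, ∃ j, j ≤ N ∧ q = pt j := by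
    intro q hq
    rcases List.mem_cons.1 hq with h | h
    · exact ⟨0, by omega, h⟩
    · obtain ⟨j, h1, h2⟩ := mem_colList h
      exact ⟨j, by omega, h2⟩
  refine ⟨pt 0, colList pt 0 N, hpath N 0 (-h0) (by omega) (by push_cast; linarith) (by linarith),
    by rw [e2]; simp, ?_, ?_⟩
  · intro q hq
    obtain ⟨j, hj, rfl⟩ := hmem q hq
    have h1 : (j : ℝ) ≤ N := by exact_mod_cast hj
    have h2 : (j : ℝ) * (H / N) ≤ N * (H / N) := mul_le_mul_of_nonneg_right h1 hst0.le
    have h3 : (N : ℝ) * (H / N) = H := by field_simp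
    rw [e1, e2]
    refine ⟨by linarith, by positivity, by linarith⟩
  · intro q hq q' hq' hne
    obtain ⟨j, hj, rfl⟩ := hmem q hq
    obtain ⟨k, hk, rfl⟩ := hmem q' hq'
    have hjk : j ≠ k := fun h => hne (by rw [h])
    have h1 : 1 ≤ ((j : ℝ) - k) ^ 2 := by
      have h2 : (1 : ℤ) ≤ ((j : ℤ) - k) ^ 2 := by
        have : (j : ℤ) - k ≠ 0 := by omega
        have := sq_pos_of_ne_zero this
        omega
      exact_mod_cast h2
    unfold Sep
    rw [e1, e1, e2, e2]
    nlinarith [sq_nonneg ((j : ℝ) * (H / N) - k * (H / N))]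

/-! ### The potential with a measure of windows -/

/-- The edge term of the potential `∑ x_i (U (end of i) - U (start of i)) + ∑ ψ`. -/
noncomputable def phi (U : ℝ → ℝ) (ψ : Pt → Pt → ℝ) (p q : Pt) : ℝ :=
  (p.1 - q.1) * U (swi p q) + ψ p q

theorem tot_le {H L K : ℝ} {U : ℝ → ℝ} {ψ : Pt → Pt → ℝ} (hU : Monotone U) {T : Set Pt}
    (hψ : ∀ a ∈ T, ∀ b ∈ T, OkEdge a b → ψ a b ≤ K * (b.2 - a.2)) (hL : ∀ q ∈ T, q.1 ≤ L)
    (Q : List Pt) : ∀ {s : ℝ} {a : Pt}, Path H s a Q → (∀ q ∈ a :: Q, q ∈ T) →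
    -a.1 * U s + tot (phi U ψ) (fun q => q.1 * U H) a Q ≤ L * (U H - U s) + K * (H - a.2) := by
  induction Q with
  | nil =>
    intro s a hP hQ
    have h1 := hU hP.2.le
    have h2 := hL a (hQ a List.mem_cons_self)
    have h3 := hP.1
    simp only [tot]
    have h4 := mul_le_mul_of_nonneg_right h2 (sub_nonneg.2 h1)
    rw [h3]
    nlinarith
  | cons b R ih =>
    intro s a hP hQ
    obtain ⟨h1, h2, h3⟩ := hP
    have h4 := ih h3 fun q hq => hQ q (List.mem_cons_of_mem _ hq)
    have haT := hQ a List.mem_cons_self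
    have hbT := hQ b (List.mem_cons_of_mem _ List.mem_cons_self)
    have h5 := hψ a haT b hbT h1
    have h6 := mul_le_mul_of_nonneg_right (hL a haT) (sub_nonneg.2 (hU h2.le))
    simp only [tot, phi]
    nlinarith

/-- From the insertion inequalities to the bound for the total weight. -/
theorem machine {H K : ℝ} (hH : 0 < H) {U : ℝ → ℝ} {ψ : Pt → Pt → ℝ} {W : ℝ → ℝ}
    (hU : Monotone U)
    (hψ : ∀ a b : Pt, OkEdge a b → Sep a b → 0 ≤ a.2 → b.2 ≤ H → ψ a b ≤ K * (b.2 - a.2))
    (hG : Gain H (phi U ψ) (fun q => -q.1 * U (-h0)) (fun q => q.1 * U H) W) :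
    ∃ C0 : ℝ, ∀ L : ℝ, 0 ≤ L → ∀ X : Finset Pt, UnitSep X → InStrip H X →
      (∀ p ∈ X, 0 ≤ p.1 ∧ p.1 ≤ L) → ∑ p ∈ X, W p.2 ≤ (U H - U (-h0)) * L + C0 := by
  obtain ⟨a0, Q0, hP0, ha0, hx0, hs0⟩ := exists_start hH
  refine ⟨K * H - (-a0.1 * U (-h0) + tot (phi U ψ) (fun q => q.1 * U H) a0 Q0), ?_⟩
  intro L hL X hX hXH hXL
  set T : Set Pt := {q | q ∈ X ∨ q ∈ a0 :: Q0} with hTdef
  have hcross : ∀ q ∈ X, ∀ q' ∈ a0 :: Q0, Sep q q' ∧ Sep q' q := by
    intro q hq q' hq'
    have h1 := (hXL q hq).1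
    have h2 := (hx0 q' hq').1
    unfold Sep
    constructor <;> nlinarith [sq_nonneg (q.2 - q'.2)]
  have hT : ∀ q ∈ T, ∀ q' ∈ T, q ≠ q' → Sep q q' := by
    rintro q (hq | hq) q' (hq' | hq') hne
    · exact hX q hq q' hq' hne
    · exact (hcross q hq q' hq').1
    · exact (hcross q' hq' q hq).2
    · exact hs0 q hq q' hq' hne
  have hTs : ∀ q ∈ T, 0 ≤ q.2 ∧ q.2 ≤ H := by
    rintro q (hq | hq)
    · exact hXH q hq
    · exact (hx0 q hq).2
  obtain ⟨a, Q, hP, ha, hQ, hΦ⟩ := insert_all hG hH hT hTs hP0 ha0 (fun q hq => Or.inr hq) X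
    (fun p hp => ⟨Or.inl hp, fun q hq => Or.inl (by linarith [(hXL p hp).1, (hx0 q hq).1])⟩)
  have h1 := tot_le (H := H) (L := L) (K := K) hU (T := T)
    (fun a ha b hb hab => hψ a b hab (hT a ha b hb (by
      intro h
      rw [h] at hab
      exact lt_irrefl _ hab.1)) (hTs a ha).1 (hTs b hb).2)
    (by
      rintro q (hq | hq)
      · exact (hXL q hq).2
      · linarith [(hx0 q hq).1]) Q hP hQ
  rw [ha] at h1
  linarith

end Pool.Agent.Strip051
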