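import Pool.Agent.StripSquare.Arc
import Pool.Agent.Strip051.Machine

/-! # The front of a set of discs of radius one, seen upwards from a given height

`arc q` is the right boundary of the disc of radius one about `q`.  A front above the height `y` is
given by its first disc and the list of the switches `(z, q)` to the next discs.  `insert_up` says
what happens to the front above `P` when the disc of a new point `P`, the last one in the order of
the first coordinates, is added. -/

namespace Pool.Agent.Strip051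

open Pool.Agent.StripNear Pool.Agent.StripSquare

/-- The right boundary of the disc of radius one about `q`, at height `z` (`|z - q.2| ≤ 1`). -/
noncomputable def arc (q : Pt) (z : ℝ) : ℝ := q.1 + g (z - q.2)

theorem g_cont : Continuous g := by
  unfold g
  fun_prop

theorem arc_cont (q : Pt) : Continuous (arc q) := by
  unfold arc
  exact continuous_const.add (g_cont.comp (continuous_id.sub continuous_const))

theorem g_neg (r : ℝ) : g (-r) = g r := by
  unfold g
  rw [neg_sq]

theorem g_anti {a b : ℝ} (ha : 0 ≤ a) (hab : a ≤ b) : g b ≤ g a := by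
  unfold g
  apply Real.sqrt_le_sqrt
  nlinarith

theorem g_one : g 1 = 0 := by
  unfold g
  norm_num

theorem arc_self (q : Pt) : arc q q.2 = q.1 + 1 := by
  unfold arc
  rw [sub_self, g_zero]

theorem le_arc (q : Pt) (z : ℝ) : q.1 ≤ arc q z := by
  unfold arc
  linarith [g_nonneg (z - q.2)]

theorem arc_le (q : Pt) (z : ℝ) : arc q z ≤ q.1 + 1 := by
  unfold arc
  linarith [g_le_one (z - q.2)]

/-- A lower disc loses against a higher disc on the way up. -/
theorem arc_mono {p q : Pt} (h : p.2 ≤ q.2) {t t' : ℝ} (ht : t ≤ t') (h1 : q.2 - 1 ≤ t)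
    (h2 : t' ≤ p.2 + 1) : arc q t - arc p t ≤ arc q t' - arc p t' := by
  have := four (x := t - q.2) (y := t' - q.2) (z := t - p.2) (w := t' - p.2) (by linarith)
    (by linarith) (by linarith) (by linarith) (by ring)
  unfold arc
  linarith

/-- Above its own height the newest disc is ahead of the discs with smaller height. -/
theorem arc_le_of_low {p q : Pt} (hx : q.1 ≤ p.1) (h : q.2 ≤ p.2) {t : ℝ} (ht : p.2 ≤ t) :
    arc q t ≤ arc p t := by
  have := g_anti (a := t - p.2) (b := t - q.2) (by linarith) (by linarith)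
  unfold arc
  linarith

theorem le_right {f k : ℝ → ℝ} (hf : Continuous f) (hk : Continuous k) {m z : ℝ} (hmz : m < z)
    (h : ∀ t, m < t → t < z → f t ≤ k t) : f z ≤ k z := by
  have h1 : IsClosed {t | f t ≤ k t} := isClosed_le hf hk
  have h2 : Set.Ioo m z ⊆ {t | f t ≤ k t} := fun t ht => h t ht.1 ht.2
  have h3 : closure (Set.Ioo m z) ⊆ {t | f t ≤ k t} := closure_minimal h2 h1
  rw [closure_Ioo hmz.ne] at h3
  exact h3 ⟨hmz.le, le_refl _⟩

theorem le_left {f k : ℝ → ℝ} (hf : Continuous f) (hk : Continuous k) {m z : ℝ} (hmz : m < z)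
    (h : ∀ t, m < t → t < z → f t ≤ k t) : f m ≤ k m := by
  have h1 : IsClosed {t | f t ≤ k t} := isClosed_le hf hk
  have h2 : Set.Ioo m z ⊆ {t | f t ≤ k t} := fun t ht => h t ht.1 ht.2
  have h3 : closure (Set.Ioo m z) ⊆ {t | f t ≤ k t} := closure_minimal h2 h1
  rw [closure_Ioo hmz.ne] at h3
  exact h3 ⟨le_refl _, hmz.le⟩

/-- `q` is the most advanced disc of `S` at all heights strictly between `a` and `b`. -/
def Top (S : Set Pt) (q : Pt) (a b : ℝ) : Prop :=
  q ∈ S ∧ ∀ t, a < t → t < b → |t - q.2| ≤ 1 ∧ ∀ r ∈ S, |t - r.2| ≤ 1 → arc r t ≤ arc q t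

/-- `P` is ahead of all discs of `S` at all heights strictly between `a` and `b`. -/
def Ahead (S : Set Pt) (P : Pt) (a b : ℝ) : Prop :=
  ∀ t, a < t → t < b → |t - P.2| ≤ 1 ∧ ∀ r ∈ S, |t - r.2| ≤ 1 → arc r t ≤ arc P t

theorem Top.near {S : Set Pt} {q : Pt} {a b : ℝ} (h : Top S q a b) (hab : a < b) :
    q.2 - 1 ≤ a ∧ b ≤ q.2 + 1 := by
  have h1 := le_left (f := fun t => |t - q.2|) (k := fun _ => 1) (by fun_prop) (by fun_prop) hab
    (fun t h1 h2 => (h.2 t h1 h2).1)
  have h2 := le_right (f := fun t => |t - q.2|) (k := fun _ => 1) (by fun_prop) (by fun_prop) hab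
    (fun t h1 h2 => (h.2 t h1 h2).1)
  rw [abs_le] at h1 h2
  constructor <;> linarith [h1.1, h1.2, h2.1, h2.2]

theorem Top.mono {S : Set Pt} {q : Pt} {a b a' b' : ℝ} (h : Top S q a b) (ha : a ≤ a')
    (hb : b' ≤ b) : Top S q a' b' :=
  ⟨h.1, fun t h1 h2 => h.2 t (ha.trans_lt h1) (h2.trans_le hb)⟩

theorem Ahead.trans {S : Set Pt} {P : Pt} {a b c : ℝ} (h1 : Ahead S P a b) (h2 : Ahead S P b c)
    (hb : |b - P.2| ≤ 1 ∧ ∀ r ∈ S, |b - r.2| ≤ 1 → arc r b ≤ arc P b) : Ahead S P a c := by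
  intro t ht1 ht2
  rcases lt_trichotomy t b with h | h | h
  · exact h1 t ht1 h
  · rw [h]
    exact hb
  · exact h2 t h ht2

/-- The front above `y`, first disc `q`, switches in the list; pieces of positive length, the
heights of the discs increase. -/
def UpS (S : Set Pt) (H : ℝ) : ℝ → Pt → List (ℝ × Pt) → Prop
  | y, q, [] => y < H ∧ Top S q y H
  | y, q, e :: L => y < e.1 ∧ Top S q y e.1 ∧ q.2 < e.2.2 ∧ UpS S H e.1 e.2 L

/-- The front above `y`; the first piece may have length zero. -/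
def Up (S : Set Pt) (H : ℝ) : ℝ → Pt → List (ℝ × Pt) → Prop
  | y, q, [] => y ≤ H ∧ Top S q y H
  | y, q, e :: L => y ≤ e.1 ∧ Top S q y e.1 ∧ q.2 < e.2.2 ∧ UpS S H e.1 e.2 L

theorem UpS.up {S : Set Pt} {H y : ℝ} {q : Pt} {L : List (ℝ × Pt)} (h : UpS S H y q L) :
    Up S H y q L := by
  cases L with
  | nil => exact ⟨h.1.le, h.2⟩
  | cons e L => exact ⟨h.1.le, h.2⟩

theorem Up.mem {S : Set Pt} {H y : ℝ} {q : Pt} {L : List (ℝ × Pt)} (h : Up S H y q L) :
    q ∈ S := by
  cases L with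
  | nil => exact h.2.1
  | cons e L => exact h.2.1.1

theorem UpS.lt {S : Set Pt} {H y : ℝ} {q : Pt} {L : List (ℝ × Pt)} (h : UpS S H y q L) :
    y < H := by
  induction L generalizing y q with
  | nil => exact h.1
  | cons e L ih => exact h.1.trans (ih h.2.2.2)

theorem Up.le {S : Set Pt} {H y : ℝ} {q : Pt} {L : List (ℝ × Pt)} (h : Up S H y q L) :
    y ≤ H := by
  cases L with
  | nil => exact h.1
  | cons e L => exact h.1.trans h.2.2.2.lt.le

/-- A segment of a front from `z` (disc `q`) to `B` (disc `e`); all pieces but the last one have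
positive length. -/
def SegS (S : Set Pt) : ℝ → Pt → List (ℝ × Pt) → ℝ → Pt → Prop
  | z, q, [], B, e => q = e ∧ z ≤ B ∧ Top S q z B
  | z, q, d :: C, B, e => z < d.1 ∧ Top S q z d.1 ∧ q.2 < d.2.2 ∧ SegS S d.1 d.2 C B e

/-- The disc of `P` ends to be visible at `B`, where the disc `e` takes over. -/
structure Exit (P e : Pt) (B : ℝ) : Prop where
  above : P.2 < e.2
  le : B ≤ P.2 + 1
  lo : e.2 - 1 ≤ B
  cross : arc e B = arc P B ∨ (B = P.2 + 1 ∧ arc e B ≤ P.1)

/-- The result of an insertion above `P`: the old front is `(q, L)`, the new one is `(P, L')`. -/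
inductive Result (S : Set Pt) (H : ℝ) (P q : Pt) (L : List (ℝ × Pt)) : List (ℝ × Pt) → Prop
  | wall : H ≤ P.2 + 1 → Ahead S P P.2 H → Result S H P q L []
  | exit (C R : List (ℝ × Pt)) (B : ℝ) (e : Pt) : L = C ++ R → SegS S P.2 q C B e →
      UpS S H B e R → Ahead S P P.2 B → P.2 < B → Exit P e B → Result S H P q L ((B, e) :: R)

/-- Being ahead in the limit. -/
theorem ahead_limit {S : Set Pt} {P : Pt} (hx : ∀ r ∈ S, r.1 ≤ P.1) {a z : ℝ} (haz : a < z)
    (h : Ahead S P a z) {r : Pt} (hr : r ∈ S) (h1 : |z - r.2| ≤ 1) :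
    arc r z ≤ arc P z := by
  rw [abs_le] at h1
  rcases eq_or_lt_of_le (show r.2 - 1 ≤ z by linarith [h1.1]) with h2 | h2
  · have h3 : arc r z = r.1 := by
      unfold arc
      rw [← h2, show r.2 - 1 - r.2 = -1 by ring, g_neg, g_one, add_zero]
    rw [h3]
    exact (hx r hr).trans (le_arc P z)
  · refine le_right (arc_cont r) (arc_cont P) (m := max a (r.2 - 1)) (max_lt haz h2) ?_
    intro t ht1 ht2
    rw [max_lt_iff] at ht1
    exact (h t ht1.1 ht2).2 r hr (by rw [abs_le]; constructor <;> linarith [h1.1, h1.2])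

theorem ahead_closed {S : Set Pt} {P : Pt} (hx : ∀ r ∈ S, r.1 ≤ P.1) {a z : ℝ} (haz : a < z)
    (h : Ahead S P a z) :
    |z - P.2| ≤ 1 ∧ ∀ r ∈ S, |z - r.2| ≤ 1 → arc r z ≤ arc P z := by
  refine ⟨?_, fun r hr h1 => ahead_limit hx haz h hr h1⟩
  exact le_right (f := fun t => |t - P.2|) (k := fun _ => 1) (by fun_prop) (by fun_prop) haz
    (fun t h1 h2 => (h t h1 h2).1)

/-- One piece of the old front. -/
theorem piece {S : Set Pt} {P q : Pt} (hx : ∀ r ∈ S, r.1 ≤ P.1) {a z : ℝ} (haz : a < z)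
    (hT : Top S q a z) (ha : P.2 ≤ a) (ha' : a ≤ P.2 + 1) (hq : arc q a ≤ arc P a) :
    (z ≤ P.2 + 1 ∧ Ahead S P a z) ∨
      ∃ B, a ≤ B ∧ B < z ∧ Ahead S P a B ∧ P.2 < B ∧ Exit P q B := by
  obtain ⟨n1, n2⟩ := hT.near haz
  rcases le_or_gt q.2 P.2 with h | h
  · left
    refine ⟨by linarith, fun t ht1 ht2 => ⟨?_, ?_⟩⟩
    · rw [abs_le]
      constructor <;> linarith
    · intro r hr h1
      exact ((hT.2 t ht1 ht2).2 r hr h1).trans (arc_le_of_low (hx q hT.1) h (by linarith))
  · -- `q` is higher than `P`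
    have key : ∀ B, B ≤ z → B ≤ P.2 + 1 → arc q B ≤ arc P B → Ahead S P a B := by
      intro B hB1 hB2 hB3 t ht1 ht2
      refine ⟨?_, ?_⟩
      · rw [abs_le]
        constructor <;> linarith
      · intro r hr h1
        have h2 := (hT.2 t ht1 (ht2.trans_le hB1)).2 r hr h1
        have h3 := arc_mono h.le ht2.le (by linarith) hB2
        linarith
    rcases le_or_gt z (P.2 + 1) with hz | hz
    · rcases le_or_gt (arc q z) (arc P z) with h1 | h1
      · left
        exact ⟨hz, key z le_rfl hz h1⟩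
      · right
        obtain ⟨B, hB, hB'⟩ := intermediate_value_Icc haz.le
          (f := fun t => arc q t - arc P t)
          ((arc_cont q).sub (arc_cont P)).continuousOn
          (show (0 : ℝ) ∈ Set.Icc (arc q a - arc P a) (arc q z - arc P z) from
            ⟨by linarith, by linarith⟩)
        simp only at hB'
        have hBz : B < z := by
          rcases eq_or_lt_of_le hB.2 with h2 | h2
          · rw [h2] at hB'
            linarith
          · exact h2
        have hPB : P.2 < B := by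
          rcases eq_or_lt_of_le (ha.trans hB.1) with h2 | h2
          · exfalso
            rw [← h2, arc_self] at hB'
            have h3 : g (P.2 - q.2) < 1 := by
              unfold g
              rw [Real.sqrt_lt' (by norm_num)]
              nlinarith
            have h4 := hx q hT.1
            unfold arc at hB'
            linarith
          · exact h2
        exact ⟨B, hB.1, hBz, key B hBz.le (by linarith) (by linarith), hPB,
          ⟨h, by linarith, by linarith [hB.1], Or.inl (by linarith)⟩⟩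
    · rcases le_or_gt (arc q (P.2 + 1)) (arc P (P.2 + 1)) with h1 | h1
      · right
        refine ⟨P.2 + 1, ha', hz, key _ hz.le le_rfl h1, by linarith, ⟨h, le_rfl, by linarith,
          Or.inr ⟨rfl, ?_⟩⟩⟩
        have h2 : arc P (P.2 + 1) = P.1 := by
          unfold arc
          rw [show P.2 + 1 - P.2 = 1 by ring, g_one, add_zero]
        linarith
      · right
        obtain ⟨B, hB, hB'⟩ := intermediate_value_Icc ha'
          (f := fun t => arc q t - arc P t)
          ((arc_cont q).sub (arc_cont P)).continuousOn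
          (show (0 : ℝ) ∈ Set.Icc (arc q a - arc P a) (arc q (P.2 + 1) - arc P (P.2 + 1)) from
            ⟨by linarith, by linarith⟩)
        simp only at hB'
        have hPB : P.2 < B := by
          rcases eq_or_lt_of_le (ha.trans hB.1) with h2 | h2
          · exfalso
            rw [← h2, arc_self] at hB'
            have h3 : g (P.2 - q.2) < 1 := by
              unfold g
              rw [Real.sqrt_lt' (by norm_num)]
              nlinarith
            have h4 := hx q hT.1
            unfold arc at hB'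
            linarith
          · exact h2
        exact ⟨B, hB.1, by linarith [hB.2], key B (by linarith [hB.2]) hB.2 (by linarith), hPB,
          ⟨h, hB.2, by linarith [hB.1], Or.inl (by linarith)⟩⟩

/-- The pieces of the old front which are hidden by `P`. -/
theorem ins_rec {S : Set Pt} {H : ℝ} {P : Pt} (hx : ∀ r ∈ S, r.1 ≤ P.1) (L : List (ℝ × Pt)) :
    ∀ {a : ℝ} {q : Pt}, UpS S H a q L → P.2 ≤ a → a ≤ P.2 + 1 → arc q a ≤ arc P a →
      (H ≤ P.2 + 1 ∧ Ahead S P a H) ∨ ∃ C R B e, L = C ++ R ∧ SegS S a q C B e ∧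
        UpS S H B e R ∧ Ahead S P a B ∧ P.2 < B ∧ Exit P e B := by
  induction L with
  | nil =>
    intro a q hU h1 h2 h3
    obtain ⟨hz, hT⟩ := hU
    rcases piece hx hz hT h1 h2 h3 with h | ⟨B, b1, b2, b3, b4, b5⟩
    · exact Or.inl h
    · exact Or.inr ⟨[], [], B, q, rfl, ⟨rfl, b1, hT.mono le_rfl b2.le⟩,
        ⟨b2, hT.mono b1 le_rfl⟩, b3, b4, b5⟩
  | cons d L ih =>
    intro a q hU h1 h2 h3
    obtain ⟨hz, hT, hlt, hU'⟩ := hU
    rcases piece hx hz hT h1 h2 h3 with ⟨h4, h5⟩ | ⟨B, b1, b2, b3, b4, b5⟩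
    · have hc := ahead_closed hx hz h5
      have hnear : |d.1 - d.2.2| ≤ 1 ∧ d.2 ∈ S := by
        cases L with
        | nil =>
          obtain ⟨k1, k2⟩ := hU'.2.near hU'.1
          refine ⟨?_, hU'.2.1⟩
          rw [abs_le]
          constructor <;> linarith [hU'.1]
        | cons d' L =>
          obtain ⟨k1, k2⟩ := hU'.2.1.near hU'.1
          refine ⟨?_, hU'.2.1.1⟩
          rw [abs_le]
          constructor <;> linarith [hU'.1]
      have h6 := hc.2 d.2 hnear.2 hnear.1
      rcases ih hU' (by linarith) h4 h6 with ⟨w1, w2⟩ | ⟨C, R, B, e, c1, c2, c3, c4, c5, c6⟩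
      · exact Or.inl ⟨w1, h5.trans w2 hc⟩
      · exact Or.inr ⟨d :: C, R, B, e, by rw [c1]; rfl, ⟨hz, hT, hlt, c2⟩, c3,
          h5.trans c4 hc, c5, c6⟩
    · exact Or.inr ⟨[], d :: L, B, q, rfl, ⟨rfl, b1, hT.mono le_rfl b2.le⟩,
        ⟨b2, hT.mono b1 le_rfl, hlt, hU'⟩, b3, b4, b5⟩

/-- Insertion of `P` in the upper front. -/
theorem insert_up {S : Set Pt} {H : ℝ} {P q : Pt} (hx : ∀ r ∈ S, r.1 ≤ P.1)
    {L : List (ℝ × Pt)} (hU : UpS S H P.2 q L) : ∃ L', Result S H P q L L' := by
  have hstart : arc q P.2 ≤ arc P P.2 := by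
    rw [arc_self]
    linarith [arc_le q P.2, hx q hU.up.mem]
  rcases ins_rec hx L hU le_rfl (by linarith) hstart with
    ⟨w1, w2⟩ | ⟨C, R, B, e, c1, c2, c3, c4, c5, c6⟩
  · exact ⟨[], Result.wall w1 w2⟩
  · exact ⟨_, Result.exit C R B e c1 c2 c3 c4 c5 c6⟩

/-! ### The new front is a front for `insert P S` -/

theorem Top.insert {S : Set Pt} {P q : Pt} {a b : ℝ} (h : Top S q a b)
    (hP : ∀ t, a < t → t < b → |t - P.2| ≤ 1 → arc P t ≤ arc q t) :
    Top (insert P S) q a b := by
  refine ⟨Set.mem_insert_of_mem _ h.1, fun t h1 h2 => ⟨(h.2 t h1 h2).1, ?_⟩⟩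
  intro r hr h3
  rcases Set.mem_insert_iff.1 hr with rfl | hr
  · exact hP t h1 h2 h3
  · exact (h.2 t h1 h2).2 r hr h3

theorem Ahead.top {S : Set Pt} {P : Pt} {a b : ℝ} (h : Ahead S P a b) :
    Top (insert P S) P a b := by
  refine ⟨Set.mem_insert _ _, fun t h1 h2 => ⟨(h t h1 h2).1, ?_⟩⟩
  intro r hr h3
  rcases Set.mem_insert_iff.1 hr with rfl | hr
  · exact le_rfl
  · exact (h t h1 h2).2 r hr h3

theorem UpS.insert {S : Set Pt} {H : ℝ} {P : Pt} {L : List (ℝ × Pt)} :
    ∀ {a : ℝ} {q : Pt}, UpS S H a q L →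
      (∀ t, a < t → |t - P.2| ≤ 1 → ∃ r ∈ S, |t - r.2| ≤ 1 ∧ arc P t ≤ arc r t) →
      UpS (insert P S) H a q L := by
  induction L with
  | nil =>
    intro a q hU hP
    refine ⟨hU.1, hU.2.insert ?_⟩
    intro t h1 h2 h3
    obtain ⟨r, r1, r2, r3⟩ := hP t h1 h3
    exact r3.trans ((hU.2.2 t h1 h2).2 r r1 r2)
  | cons d L ih =>
    intro a q hU hP
    refine ⟨hU.1, hU.2.1.insert ?_, hU.2.2.1, ih hU.2.2.2 fun t h1 h2 => hP t (hU.1.trans h1) h2⟩
    intro t h1 h2 h3
    obtain ⟨r, r1, r2, r3⟩ := hP t h1 h3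
    exact r3.trans ((hU.2.1.2 t h1 h2).2 r r1 r2)

theorem Exit.behind {S : Set Pt} {P e : Pt} {B : ℝ} (h : Exit P e B) (he : e ∈ S) :
    ∀ t, B < t → |t - P.2| ≤ 1 → ∃ r ∈ S, |t - r.2| ≤ 1 ∧ arc P t ≤ arc r t := by
  intro t ht h1
  rw [abs_le] at h1
  have h2 := h.above
  have h3 := h.lo
  refine ⟨e, he, ?_, ?_⟩
  · rw [abs_le]
    constructor <;> linarith [h1.2]
  · rcases h.cross with h4 | ⟨h4, -⟩
    · have h5 := arc_mono h2.le ht.le h3 (by linarith [h1.2])
      linarith
    · linarith [h1.2]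

/-- The new upper front. -/
theorem Result.up {S : Set Pt} {H : ℝ} {P q : Pt} {L L' : List (ℝ × Pt)} (hPH : P.2 ≤ H)
    (h : Result S H P q L L') : Up (insert P S) H P.2 P L' := by
  cases h with
  | wall h1 h2 => exact ⟨hPH, h2.top⟩
  | exit C R B e h1 h2 h3 h4 h5 h6 =>
    exact ⟨h5.le, h4.top, h6.above, h3.insert (h6.behind h3.up.mem)⟩

/-- The first switch of a list. -/
def nxt (H : ℝ) (L : List (ℝ × Pt)) : ℝ := (L.head?.map Prod.fst).getD H

theorem nxt_nil (H : ℝ) : nxt H [] = H := rfl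

theorem nxt_cons (H : ℝ) (d : ℝ × Pt) (L : List (ℝ × Pt)) : nxt H (d :: L) = d.1 := rfl

theorem Result.nxt {S : Set Pt} {H : ℝ} {P q : Pt} {L L' : List (ℝ × Pt)}
    (h : Result S H P q L L') (hPH : P.2 < H) : P.2 < nxt H L' := by
  cases h with
  | wall h1 h2 => exact hPH
  | exit C R B e h1 h2 h3 h4 h5 h6 => exact h5

end Pool.Agent.Strip051
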