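import Pool.Agent.Strip051.Machine

/-! # Packings of maximal cardinality, pushed to the left

In the rectangle `[0, L] × [0, H]` there is a unit-separated set of maximal cardinality in which
every point with positive first coordinate touches a point further left.  It is saturated. -/

namespace Pool.Agent.Strip051

open Pool.Agent.StripNear Filter Topology

/-- A unit-separated set in a rectangle. -/
structure Box (L H : ℝ) (X : Finset Pt) : Prop where
  sep : UnitSep X
  strip : InStrip H X
  x : ∀ p ∈ X, 0 ≤ p.1 ∧ p.1 ≤ L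

theorem card_le_box {a w H : ℝ} {X : Finset Pt} (hX : UnitSep X)
    (hx : ∀ p ∈ X, a ≤ p.1 ∧ p.1 ≤ a + w) (hH : InStrip H X) :
    X.card ≤ (⌊2 * w⌋₊ + 1) * (⌊2 * H⌋₊ + 1) := by
  classical
  have h1 : X.card ≤ (Finset.range (⌊2 * w⌋₊ + 1) ×ˢ Finset.range (⌊2 * H⌋₊ + 1)).card := by
    refine Finset.card_le_card_of_injOn (fun p => (⌊2 * (p.1 - a)⌋₊, ⌊2 * p.2⌋₊)) ?_ ?_
    · intro p hp
      have h1 := hx p hp
      have h2 := hH p hp
      simp only [Finset.coe_product, Finset.coe_range, Set.mem_prod, Set.mem_Iio]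
      constructor
      · exact Nat.lt_succ_of_le (Nat.floor_le_floor (by linear_combination 2 * h1.2))
      · exact Nat.lt_succ_of_le (Nat.floor_le_floor (by linear_combination 2 * h2.2))
    · intro p hp q hq hpq
      simp only [Prod.mk.injEq] at hpq
      by_contra hne
      have h3 := hX p hp q hq hne
      have h4 := hx p hp
      have h5 := hx q hq
      have h6 := hH p hp
      have h7 := hH q hq
      have a1 := Nat.floor_le (show (0 : ℝ) ≤ 2 * (p.1 - a) by linear_combination 2 * h4.1)
      have a2 := Nat.lt_floor_add_one (2 * (p.1 - a))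
      have b1 := Nat.floor_le (show (0 : ℝ) ≤ 2 * (q.1 - a) by linear_combination 2 * h5.1)
      have b2 := Nat.lt_floor_add_one (2 * (q.1 - a))
      have c1 := Nat.floor_le (show (0 : ℝ) ≤ 2 * p.2 by linear_combination 2 * h6.1)
      have c2 := Nat.lt_floor_add_one (2 * p.2)
      have d1 := Nat.floor_le (show (0 : ℝ) ≤ 2 * q.2 by linear_combination 2 * h7.1)
      have d2 := Nat.lt_floor_add_one (2 * q.2)
      rw [hpq.1] at a1 a2
      rw [hpq.2] at c1 c2
      have e1 : (p.1 - q.1) ^ 2 ≤ 1 / 4 := by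
        have : |p.1 - q.1| ≤ 1 / 2 := by
          rw [abs_le]
          constructor <;> linarith
        rw [← sq_abs]
        linear_combination (1 / 2) * this + (mul_nonneg (sub_nonneg.mpr (abs_nonneg (p.1 - q.1))) (sub_nonneg.mpr this))
      have e2 : (p.2 - q.2) ^ 2 ≤ 1 / 4 := by
        have : |p.2 - q.2| ≤ 1 / 2 := by
          rw [abs_le]
          constructor <;> linarith
        rw [← sq_abs]
        linear_combination (1 / 2) * this + (mul_nonneg (sub_nonneg.mpr (abs_nonneg (p.2 - q.2))) (sub_nonneg.mpr this))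
      exact absurd e1 (not_le.mpr (by linear_combination h3 + e2))
  rwa [Finset.card_product, Finset.card_range, Finset.card_range] at h1

theorem exists_max (L H : ℝ) : ∃ X, Box L H X ∧ ∀ Y, Box L H Y → Y.card ≤ X.card := by
  set A : Set ℕ := {k | ∃ X, Box L H X ∧ X.card = k} with hA
  have hne : A.Nonempty := ⟨0, ∅, ⟨fun p hp => absurd hp (Finset.notMem_empty p),
    fun p hp => absurd hp (Finset.notMem_empty p), fun p hp => absurd hp (Finset.notMem_empty p)⟩,
    rfl⟩
  have hb : BddAbove A := by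
    refine ⟨(⌊2 * L⌋₊ + 1) * (⌊2 * H⌋₊ + 1), ?_⟩
    rintro k ⟨X, hX, rfl⟩
    exact card_le_box hX.sep (a := 0) (fun p hp => by
      have := hX.x p hp
      constructor <;> linarith [this.1, this.2]) hX.strip
  obtain ⟨X, hX, hk⟩ := Nat.sSup_mem hne hb
  exact ⟨X, hX, fun Y hY => hk ▸ le_csSup hb ⟨Y, hY, rfl⟩⟩

/-- The configurations of `n` labelled points. -/
def Conf (L H : ℝ) (n : ℕ) : Set (Fin n → Pt) :=
  {f | (∀ i, f i ∈ Set.Icc ((0, 0) : Pt) (L, H)) ∧
    ∀ i j, i ≠ j → 1 ≤ ((f i).1 - (f j).1) ^ 2 + ((f i).2 - (f j).2) ^ 2}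

theorem conf_compact (L H : ℝ) (n : ℕ) : IsCompact (Conf L H n) := by
  have h1 : IsCompact (Set.pi Set.univ fun _ : Fin n => Set.Icc ((0, 0) : Pt) (L, H)) :=
    isCompact_univ_pi fun _ => isCompact_Icc
  have h2 : IsClosed {f : Fin n → Pt |
      ∀ i j, i ≠ j → 1 ≤ ((f i).1 - (f j).1) ^ 2 + ((f i).2 - (f j).2) ^ 2} := by
    simp only [Set.ofPred_forall]
    refine isClosed_iInter fun i => isClosed_iInter fun j => isClosed_iInter fun _ => ?_
    exact isClosed_le continuous_const (by fun_prop)
  have h3 : Conf L H n = (Set.pi Set.univ fun _ : Fin n => Set.Icc ((0, 0) : Pt) (L, H)) ∩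
      {f : Fin n → Pt |
        ∀ i j, i ≠ j → 1 ≤ ((f i).1 - (f j).1) ^ 2 + ((f i).2 - (f j).2) ^ 2} := by
    ext f
    exact ⟨fun h => ⟨fun i _ => h.1 i, h.2⟩, fun h => ⟨fun i => h.1 i trivial, h.2⟩⟩
  rw [h3]
  exact h1.inter_right h2

/-- A point which can be moved to the left. -/
theorem exists_left {L H : ℝ} {n : ℕ} {f : Fin n → Pt} (hf : f ∈ Conf L H n) {i : Fin n}
    (hi : 0 < (f i).1)
    (h : ∀ j, (f j).1 < (f i).1 → ((f i).1 - (f j).1) ^ 2 + ((f i).2 - (f j).2) ^ 2 ≠ 1) :
    ∃ f' ∈ Conf L H n, ∑ j, (f' j).1 < ∑ j, (f j).1 := by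
  have h1 : ∀ j, ∀ᶠ ε : ℝ in 𝓝[>] 0, j ≠ i →
      1 ≤ ((f i).1 - ε - (f j).1) ^ 2 + ((f i).2 - (f j).2) ^ 2 := by
    intro j
    rcases eq_or_ne j i with rfl | hj
    · exact Eventually.of_forall fun ε h => absurd rfl h
    · rcases lt_or_ge (f j).1 (f i).1 with h2 | h2
      · have h3 : 1 < ((f i).1 - 0 - (f j).1) ^ 2 + ((f i).2 - (f j).2) ^ 2 := by
          rw [sub_zero]
          exact lt_of_le_of_ne (hf.2 i j hj.symm) (h j h2).symm
        have h4 : ContinuousAt (fun ε : ℝ => ((f i).1 - ε - (f j).1) ^ 2 +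
          ((f i).2 - (f j).2) ^ 2) 0 := by fun_prop
        have h5 := (h4.eventually (lt_mem_nhds h3)).filter_mono
          (nhdsWithin_le_nhds (s := Set.Ioi 0))
        exact h5.mono fun ε h6 _ => le_of_lt h6
      · filter_upwards [self_mem_nhdsWithin] with ε hε _
        have h3 := hf.2 i j hj.symm
        have hε' : 0 < ε := hε
        linear_combination h3 + 2 * (mul_nonneg (sub_nonneg.mpr h2) (sub_nonneg.mpr (le_of_lt hε'))) +
          (mul_pos (sub_pos.mpr hε') (sub_pos.mpr hε'))
  have h2 : ∀ᶠ ε : ℝ in 𝓝[>] 0, (∀ j, j ≠ i →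
      1 ≤ ((f i).1 - ε - (f j).1) ^ 2 + ((f i).2 - (f j).2) ^ 2) ∧ ε < (f i).1 ∧ 0 < ε := by
    refine (eventually_all.2 h1).and ?_
    exact ((gt_mem_nhds hi).filter_mono nhdsWithin_le_nhds).and self_mem_nhdsWithin
  obtain ⟨ε, h3, h4, h5⟩ := h2.exists
  refine ⟨Function.update f i ((f i).1 - ε, (f i).2), ⟨?_, ?_⟩, ?_⟩
  · intro j
    rcases eq_or_ne j i with rfl | hj
    · rw [Function.update_self]
      have h6 := hf.1 j
      rw [Set.mem_Icc, Prod.le_def, Prod.le_def] at h6 ⊢
      simp only at h6 ⊢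
      refine ⟨⟨by linear_combination h4, h6.1.2⟩, by linear_combination h6.2.1 + h5, h6.2.2⟩
    · rw [Function.update_of_ne hj]
      exact hf.1 j
  · intro j k hjk
    rcases eq_or_ne j i with rfl | hj
    · rw [Function.update_self, Function.update_of_ne hjk.symm]
      exact h3 k hjk.symm
    · rcases eq_or_ne k i with rfl | hk
      · rw [Function.update_self, Function.update_of_ne hjk]
        have := h3 j hjk
        linear_combination this
      · rw [Function.update_of_ne hj, Function.update_of_ne hk]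
        exact hf.2 j k hjk
  · refine Finset.sum_lt_sum (fun j _ => ?_) ⟨i, Finset.mem_univ _, ?_⟩
    · rcases eq_or_ne j i with rfl | hj
      · rw [Function.update_self]
        simp only
        linear_combination h5
      · rw [Function.update_of_ne hj]
    · rw [Function.update_self]
      simp only
      linear_combination h5

/-- A packing of maximal cardinality which is pushed to the left. -/
theorem exists_packing {L H : ℝ} : ∃ T : Finset Pt, Box L H T ∧
    (∀ Y, Box L H Y → Y.card ≤ T.card) ∧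
    (∀ v : Pt, 0 ≤ v.1 → v.1 ≤ L → 0 ≤ v.2 → v.2 ≤ H →
      ∃ r ∈ T, (v.1 - r.1) ^ 2 + (v.2 - r.2) ^ 2 < 1) ∧
    ∀ p ∈ T, 0 < p.1 → ∃ q ∈ T, q.1 < p.1 ∧ (p.1 - q.1) ^ 2 + (p.2 - q.2) ^ 2 = 1 := by
  classical
  obtain ⟨X, hX, hmax⟩ := exists_max L H
  have hne : (Conf L H X.card).Nonempty := by
    set e := X.equivFin.symm with he
    refine ⟨fun i => (e i : Pt), ?_, ?_⟩
    · intro i
      have h1 := hX.x _ (e i).2
      have h2 := hX.strip _ (e i).2
      rw [Set.mem_Icc, Prod.le_def, Prod.le_def]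
      exact ⟨⟨h1.1, h2.1⟩, h1.2, h2.2⟩
    · intro i j hij
      refine hX.sep _ (e i).2 _ (e j).2 ?_
      intro h
      exact hij (e.injective (Subtype.ext h))
  obtain ⟨f, hf, hmin⟩ := (conf_compact L H X.card).exists_isMinOn hne
    (f := fun f : Fin X.card → Pt => ∑ j, (f j).1) (by fun_prop)
  have hinj : Function.Injective f := by
    intro i j hij
    by_contra h
    have := hf.2 i j h
    rw [hij] at this
    norm_num at this
  have hmem : ∀ {p}, p ∈ Finset.univ.image f ↔ ∃ i, f i = p := by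
    intro p
    simp
  have hT : Box L H (Finset.univ.image f) := by
    refine ⟨?_, ?_, ?_⟩
    · intro p hp q hq hpq
      obtain ⟨i, rfl⟩ := hmem.1 hp
      obtain ⟨j, rfl⟩ := hmem.1 hq
      exact hf.2 i j fun h => hpq (by rw [h])
    · intro p hp
      obtain ⟨i, rfl⟩ := hmem.1 hp
      exact ⟨(hf.1 i).1.2, (hf.1 i).2.2⟩
    · intro p hp
      obtain ⟨i, rfl⟩ := hmem.1 hp
      exact ⟨(hf.1 i).1.1, (hf.1 i).2.1⟩
  have hcard : (Finset.univ.image f).card = X.card := by
    rw [Finset.card_image_of_injective _ hinj, Finset.card_univ, Fintype.card_fin]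
  refine ⟨Finset.univ.image f, hT, fun Y hY => by rw [hcard]; exact hmax Y hY, ?_, ?_⟩
  · intro v h1 h2 h3 h4
    by_contra hcon
    push Not at hcon
    have hv : v ∉ Finset.univ.image f := by
      intro h
      have := hcon v h
      norm_num at this
    have h5 : Box L H (insert v (Finset.univ.image f)) := by
      refine ⟨?_, ?_, ?_⟩
      · intro p hp q hq hpq
        rcases Finset.mem_insert.1 hp with hp' | hp'
        · rcases Finset.mem_insert.1 hq with hq' | hq'
          · exact absurd (hp'.trans hq'.symm) hpq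
          · rw [hp']
            exact hcon q hq'
        · rcases Finset.mem_insert.1 hq with hq' | hq'
          · have := hcon p hp'
            rw [hq']
            linear_combination this
          · exact hT.sep p hp' q hq' hpq
      · intro p hp
        rcases Finset.mem_insert.1 hp with rfl | hp
        · exact ⟨h3, h4⟩
        · exact hT.strip p hp
      · intro p hp
        rcases Finset.mem_insert.1 hp with rfl | hp
        · exact ⟨h1, h2⟩
        · exact hT.x p hp
    have h6 := hmax _ h5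
    rw [Finset.card_insert_of_notMem hv, hcard] at h6
    omega
  · intro p hp h0
    obtain ⟨i, rfl⟩ := hmem.1 hp
    by_contra hcon
    push Not at hcon
    obtain ⟨f', h1, h2⟩ := exists_left hf h0 fun j hj => hcon (f j) (hmem.2 ⟨j, rfl⟩) hj
    have h3 := hmin h1
    simp only [Set.mem_ofPred_eq] at h3
    exact absurd h2 (not_lt.mpr (by linear_combination h3))

end Pool.Agent.Strip051
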