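import Pool.Agent.Strip051.FrontIns
import Pool.Agent.Strip051.FrontSet

/-! # Bounds for the value of a functional on a front -/

namespace Pool.Agent.Strip051

open Pool.Agent.StripNear Pool.Agent.StripSquare

/-- A separated set in the strip. -/
structure Good (H : ℝ) (S : Set Pt) : Prop where
  strip : ∀ r ∈ S, 0 ≤ r.2 ∧ r.2 ≤ H
  sep : ∀ r ∈ S, ∀ r' ∈ S, r ≠ r' → Sep r r'

theorem sep_mir {H : ℝ} {p q : Pt} (h : Sep (mir H p) (mir H q)) : Sep p q := by
  unfold Sep at *
  rw [mir_fst, mir_fst, mir_snd, mir_snd] at h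
  linear_combination h

theorem Good.mirror {H : ℝ} {S : Set Pt} (h : Good H S) : Good H (mirS H S) := by
  refine ⟨?_, ?_⟩
  · intro r hr
    have := h.strip _ hr
    rw [mir_snd] at this
    constructor <;> linarith [this.1, this.2]
  · intro r hr r' hr' hne
    apply sep_mir (H := H)
    exact h.sep _ hr _ hr' fun h1 => hne (by rw [← mir_mir H r, h1, mir_mir])

/-- All visible discs have first coordinate between `m - 2` and `m`. -/
def Vis (H : ℝ) (S : Set Pt) (m : ℝ) : Prop :=
  ∀ q a b, 0 ≤ a → a < b → b ≤ H → Top S q a b → m - 2 ≤ q.1 ∧ q.1 ≤ m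

theorem Vis.mirror {H m : ℝ} {S : Set Pt} (h : Vis H S m) : Vis H (mirS H S) m := by
  intro q a b ha hab hb hT
  have h1 := hT.flip (H := H)
  rw [mirS_mirS] at h1
  exact h (mir H q) (H - b) (H - a) (by linear_combination hb) (by linear_combination hab) (by linear_combination ha) h1

/-- Boundedness of a functional, growth rates `a` and `b` at the ends. -/
structure Bd (H : ℝ) (Φ : Fun) (a b K : ℝ) : Prop where
  F : ∀ (q : Pt) (z z' : ℝ), 0 ≤ q.2 → q.2 ≤ H → |z - q.2| ≤ 1 → |z' - q.2| ≤ 1 →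
    0 ≤ z → z ≤ z' → z' ≤ H → |Φ.F q z' - Φ.F q z| ≤ K
  J : ∀ (q q' : Pt) (z : ℝ), 0 ≤ q.2 → q.2 ≤ H → 0 ≤ q'.2 → q'.2 ≤ H → |z - q.2| ≤ 1 →
    |z - q'.2| ≤ 1 → 0 ≤ z → z ≤ H → |q.1 - q'.1| ≤ 2 → |Φ.J q q' z| ≤ K
  T : ∀ q : Pt, 0 ≤ q.2 → q.2 ≤ H → |H - q.2| ≤ 1 → |Φ.T q - a * q.1| ≤ K
  B : ∀ q : Pt, 0 ≤ q.2 → q.2 ≤ H → |q.2| ≤ 1 → |Φ.B q - b * q.1| ≤ K

theorem Bd.mirror {H : ℝ} {Φ : Fun} {a b K : ℝ} (h : Bd H Φ a b K) : Bd H (Φ.flip H) b a K := by
  have e : ∀ x y : ℝ, |H - x - (H - y)| = |x - y| := by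
    intro x y
    rw [show H - x - (H - y) = -(x - y) by ring, abs_neg]
  refine ⟨?_, ?_, ?_, ?_⟩
  · intro q z z' h1 h2 h3 h4 h5 h6 h7
    have := h.F (mir H q) (H - z') (H - z) (by rw [mir_snd]; linear_combination h2)
      (by rw [mir_snd]; linear_combination h1) (by rw [mir_snd, e]; exact h4) (by rw [mir_snd, e]; exact h3)
      (by linear_combination h7) (by linear_combination h6) (by linear_combination h5)
    simp only [Fun.flip]
    rw [show -Φ.F (mir H q) (H - z') - -Φ.F (mir H q) (H - z) =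
      Φ.F (mir H q) (H - z) - Φ.F (mir H q) (H - z') by ring]
    exact this
  · intro q q' z h1 h2 h3 h4 h5 h6 h7 h8 h9
    refine h.J (mir H q') (mir H q) (H - z) ?_ ?_ ?_ ?_ ?_ ?_ (by linear_combination h8) (by linear_combination h7) ?_ <;>
      try rw [mir_snd]
    all_goals try linarith
    · rw [e]; exact h6
    · rw [e]; exact h5
    · rw [mir_fst, mir_fst, abs_sub_comm]
      exact h9
  · intro q h1 h2 h3
    refine h.B (mir H q) ?_ ?_ ?_
    · rw [mir_snd]; linear_combination h2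
    · rw [mir_snd]; linear_combination h1
    · rw [mir_snd]; exact h3
  · intro q h1 h2 h3
    refine h.T (mir H q) ?_ ?_ ?_
    · rw [mir_snd]; linear_combination h2
    · rw [mir_snd]; linear_combination h1
    · rw [mir_snd, sub_sub_cancel]; exact h3

theorem UpS.mem {S : Set Pt} {H y : ℝ} {q : Pt} {L : List (ℝ × Pt)} (h : UpS S H y q L) :
    ∀ p ∈ q :: L.map Prod.snd, p ∈ S := by
  induction L generalizing y q with
  | nil =>
    intro p hp
    rw [List.map_nil, List.mem_singleton] at hp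
    rw [hp]
    exact h.2.1
  | cons e L ih =>
    intro p hp
    rw [List.map_cons] at hp
    rcases List.mem_cons.1 hp with rfl | hp
    · exact h.2.1.1
    · exact ih h.2.2.2 p hp

theorem UpS.heights {S : Set Pt} {H y : ℝ} {q : Pt} {L : List (ℝ × Pt)} (h : UpS S H y q L) :
    (∀ p ∈ L.map Prod.snd, q.2 < p.2) ∧ (q :: L.map Prod.snd).Nodup := by
  induction L generalizing y q with
  | nil => simp
  | cons e L ih =>
    obtain ⟨h1, h2⟩ := ih h.2.2.2
    have h3 := h.2.2.1
    have h4 : ∀ p ∈ (e :: L).map Prod.snd, q.2 < p.2 := by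
      intro p hp
      rw [List.map_cons] at hp
      rcases List.mem_cons.1 hp with rfl | hp
      · exact h3
      · exact h3.trans (h1 p hp)
    refine ⟨h4, ?_⟩
    rw [List.nodup_cons]
    refine ⟨?_, ?_⟩
    · intro hq
      exact lt_irrefl _ (h4 q hq)
    · rw [List.map_cons]
      exact h2

theorem UpS.range {S : Set Pt} {H m y : ℝ} {q : Pt} {L : List (ℝ × Pt)} (hv : Vis H S m)
    (h0 : 0 ≤ y) (h : UpS S H y q L) :
    ∀ p ∈ q :: L.map Prod.snd, m - 2 ≤ p.1 ∧ p.1 ≤ m := by
  induction L generalizing y q with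
  | nil =>
    intro p hp
    rw [List.map_nil, List.mem_singleton] at hp
    rw [hp]
    exact hv q y H h0 h.1 le_rfl h.2
  | cons e L ih =>
    intro p hp
    rw [List.map_cons] at hp
    rcases List.mem_cons.1 hp with rfl | hp
    · exact hv p y e.1 h0 h.1 h.2.2.2.lt.le h.2.1
    · exact ih (h0.trans h.1.le) h.2.2.2 p hp

/-- Bound for the number of visible discs. -/
noncomputable def maxLen (H : ℝ) : ℕ := (⌊2 * (2 : ℝ)⌋₊ + 1) * (⌊2 * H⌋₊ + 1)

theorem UpS.length_le {S : Set Pt} {H m y : ℝ} {q : Pt} {L : List (ℝ × Pt)} (hS : Good H S)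
    (hv : Vis H S m) (h0 : 0 ≤ y) (h : UpS S H y q L) : L.length + 1 ≤ maxLen H := by
  classical
  have h1 := h.heights.2
  have h2 := h.mem
  have h3 := h.range hv h0
  have h4 := card_le_box (X := (q :: L.map Prod.snd).toFinset) (a := m - 2) (w := 2) (H := H)
    (fun p hp p' hp' hne => hS.sep p (h2 p (List.mem_toFinset.1 hp)) p'
      (h2 p' (List.mem_toFinset.1 hp')) hne)
    (fun p hp => by
      have := h3 p (List.mem_toFinset.1 hp)
      constructor <;> linarith [this.1, this.2])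
    (fun p hp => hS.strip p (h2 p (List.mem_toFinset.1 hp)))
  rw [List.toFinset_card_of_nodup h1, List.length_cons, List.length_map] at h4
  exact h4

theorem UpS.near {S : Set Pt} {H y : ℝ} {q : Pt} {L : List (ℝ × Pt)} (h : UpS S H y q L) :
    |y - q.2| ≤ 1 := by
  cases L with
  | nil =>
    obtain ⟨n1, n2⟩ := h.2.near h.1
    rw [abs_le]
    constructor <;> linarith [h.1]
  | cons e L =>
    obtain ⟨n1, n2⟩ := h.2.1.near h.1
    rw [abs_le]
    constructor <;> linarith [h.1]

theorem UpS.lt_nxt {S : Set Pt} {H y : ℝ} {q : Pt} {L : List (ℝ × Pt)} (h : UpS S H y q L) :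
    y < nxt H L := by
  cases L with
  | nil => exact h.1
  | cons e L => exact h.1

theorem UpS.nxt_le {S : Set Pt} {H y : ℝ} {q : Pt} {L : List (ℝ × Pt)} (h : UpS S H y q L) :
    nxt H L ≤ H := by
  cases L with
  | nil => exact le_rfl
  | cons e L => exact h.2.2.2.lt.le

theorem UpS.bound {S : Set Pt} {H m a b K : ℝ} {Φ : Fun} (hS : Good H S) (hv : Vis H S m)
    (hB : Bd H Φ a b K) (L : List (ℝ × Pt)) : ∀ {y : ℝ} {q : Pt}, 0 ≤ y → UpS S H y q L →
      |Φ.up H y q L - a * m| ≤ (2 * L.length + 2) * K + 2 * |a| := by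
  induction L with
  | nil =>
    intro y q h0 h
    obtain ⟨n1, n2⟩ := h.2.near h.1
    have hq := hS.strip q h.2.1
    have h1 := hB.F q y H hq.1 hq.2 h.near (by rw [abs_le]; constructor <;> linarith [h.1]) h0
      h.1.le le_rfl
    have h2 := hB.T q hq.1 hq.2 (by rw [abs_le]; constructor <;> linarith [h.1])
    have h3 := hv q y H h0 h.1 le_rfl h.2
    have h4 : |a * q.1 - a * m| ≤ 2 * |a| := by
      rw [← mul_sub, abs_mul, mul_comm]
      apply mul_le_mul_of_nonneg_right _ (abs_nonneg a)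
      rw [abs_le]
      constructor <;> linarith [h3.1, h3.2]
    have h5 : Φ.up H y q [] - a * m =
        (Φ.F q H - Φ.F q y) + (Φ.T q - a * q.1) + (a * q.1 - a * m) := by
      simp only [Fun.up]
      ring
    rw [h5]
    have h6 := abs_add_three (Φ.F q H - Φ.F q y) (Φ.T q - a * q.1) (a * q.1 - a * m)
    simp only [List.length_nil]
    push_cast
    linear_combination h1 + h2 + h4 + h6
  | cons e L ih =>
    intro y q h0 h
    obtain ⟨h1, h2, h3, h4⟩ := h
    obtain ⟨n1, n2⟩ := h2.near h1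
    have hq := hS.strip q h2.1
    have he := hS.strip e.2 h4.up.mem
    have hzH := h4.lt
    have hqx := hv q y e.1 h0 h1 hzH.le h2
    have hex := hv e.2 e.1 (nxt H L) (h0.trans h1.le) (h4.lt_nxt) h4.nxt_le h4.up.top
    have k1 := hB.F q y e.1 hq.1 hq.2 (by rw [abs_le]; constructor <;> linarith)
      (by rw [abs_le]; constructor <;> linarith) h0 h1.le hzH.le
    have k2 := hB.J q e.2 e.1 hq.1 hq.2 he.1 he.2 (by rw [abs_le]; constructor <;> linarith)
      h4.near (h0.trans h1.le) hzH.le (by rw [abs_le]; constructor <;> linarith [hqx.1, hex.1,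
        hqx.2, hex.2])
    have k3 := ih (h0.trans h1.le) h4
    have k5 : Φ.up H y q (e :: L) - a * m =
        (Φ.F q e.1 - Φ.F q y) + Φ.J q e.2 e.1 + (Φ.up H e.1 e.2 L - a * m) := by
      simp only [Fun.up]
      ring
    rw [k5]
    have k6 := abs_add_three (Φ.F q e.1 - Φ.F q y) (Φ.J q e.2 e.1) (Φ.up H e.1 e.2 L - a * m)
    simp only [List.length_cons]
    push_cast
    linear_combination k1 + k2 + k3 + k6

theorem Up.bound {S : Set Pt} {H m a b K : ℝ} {Φ : Fun} (hS : Good H S) (hv : Vis H S m)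
    (hB : Bd H Φ a b K) (hK : 0 ≤ K) {L : List (ℝ × Pt)} {y : ℝ} {q : Pt} (h0 : 0 ≤ y)
    (h : Up S H y q L) (hy : |y - q.2| ≤ 1) (hq : m - 2 ≤ q.1 ∧ q.1 ≤ m) :
      |Φ.up H y q L - a * m| ≤ (2 * maxLen H + 2) * K + 2 * |a| := by
  rcases h.le_nxt.eq_or_lt with h1 | h1
  · cases L with
    | nil =>
      rw [nxt_nil] at h1
      have hqs := hS.strip q h.2.1
      have h2 := hB.T q hqs.1 hqs.2 (by rw [← h1]; exact hy)
      have h4 : |a * q.1 - a * m| ≤ 2 * |a| := by
        rw [← mul_sub, abs_mul, mul_comm]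
        apply mul_le_mul_of_nonneg_right _ (abs_nonneg a)
        rw [abs_le]
        constructor <;> linarith [hq.1, hq.2]
      have h5 : Φ.up H y q [] - a * m = (Φ.T q - a * q.1) + (a * q.1 - a * m) := by
        simp only [Fun.up]
        rw [h1]
        ring
      rw [h5]
      have h6 := abs_add_le (Φ.T q - a * q.1) (a * q.1 - a * m)
      have h7 : 0 ≤ (2 * (maxLen H : ℝ) + 1) * K := by positivity
      linear_combination h2 + h4 + h6 + h7
    | cons e L =>
      rw [nxt_cons] at h1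
      obtain ⟨h2, h3, h4, h5⟩ := h
      have hqs := hS.strip q h3.1
      have hes := hS.strip e.2 h5.up.mem
      have hzH := h5.lt
      have hex := hv e.2 e.1 (nxt H L) (h0.trans h2) (h5.lt_nxt) h5.nxt_le h5.up.top
      have k2 := hB.J q e.2 e.1 hqs.1 hqs.2 hes.1 hes.2 (by rw [← h1]; exact hy)
        h5.near (h0.trans h2) hzH.le (by rw [abs_le]; constructor <;> linarith [hq.1, hex.1,
          hq.2, hex.2])
      have k3 := h5.bound hS hv hB L (h0.trans h2)
      have k4 := h5.length_le hS hv (h0.trans h2)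
      have k5 : Φ.up H y q (e :: L) - a * m =
          Φ.J q e.2 e.1 + (Φ.up H e.1 e.2 L - a * m) := by
        simp only [Fun.up]
        rw [h1]
        ring
      rw [k5]
      have k6 := abs_add_le (Φ.J q e.2 e.1) (Φ.up H e.1 e.2 L - a * m)
      have k7 : (L.length : ℝ) + 1 ≤ maxLen H := by exact_mod_cast k4
      have k8 := mul_le_mul_of_nonneg_right k7 hK
      linear_combination hK + k2 + k3 + k6 + 2 * k8
  · have h2 := h.upS h1
    have k3 := h2.bound hS hv hB L h0
    have k4 := h2.length_le hS hv h0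
    have k7 : (L.length : ℝ) + 1 ≤ maxLen H := by exact_mod_cast k4
    have k8 := mul_le_mul_of_nonneg_right k7 hK
    linear_combination 2 * hK + k3 + 2 * k8

/-- Bound for the value of a functional on a front. -/
theorem St.bound {S : Set Pt} {H m a b K : ℝ} {Φ : Fun} (hS : Good H S) (hv : Vis H S m)
    (hB : Bd H Φ a b K) (hK : 0 ≤ K) {Lu Ld : List (ℝ × Pt)} {y : ℝ} {q : Pt} (h0 : 0 ≤ y)
    (h1 : y ≤ H) (h : St S H y q Lu Ld) :
    |Φ.val H y q Lu Ld - (a + b) * m| ≤ (4 * maxLen H + 4) * K + 2 * |a| + 2 * |b| := by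
  have hq : |y - q.2| ≤ 1 ∧ m - 2 ≤ q.1 ∧ q.1 ≤ m := by
    rcases h.pos with h2 | h2
    · have h3 := h.up.upS h2
      exact ⟨h3.near, hv q y _ h0 h2 h3.nxt_le h.up.top⟩
    · have h3 := h.dn.upS h2
      have h4 := h3.near
      rw [mir_snd, show H - y - (H - q.2) = -(y - q.2) by ring, abs_neg] at h4
      exact ⟨h4, hv.mirror (mir H q) (H - y) _ (by linear_combination h1) h2 h3.nxt_le h.dn.top⟩
  have k1 := h.up.bound hS hv hB hK h0 hq.1 hq.2
  have k2 := h.dn.bound hS.mirror hv.mirror hB.mirror hK (by linear_combination h1)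
    (by rw [mir_snd, show H - y - (H - q.2) = -(y - q.2) by ring, abs_neg]; exact hq.1) hq.2
  have k3 : Φ.val H y q Lu Ld - (a + b) * m = (Φ.up H y q Lu - a * m) +
      ((Φ.flip H).up H (H - y) (mir H q) Ld - b * m) := by
    unfold Fun.val
    ring
  rw [k3]
  have k4 := abs_add_le (Φ.up H y q Lu - a * m)
    ((Φ.flip H).up H (H - y) (mir H q) Ld - b * m)
  linear_combination k1 + k2 + k4

end Pool.Agent.Strip051
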