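import Pool.Agent.Strip051.FrontZip

/-! # Insertion of a point in the front: the local inequalities -/

namespace Pool.Agent.Strip051

open Pool.Agent.StripNear Pool.Agent.StripSquare

/-- `P` may be added to the old points `S`: it is at distance at least one from them, none of them
is to the right of `P`, one of them touches it from the left, and the front is never more than one
behind `P`. -/
structure Legal (H : ℝ) (S : Set Pt) (P : Pt) : Prop where
  strip : ∀ r ∈ S, 0 ≤ r.2 ∧ r.2 ≤ H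
  strip' : 0 ≤ P.2 ∧ P.2 ≤ H
  sep : ∀ r ∈ S, ∀ r' ∈ S, r ≠ r' → Sep r r'
  sep' : ∀ r ∈ S, Sep P r
  le : ∀ r ∈ S, r.1 ≤ P.1
  touch : ∃ r ∈ S, r.1 < P.1 ∧ (P.1 - r.1) ^ 2 + (P.2 - r.2) ^ 2 = 1
  front : ∀ z, 0 ≤ z → z ≤ H → ∃ r ∈ S, |z - r.2| < 1 ∧ P.1 - 1 < arc r z

theorem Legal.mirror {H : ℝ} {S : Set Pt} {P : Pt} (h : Legal H S P) :
    Legal H (mirS H S) (mir H P) := by
  have hs : ∀ p q : Pt, Sep (mir H p) (mir H q) → Sep p q := by
    intro p q h
    unfold Sep at *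
    rw [mir_fst, mir_fst, mir_snd, mir_snd] at h
    linear_combination h
  refine ⟨?_, ?_, ?_, ?_, ?_, ?_, ?_⟩
  · intro r hr
    have := h.strip _ hr
    rw [mir_snd] at this
    constructor <;> linarith [this.1, this.2]
  · rw [mir_snd]
    constructor <;> linarith [h.strip'.1, h.strip'.2]
  · intro r hr r' hr' hne
    apply hs
    exact h.sep _ hr _ hr' fun h1 => hne (by rw [← mir_mir H r, h1, mir_mir])
  · intro r hr
    apply hs
    rw [mir_mir]
    exact h.sep' _ hr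
  · intro r hr
    exact h.le (mir H r) hr
  · obtain ⟨r, h1, h2, h3⟩ := h.touch
    refine ⟨mir H r, mir_mem h1, h2, ?_⟩
    rw [mir_fst, mir_fst, mir_snd, mir_snd]
    linear_combination h3
  · intro z h1 h2
    obtain ⟨r, h3, h4, h5⟩ := h.front (H - z) (by linear_combination h2) (by linear_combination h1)
    refine ⟨mir H r, mir_mem h3, ?_, ?_⟩
    · rw [mir_snd, show z - (H - r.2) = -(H - z - r.2) by ring, abs_neg]
      exact h4
    · rw [arc_mir]
      exact h5

theorem arc_le_of_sep {P q : Pt} (hx : q.1 ≤ P.1) (hs : Sep P q) :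
    arc q P.2 ≤ P.1 := by
  unfold arc
  unfold Sep at hs
  have h3 : g (P.2 - q.2) ≤ P.1 - q.1 := by
    unfold g
    rw [Real.sqrt_le_iff]
    constructor <;> linarith
  linear_combination h3

theorem arc_touch {P q : Pt} (hx : q.1 ≤ P.1) (hs : (P.1 - q.1) ^ 2 + (P.2 - q.2) ^ 2 = 1) :
    arc q P.2 = P.1 := by
  have h1 : g (P.2 - q.2) = P.1 - q.1 := by
    unfold g
    rw [show 1 - (P.2 - q.2) ^ 2 = (P.1 - q.1) ^ 2 by linear_combination -hs, Real.sqrt_sq (by linear_combination hx)]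
  unfold arc
  linear_combination h1

/-- A disc which is visible next to the height of `P` touches `P`. -/
theorem Legal.base {H : ℝ} {S : Set Pt} {P q : Pt} (h : Legal H S P) {a b : ℝ} (hab : a < b)
    (hT : Top S q a b) (hP : P.2 = a ∨ P.2 = b) : |P.2 - q.2| ≤ 1 ∧ arc q P.2 = P.1 := by
  obtain ⟨n1, n2⟩ := hT.near hab
  have h1 : |P.2 - q.2| ≤ 1 := by
    rw [abs_le]
    rcases hP with h | h <;> constructor <;> linarith
  refine ⟨h1, le_antisymm (arc_le_of_sep (h.le q hT.1) (h.sep' q hT.1)) ?_⟩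
  obtain ⟨r, r1, r2, r3⟩ := h.touch
  rw [← arc_touch r2.le r3]
  have r4 : |P.2 - r.2| < 1 := by
    rw [abs_lt]
    constructor <;> exact not_le.mp (fun hg__ => absurd hg__ (not_le.mpr (by linear_combination (1 / 2) * (sq_pos_of_pos (sub_pos.2 r2)) + (1 / 2) * r3 + (1 / 2) * (mul_nonneg (sub_nonneg.mpr hg__) (sub_nonneg.mpr hg__)))))
  rw [abs_lt] at r4
  rcases hP with h2 | h2
  · rw [h2] at r4 ⊢
    refine le_left (arc_cont r) (arc_cont q) (z := min b (r.2 + 1))
      (lt_min hab (by linear_combination r4.2)) ?_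
    intro t t1 t2
    rw [lt_min_iff] at t2
    exact (hT.2 t t1 t2.1).2 r r1 (by
      rw [abs_le]
      constructor <;> linarith [r4.1, t2.2])
  · rw [h2] at r4 ⊢
    refine le_right (arc_cont r) (arc_cont q) (m := max a (r.2 - 1))
      (max_lt hab (by linear_combination r4.1)) ?_
    intro t t1 t2
    rw [max_lt_iff] at t1
    exact (hT.2 t t1.1 t2).2 r r1 (by
      rw [abs_le]
      constructor <;> linarith [r4.2, t1.2])

/-- The value of the functional on a segment. -/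
def Fun.seg (Φ : Fun) : ℝ → Pt → List (ℝ × Pt) → ℝ → ℝ
  | z, q, [], B => Φ.F q B - Φ.F q z
  | z, q, d :: C, B => Φ.F q d.1 - Φ.F q z + Φ.J q d.2 d.1 + Φ.seg d.1 d.2 C B

theorem Fun.up_append (Φ : Fun) (H : ℝ) {S : Set Pt} (C R : List (ℝ × Pt)) :
    ∀ {z B : ℝ} {q e : Pt}, SegS S z q C B e →
      Φ.up H z q (C ++ R) = Φ.seg z q C B + Φ.up H B e R := by
  induction C with
  | nil =>
    intro z B q e h
    obtain ⟨rfl, -, -⟩ := h
    simp only [List.nil_append, Fun.seg]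
    rw [Φ.up_move H B z]
    ring
  | cons d C ih =>
    intro z B q e h
    simp only [List.cons_append, Fun.up, Fun.seg]
    rw [ih h.2.2.2]
    ring

/-- The local inequalities for the part of the front above the new point. -/
structure UpGain (H : ℝ) (Φ : Fun) (W : ℝ → ℝ) : Prop where
  exit : ∀ (S : Set Pt) (P q : Pt) (C R : List (ℝ × Pt)) (B : ℝ) (e : Pt), Legal H S P →
    |P.2 - q.2| ≤ 1 → arc q P.2 = P.1 → SegS S P.2 q C B e → UpS S H B e R →
    Ahead S P P.2 B → P.2 < B → Exit P e B →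
    Φ.seg P.2 q C B + W P.2 ≤ Φ.F P B - Φ.F P P.2 + Φ.J P e B
  wall : ∀ (S : Set Pt) (P q : Pt) (L : List (ℝ × Pt)), Legal H S P →
    |P.2 - q.2| ≤ 1 → arc q P.2 = P.1 → UpS S H P.2 q L → H ≤ P.2 + 1 → Ahead S P P.2 H →
    Φ.up H P.2 q L + W P.2 ≤ Φ.F P H - Φ.F P P.2 + Φ.T P
  corner : ∀ (S : Set Pt) (P q : Pt), Legal H S P → P.2 = H → q ∈ S → |H - q.2| ≤ 1 →
    arc q H = P.1 → Φ.T q + W H ≤ Φ.T P

theorem UpGain.result {H : ℝ} {Φ : Fun} {W : ℝ → ℝ} (h : UpGain H Φ W) {S : Set Pt} {P q : Pt}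
    {L L' : List (ℝ × Pt)} (hL : Legal H S P) (h1 : |P.2 - q.2| ≤ 1) (h2 : arc q P.2 = P.1)
    (hU : UpS S H P.2 q L) (hR : Result S H P q L L') :
    Φ.up H P.2 q L + W P.2 ≤ Φ.up H P.2 P L' := by
  cases hR with
  | wall w1 w2 => exact h.wall S P q L hL h1 h2 hU w1 w2
  | exit C R B e c1 c2 c3 c4 c5 c6 =>
    rw [c1, Φ.up_append H C R c2]
    simp only [Fun.up]
    have := h.exit S P q C R B e hL h1 h2 c2 c3 c4 c5 c6
    linear_combination this

/-- Switches at cusps do not contribute. -/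
def Fun.Cusp (Φ : Fun) : Prop :=
  ∀ q q' z, |z - q.2| ≤ 1 → |z - q'.2| ≤ 1 → arc q z = arc q' z → Φ.J q q' z = 0

theorem Fun.Cusp.mirror {Φ : Fun} (h : Φ.Cusp) (H : ℝ) : (Φ.flip H).Cusp := by
  intro q q' z h1 h2 h3
  refine h _ _ _ ?_ ?_ ?_
  · rw [mir_snd, show H - z - (H - q'.2) = -(z - q'.2) by ring, abs_neg]
    exact h2
  · rw [mir_snd, show H - z - (H - q.2) = -(z - q.2) by ring, abs_neg]
    exact h1
  · rw [← arc_mir, ← arc_mir, mir_mir, mir_mir]
    exact h3.symm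

/-- Insertion, upper side. -/
theorem up_insert {S : Set Pt} {H : ℝ} {P q : Pt} (hx : ∀ r ∈ S, r.1 ≤ P.1)
    {L : List (ℝ × Pt)} (hU : Up S H P.2 q L) : ∃ L', Up (insert P S) H P.2 P L' ∧
      (P.2 < H → P.2 < nxt H L') ∧ ∀ (Φ : Fun) (W : ℝ → ℝ), Legal H S P → UpGain H Φ W → Φ.Cusp →
        |P.2 - q.2| ≤ 1 → arc q P.2 = P.1 → Φ.up H P.2 q L + W P.2 ≤ Φ.up H P.2 P L' := by
  rcases hU.le.eq_or_lt with hPH | hPH
  · -- `P` is on the wall
    have hL : L = [] := by
      cases L with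
      | nil => rfl
      | cons e L =>
        exfalso
        have := hU.2.2.2.lt
        exact absurd hU.1 (not_le.mpr (by linear_combination -hPH + this))
    subst hL
    refine ⟨[], ⟨hPH.le, Set.mem_insert _ _, fun t h1 h2 => ?_⟩, fun h => absurd hPH h.ne, ?_⟩
    · exact absurd h1 (not_lt.mpr (by linear_combination -hPH + h2))
    · intro Φ W hLe hG _ h1 h2
      simp only [Fun.up]
      rw [hPH] at h1 h2 ⊢
      have := hG.corner S P q hLe hPH hU.mem h1 h2
      linear_combination this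
  · rcases hU.le_nxt.eq_or_lt with h | h
    · -- the first piece has length zero
      cases L with
      | nil => exact absurd h hPH.ne
      | cons e L =>
        obtain ⟨h1, h2, h3, h4⟩ := hU
        rw [nxt_cons] at h
        have h4' : UpS S H P.2 e.2 L := by
          rw [h]
          exact h4
        obtain ⟨L', hR⟩ := insert_up hx h4'
        refine ⟨L', hR.up hPH.le, fun _ => hR.nxt hPH, ?_⟩
        intro Φ W hLe hG hC k1 k2
        obtain ⟨k3, k4⟩ := hLe.base (q := e.2) (b := nxt H L) (a := P.2) (by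
          cases L with
          | nil => exact h4'.1
          | cons d L => exact h4'.1) h4'.up.top (Or.inl rfl)
        have k5 := hG.result hLe k3 k4 h4' hR
        have k6 : Φ.J q e.2 P.2 = 0 := hC _ _ _ k1 k3 (by rw [k2, k4])
        simp only [Fun.up]
        rw [← h, k6]
        linear_combination k5
    · obtain ⟨L', hR⟩ := insert_up hx (hU.upS h)
      refine ⟨L', hR.up hPH.le, fun _ => hR.nxt hPH, ?_⟩
      intro Φ W hLe hG _ k1 k2
      exact hG.result hLe k1 k2 (hU.upS h) hR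

/-- Insertion of a point in the front. -/
theorem St.insert {S : Set Pt} {H : ℝ} (hH : 0 < H) {P q : Pt} (hx : ∀ r ∈ S, r.1 ≤ P.1)
    (hP : 0 ≤ P.2 ∧ P.2 ≤ H) {Lu Ld : List (ℝ × Pt)} (h : St S H P.2 q Lu Ld) :
    ∃ Lu' Ld', St (insert P S) H P.2 P Lu' Ld' ∧
      ∀ (Φ : Fun) (Wu Wd : ℝ → ℝ), Legal H S P → UpGain H Φ Wu → UpGain H (Φ.flip H) Wd →
        Φ.Cusp → Φ.val H P.2 q Lu Ld + Wu P.2 + Wd (H - P.2) ≤ Φ.val H P.2 P Lu' Ld' := by
  obtain ⟨Lu', u1, u2, u3⟩ := up_insert hx h.up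
  have hd : Up (mirS H S) H (mir H P).2 (mir H q) Ld := h.dn
  obtain ⟨Ld', d1, d2, d3⟩ := up_insert (S := mirS H S) (P := mir H P) (q := mir H q)
    (fun r hr => hx (mir H r) hr) hd
  refine ⟨Lu', Ld', ⟨u1, ?_, ?_⟩, ?_⟩
  · rw [mirS_insert]
    exact d1
  · rcases hP.2.eq_or_lt with h1 | h1
    · right
      apply d2
      rw [mir_snd]
      linear_combination hH - h1
    · exact Or.inl (u2 h1)
  · intro Φ Wu Wd hLe hGu hGd hC
    have hb : |P.2 - q.2| ≤ 1 ∧ arc q P.2 = P.1 := by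
      rcases h.pos with h1 | h1
      · exact hLe.base h1 h.up.top (Or.inl rfl)
      · have h2 := h.dn.top.flip (H := H)
        rw [mirS_mirS, mir_mir, sub_sub_cancel] at h2
        exact hLe.base (by linear_combination h1) h2 (Or.inr rfl)
    have k1 := u3 Φ Wu hLe hGu hC hb.1 hb.2
    have k2 := d3 (Φ.flip H) Wd hLe.mirror hGd (hC.mirror H) (by
      rw [mir_snd, mir_snd, show H - P.2 - (H - q.2) = -(P.2 - q.2) by ring, abs_neg]
      exact hb.1) (by
      rw [arc_mir, mir_snd, sub_sub_cancel, mir_fst]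
      exact hb.2)
    unfold Fun.val
    rw [mir_snd] at k2
    linear_combination k1 + k2

end Pool.Agent.Strip051
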