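import Pool.Agent.StripTwo.S6_Sides
import Pool.Agent.StripSquare.Arc

/-! # Molnar's bound: from counting in a strip to densities

`CountBound n s` is the counting form of Molnar's bound for the strip of height `n h0 + s`. -/

namespace Pool.Agent.Strip051

open Pool.Agent.StripNear Pool.Agent.StripSquare
open Pool.Agent.StripTwo (rowNumber molnar)

/-- Counting form of Molnar's bound in the strip of height `n h0 + s`. -/
def CountBound (n : ℕ) (s : ℝ) : Prop :=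
  ∃ C0 : ℝ, ∀ L : ℝ, 0 ≤ L → ∀ X : Finset Pt, UnitSep X → InStrip (n * h0 + s) X →
    (∀ p ∈ X, 0 ≤ p.1 ∧ p.1 ≤ L) →
    (X.card : ℝ) * (n + 2 * g s) ≤ (n + 1) * (n + 2) * (L + C0)

theorem g_gt_half {s : ℝ} (hs0 : 0 ≤ s) (hs1 : s < h0) : 1 / 2 < g s := by
  unfold g
  rw [Real.lt_sqrt (by norm_num)]
  nlinarith [h0_sq]

/-- The remainder `s` of the height `(w - 2) / 2` modulo `h0`. -/
noncomputable def rest (w : ℝ) : ℝ := (w - 2 - Real.sqrt 3 * rowNumber w) / 2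

theorem rest_spec {w : ℝ} (hw : 2 ≤ w) :
    0 ≤ rest w ∧ rest w < h0 ∧ (w - 2) / 2 = rowNumber w * h0 + rest w := by
  have h3 : 0 < Real.sqrt 3 := Real.sqrt_pos.2 (by norm_num)
  set n := rowNumber w with hn
  have hn0 : (0 : ℝ) ≤ n := Nat.cast_nonneg n
  have hq : 0 ≤ (w - 2) / Real.sqrt 3 := div_nonneg (by linarith) h3.le
  have hlo : (n : ℝ) * Real.sqrt 3 ≤ w - 2 := by
    have h : (n : ℝ) ≤ (w - 2) / Real.sqrt 3 := Nat.floor_le hq
    rwa [le_div_iff₀ h3] at h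
  have hhi : w - 2 < ((n : ℝ) + 1) * Real.sqrt 3 := by
    have h : (w - 2) / Real.sqrt 3 < (n : ℝ) + 1 := Nat.lt_floor_add_one _
    rwa [div_lt_iff₀ h3] at h
  unfold rest
  rw [← hn]
  refine ⟨by linarith, ?_, ?_⟩
  · unfold h0
    linarith
  · unfold h0
    ring

/-- From counting to densities, one width. -/
theorem le_molnar_of_count {w : ℝ} (hw : 2 ≤ w) (h : CountBound (rowNumber w) (rest w))
    {C : Set E2} (hC : IsStripPacking w C) {O : E2} {d : ℝ} (hd : HasDensity w C O d) :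
    d ≤ molnar w := by
  obtain ⟨hs0, hs1, hH⟩ := rest_spec hw
  obtain ⟨C0, hC0⟩ := h
  set n := rowNumber w with hn
  have hn0 : (0 : ℝ) ≤ n := Nat.cast_nonneg n
  have hg := g_gt_half hs0 hs1
  have h4 : 0 < (n : ℝ) + 2 * g (rest w) := by linarith
  have h1 := density_le (w := w) (m := ((n : ℝ) + 1) * (n + 2) / (n + 2 * g (rest w)))
    (C0 := ((n : ℝ) + 1) * (n + 2) / (n + 2 * g (rest w)) * C0) hw
    (fun L hL0 X hX hL hXH => by
      rw [hH] at hXH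
      have h5 := hC0 L hL0 X hX hXH hL
      rw [← mul_add, div_mul_eq_mul_div, le_div_iff₀ h4]
      exact h5) hC hd
  refine h1.trans (le_of_eq ?_)
  unfold molnar
  rw [← hn]
  have e : Real.sqrt (4 - (w - 2 - Real.sqrt 3 * n) ^ 2) = 2 * g (rest w) := by
    unfold g rest
    rw [← hn, show 4 - (w - 2 - Real.sqrt 3 * n) ^ 2 =
      2 ^ 2 * (1 - ((w - 2 - Real.sqrt 3 * n) / 2) ^ 2) by ring,
      Real.sqrt_mul (by norm_num), Real.sqrt_sq (by norm_num)]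
  rw [e]
  field_simp

/-- From counting to densities, all widths. -/
theorem le_molnar_of_count_all (h : ∀ (n : ℕ) (s : ℝ), 0 ≤ s → s < h0 → CountBound n s)
    (w : ℝ) (hw : 2 ≤ w) (C : Set E2) (hC : IsStripPacking w C) (O : E2) (d : ℝ)
    (hd : HasDensity w C O d) : d ≤ molnar w := by
  obtain ⟨hs0, hs1, -⟩ := rest_spec hw
  exact le_molnar_of_count hw (h _ _ hs0 hs1) hC hd

/-- From a bound for weighted sums to the counting form: every point has weight at least one and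
the total is at most `ρ L + C` with `ρ = (n + 1) (n + 2) / (n + 2 g s)`. -/
theorem countBound_of_sum {n : ℕ} {s : ℝ} {W : ℝ → ℝ} {ρ C0 : ℝ} (hs0 : 0 ≤ s) (hs1 : s < h0)
    (hρ : ρ * (n + 2 * g s) ≤ (n + 1) * (n + 2)) (hW : ∀ y, 0 ≤ y → y ≤ n * h0 + s → 1 ≤ W y)
    (hsum : ∀ L : ℝ, 0 ≤ L → ∀ X : Finset Pt, UnitSep X → InStrip (n * h0 + s) X →
      (∀ p ∈ X, 0 ≤ p.1 ∧ p.1 ≤ L) → ∑ p ∈ X, W p.2 ≤ ρ * L + C0) : CountBound n s := by
  have hn0 : (0 : ℝ) ≤ n := Nat.cast_nonneg n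
  have hg := g_gt_half hs0 hs1
  have h4 : 0 < (n : ℝ) + 2 * g s := by linarith
  have h5 : (0 : ℝ) < (n + 1) * (n + 2) := by positivity
  refine ⟨C0 * (n + 2 * g s) / ((n + 1) * (n + 2)), ?_⟩
  intro L hL X hX hH hXL
  have h1 := hsum L hL X hX hH hXL
  have h2 : (X.card : ℝ) ≤ ∑ p ∈ X, W p.2 := by
    calc (X.card : ℝ) = ∑ _p ∈ X, (1 : ℝ) := by simp
      _ ≤ ∑ p ∈ X, W p.2 := Finset.sum_le_sum fun p hp => hW _ (hH p hp).1 (hH p hp).2
  have h3 : (X.card : ℝ) * (n + 2 * g s) ≤ (ρ * L + C0) * (n + 2 * g s) :=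
    mul_le_mul_of_nonneg_right (h2.trans h1) h4.le
  have h6 : ρ * (n + 2 * g s) * L ≤ (n + 1) * (n + 2) * L := mul_le_mul_of_nonneg_right hρ hL
  have h7 : ((n : ℝ) + 1) * (n + 2) * (C0 * (n + 2 * g s) / ((n + 1) * (n + 2))) =
      C0 * (n + 2 * g s) := by
    field_simp
  calc (X.card : ℝ) * (n + 2 * g s) ≤ (ρ * L + C0) * (n + 2 * g s) := h3
    _ = ρ * (n + 2 * g s) * L + C0 * (n + 2 * g s) := by ring
    _ ≤ (n + 1) * (n + 2) * L + C0 * (n + 2 * g s) := by linarith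
    _ = (n + 1) * (n + 2) * (L + C0 * (n + 2 * g s) / ((n + 1) * (n + 2))) := by
        rw [mul_add _ L, h7]

end Pool.Agent.Strip051
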