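import Pool.Agent.Strip051.FrontBd
import Pool.Agent.Strip051.Main

/-! # From the local inequalities of a functional of fronts to a counting bound -/

namespace Pool.Agent.Strip051

open Pool.Agent.StripNear Pool.Agent.StripSquare

/-! ### The start column -/

/-- The start column. -/
def S0 (N : ℕ) : Set Pt := {p | ∃ k : ℕ, k ≤ N ∧ p = (-1, (k : ℝ))}

/-- The front of the start column above its point number `i`. -/
noncomputable def colF : ℕ → ℕ → List (ℝ × Pt)
  | _, 0 => []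
  | i, m + 1 => ((i : ℝ) + 1 / 2, (-1, ((i + 1 : ℕ) : ℝ))) :: colF (i + 1) m

theorem top_col {N i : ℕ} (hi : i ≤ N) {z z' : ℝ} (hz : (i : ℝ) - 1 / 2 ≤ z ∨ i = 0)
    (hz0 : 0 ≤ z) (hz' : z' ≤ i + 1 / 2 ∨ (i = N ∧ z' ≤ N + 1)) :
    Top (S0 N) (-1, (i : ℝ)) z z' := by
  refine ⟨⟨i, hi, rfl⟩, ?_⟩
  intro t h1 h2
  have hlo : (i : ℝ) - 1 / 2 ≤ t := by
    rcases hz with h | h
    · linarith
    · rw [h]
      push_cast
      linarith
  have hiN : i = N → (i : ℝ) = N := fun h => by rw [h]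
  refine ⟨?_, ?_⟩
  · simp only
    rw [abs_le]
    rcases hz' with h | ⟨h3, h⟩
    · constructor <;> linarith
    · have := hiN h3
      constructor <;> linarith
  · rintro r ⟨k, hk, rfl⟩ -
    unfold arc g
    simp only
    have hk' : (k : ℝ) ≤ N := by exact_mod_cast hk
    have : (t - (i : ℝ)) ^ 2 ≤ (t - (k : ℝ)) ^ 2 := by
      rcases lt_trichotomy k i with h | h | h
      · have h5 : (k : ℝ) + 1 ≤ i := by exact_mod_cast h
        nlinarith
      · rw [h]
      · have h5 : (i : ℝ) + 1 ≤ k := by exact_mod_cast h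
        rcases hz' with h6 | ⟨h6, -⟩
        · nlinarith
        · omega
    have h7 := Real.sqrt_le_sqrt (show 1 - (t - (k : ℝ)) ^ 2 ≤ 1 - (t - (i : ℝ)) ^ 2 by linarith)
    linarith

theorem col_upS {H : ℝ} {N : ℕ} (hN : (N : ℝ) ≤ H) (hN' : H ≤ N + 1) (m : ℕ) :
    ∀ {i : ℕ} {z : ℝ}, i + m = N → ((i : ℝ) - 1 / 2 ≤ z ∨ i = 0) → 0 ≤ z →
      z < i + 1 / 2 → z < H → UpS (S0 N) H z (-1, (i : ℝ)) (colF i m) := by
  induction m with
  | zero =>
    intro i z hi hz hz0 hz1 hzH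
    exact ⟨hzH, top_col (by omega) hz hz0 (Or.inr ⟨by omega, hN'⟩)⟩
  | succ m ih =>
    intro i z hi hz hz0 hz1 hzH
    have h1 : (i : ℝ) + 1 ≤ N := by
      have : i + 1 ≤ N := by omega
      exact_mod_cast this
    refine ⟨hz1, top_col (by omega) hz hz0 (Or.inl le_rfl), ?_, ?_⟩
    · simp only
      push_cast
      linarith
    · apply ih (by omega)
      · left
        push_cast
        linarith
      · simp only
        linarith
      · push_cast
        linarith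
      · simp only
        linarith

theorem col_st {H : ℝ} (hH : 0 < H) :
    St (S0 ⌊H⌋₊) H 0 (-1, ((0 : ℕ) : ℝ)) (colF 0 ⌊H⌋₊) [] := by
  have h1 := Nat.floor_le hH.le
  have h2 := Nat.lt_floor_add_one H
  have h3 : UpS (S0 ⌊H⌋₊) H 0 (-1, ((0 : ℕ) : ℝ)) (colF 0 ⌊H⌋₊) :=
    col_upS h1 h2.le ⌊H⌋₊ (by omega) (Or.inr rfl) le_rfl (by norm_num) hH
  refine ⟨h3.up, ⟨by linarith, mir_mem h3.up.mem, fun t k1 k2 => ?_⟩, Or.inl h3.lt_nxt⟩
  rw [sub_zero] at k1
  linarith

theorem col_good {H : ℝ} (hH : 0 < H) : Good H (S0 ⌊H⌋₊) := by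
  have h1 := Nat.floor_le hH.le
  refine ⟨?_, ?_⟩
  · rintro r ⟨k, hk, rfl⟩
    have h2 : (k : ℝ) ≤ ⌊H⌋₊ := by exact_mod_cast hk
    exact ⟨Nat.cast_nonneg k, h2.trans h1⟩
  · rintro r ⟨k, hk, rfl⟩ r' ⟨j, hj, rfl⟩ hne
    have hjk : k ≠ j := fun h => hne (by rw [h])
    have h1 : 1 ≤ ((k : ℝ) - j) ^ 2 := by
      have h2 : (1 : ℤ) ≤ ((k : ℤ) - j) ^ 2 := by
        have : (k : ℤ) - j ≠ 0 := by omega
        have := sq_pos_of_ne_zero this
        omega
      exact_mod_cast h2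
    unfold Sep
    simp only
    linarith

/-- Points of the start column and of a finite set. -/
def All (N : ℕ) (s : Finset Pt) : Set Pt := S0 N ∪ {p | p ∈ s}

theorem all_insert (N : ℕ) (s : Finset Pt) (a : Pt) [DecidableEq Pt] :
    All N (insert a s) = insert a (All N s) := by
  ext p
  simp only [All, Set.mem_union, Set.mem_ofPred_eq, Finset.mem_insert, Set.mem_insert_iff]
  tauto

theorem all_good {H : ℝ} (hH : 0 < H) {s : Finset Pt} (h1 : UnitSep s) (h2 : InStrip H s)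
    (h3 : ∀ p ∈ s, 0 ≤ p.1) : Good H (All ⌊H⌋₊ s) := by
  have hc := col_good hH
  have hcross : ∀ q ∈ s, ∀ q' ∈ S0 ⌊H⌋₊, Sep q q' ∧ Sep q' q := by
    rintro q hq q' ⟨k, hk, rfl⟩
    have h4 := h3 q hq
    unfold Sep
    simp only
    constructor <;> nlinarith [sq_nonneg (q.2 - k)]
  refine ⟨?_, ?_⟩
  · rintro r (hr | hr)
    · exact hc.strip r hr
    · exact h2 r hr
  · rintro r (hr | hr) r' (hr' | hr') hne
    · exact hc.sep r hr r' hr' hne
    · exact (hcross r' hr' r hr).2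
    · exact (hcross r hr r' hr').1
    · exact h1 r hr r' hr' hne

/-- A certificate: a functional of fronts which gains at least one at every insertion. -/
structure FrontCert (H : ℝ) (Φ : Fun) (Wu Wd : ℝ → ℝ) (a b K : ℝ) : Prop where
  K0 : 0 ≤ K
  bd : Bd H Φ a b K
  cusp : Φ.Cusp
  up : UpGain H Φ Wu
  dn : UpGain H (Φ.flip H) Wd
  weight : ∀ y, 0 ≤ y → y ≤ H → 1 ≤ Wu y + Wd (H - y)

/-- The bound for the values. -/
noncomputable def vBd (H a b K : ℝ) : ℝ := (4 * maxLen H + 4) * K + 2 * |a| + 2 * |b|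

theorem fold {H : ℝ} (hH : 0 < H) {Φ : Fun} {Wu Wd : ℝ → ℝ} {a b K : ℝ}
    (hΦ : FrontCert H Φ Wu Wd a b K) {L : ℝ} {T : Finset Pt} (hT : Box L H T)
    (hsat : ∀ v : Pt, 0 ≤ v.1 → v.1 ≤ L → 0 ≤ v.2 → v.2 ≤ H →
      ∃ r ∈ T, (v.1 - r.1) ^ 2 + (v.2 - r.2) ^ 2 < 1)
    (hsup : ∀ p ∈ T, 0 < p.1 → ∃ q ∈ T, q.1 < p.1 ∧ (p.1 - q.1) ^ 2 + (p.2 - q.2) ^ 2 = 1)
    (s : Finset Pt) : (∀ p ∈ s, p ∈ T) → (∀ p ∈ T, p ∉ s → ∀ q ∈ s, q.1 ≤ p.1) →
    (∀ p ∈ T, ∀ q ∈ s, p.1 < q.1 → p ∈ s) →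
    ∃ y q Lu Ld, 0 ≤ y ∧ y ≤ H ∧ St (All ⌊H⌋₊ s) H y q Lu Ld ∧
      (a + b) - vBd H a b K + ((s.filter fun p => 1 < p.1).card : ℝ) ≤ Φ.val H y q Lu Ld := by
  classical
  have hlow : ∀ s : Finset Pt, (∀ p ∈ s, p ∈ T) → (∀ p ∈ s, p.1 ≤ 1) →
      ∀ {y : ℝ} {q : Pt} {Lu Ld : List (ℝ × Pt)}, 0 ≤ y → y ≤ H → St (All ⌊H⌋₊ s) H y q Lu Ld →
      (a + b) - vBd H a b K + ((s.filter fun p => 1 < p.1).card : ℝ) ≤ Φ.val H y q Lu Ld := by
    intro s h1 h2 y q Lu Ld h3 h4 h5
    have hg : Good H (All ⌊H⌋₊ s) := all_good hH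
      (fun p hp q hq hne => hT.sep p (h1 p hp) q (h1 q hq) hne) (fun p hp => hT.strip p (h1 p hp))
      (fun p hp => (hT.x p (h1 p hp)).1)
    have hv : Vis H (All ⌊H⌋₊ s) 1 := by
      rintro q a b - - - ⟨hq | hq, -⟩
      · obtain ⟨k, hk, rfl⟩ := hq
        norm_num
      · exact ⟨by linarith [(hT.x q (h1 q hq)).1], h2 q hq⟩
    have h6 := h5.bound hg hv hΦ.bd hΦ.K0 h3 h4
    have h7 : s.filter (fun p => 1 < p.1) = ∅ := by
      rw [Finset.filter_eq_empty_iff]
      intro p hp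
      exact not_lt.2 (h2 p hp)
    rw [h7, Finset.card_empty]
    rw [abs_le] at h6
    unfold vBd
    push_cast
    linarith [h6.1]
  refine Finset.induction_on_max_value (fun p : Pt => toLex p) s ?_ ?_
  · intro _ _ _
    have h1 := col_st hH
    have h2 : All ⌊H⌋₊ ∅ = S0 ⌊H⌋₊ := by
      ext p
      simp [All]
    rw [← h2] at h1
    exact ⟨0, _, _, _, le_rfl, hH.le, h1, hlow ∅ (fun p hp => absurd hp (Finset.notMem_empty p))
      (fun p hp => absurd hp (Finset.notMem_empty p)) le_rfl hH.le h1⟩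
  · intro P s hPs hmax ih hsT hord hlo
    have hmax1 : ∀ q ∈ s, q.1 ≤ P.1 := by
      intro q hq
      have h1 := hmax q hq
      rw [Prod.Lex.le_iff] at h1
      rcases h1 with h1 | ⟨h1, -⟩
      · exact h1.le
      · exact h1.le
    have hPT := hsT P (Finset.mem_insert_self _ _)
    have hsT' : ∀ p ∈ s, p ∈ T := fun p hp => hsT p (Finset.mem_insert_of_mem hp)
    have hlo' : ∀ p ∈ T, ∀ q ∈ s, p.1 < q.1 → p ∈ s := by
      intro p hp q hq hpq
      rcases Finset.mem_insert.1 (hlo p hp q (Finset.mem_insert_of_mem hq) hpq) with h | h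
      · exfalso
        rw [h] at hpq
        linarith [hmax1 q hq]
      · exact h
    have hord' : ∀ p ∈ T, p ∉ s → ∀ q ∈ s, q.1 ≤ p.1 := by
      intro p hp hps q hq
      rcases eq_or_ne p P with h | h
      · rw [h]
        exact hmax1 q hq
      · exact hord p hp (fun h1 => by
          rcases Finset.mem_insert.1 h1 with h2 | h2
          · exact h h2
          · exact hps h2) q (Finset.mem_insert_of_mem hq)
    obtain ⟨y, q, Lu, Ld, k1, k2, k3, k4⟩ := ih hsT' hord' hlo'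
    have hPs' := hT.strip P hPT
    have hPx := hT.x P hPT
    obtain ⟨q', Lu', Ld', m1, m2⟩ := k3.move (Φ := Φ) hPs'.1 hPs'.2
    have hx : ∀ r ∈ All ⌊H⌋₊ s, r.1 ≤ P.1 := by
      rintro r (⟨k, hk, rfl⟩ | hr)
      · simp only
        linarith [hPx.1]
      · exact hmax1 r hr
    obtain ⟨Lu'', Ld'', n1, n2⟩ := m1.insert hH hx hPs'
    rw [← all_insert] at n1
    refine ⟨P.2, P, Lu'', Ld'', hPs'.1, hPs'.2, n1, ?_⟩
    rcases le_or_gt P.1 1 with hP1 | hP1
    · exact hlow (insert P s) hsT (fun p hp => by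
        rcases Finset.mem_insert.1 hp with rfl | hp
        · exact hP1
        · exact (hmax1 p hp).trans hP1) hPs'.1 hPs'.2 n1
    · have hold : ∀ r ∈ T, r.1 < P.1 → r ∈ s := by
        intro r hr hrP
        rcases Finset.mem_insert.1 (hlo r hr P (Finset.mem_insert_self _ _) hrP) with h | h
        · rw [h] at hrP
          exact absurd hrP (lt_irrefl _)
        · exact h
      have hgood : Good H (All ⌊H⌋₊ (insert P s)) := all_good hH
        (fun p hp q hq hne => hT.sep p (hsT p hp) q (hsT q hq) hne)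
        (fun p hp => hT.strip p (hsT p hp)) (fun p hp => (hT.x p (hsT p hp)).1)
      rw [all_insert] at hgood
      have hPnot : P ∉ All ⌊H⌋₊ s := by
        rintro (⟨k, hk, h⟩ | h)
        · have := congrArg Prod.fst h
          simp only at this
          linarith
        · exact hPs h
      have hLe : Legal H (All ⌊H⌋₊ s) P := by
        refine ⟨fun r hr => hgood.strip r (Set.mem_insert_of_mem _ hr), hPs', ?_, ?_, hx, ?_, ?_⟩
        · intro r hr r' hr' hne
          exact hgood.sep r (Set.mem_insert_of_mem _ hr) r' (Set.mem_insert_of_mem _ hr') hne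
        · intro r hr
          exact hgood.sep P (Set.mem_insert _ _) r (Set.mem_insert_of_mem _ hr)
            fun h => hPnot (h ▸ hr)
        · obtain ⟨r, r1, r2, r3⟩ := hsup P hPT (by linarith)
          exact ⟨r, Or.inr (hold r r1 r2), r2, r3⟩
        · intro z z1 z2
          obtain ⟨r, r1, r2⟩ := hsat (P.1 - 1, z) (by simp only; linarith)
            (by simp only; linarith [hPx.2]) z1 z2
          simp only at r2
          have r3 : r.1 < P.1 := by
            nlinarith [sq_nonneg (z - r.2), sq_nonneg (P.1 - 1 - r.1)]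
          refine ⟨r, Or.inr (hold r r1 r3), ?_, ?_⟩
          · rw [abs_lt]
            constructor <;> nlinarith [sq_nonneg (P.1 - 1 - r.1)]
          · unfold arc g
            have : P.1 - 1 - r.1 < Real.sqrt (1 - (z - r.2) ^ 2) := by
              apply Real.lt_sqrt_of_sq_lt
              linarith
            linarith
      have g1 := n2 Φ Wu Wd hLe hΦ.up hΦ.dn hΦ.cusp
      have g2 := hΦ.weight P.2 hPs'.1 hPs'.2
      rw [Finset.filter_insert, if_pos hP1, Finset.card_insert_of_notMem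
        (fun h => hPs (Finset.mem_filter.1 h).1)]
      push_cast
      linarith

/-- From the local inequalities to the bound for the number of points. -/
theorem front_machine {H : ℝ} (hH : 0 < H) {Φ : Fun} {Wu Wd : ℝ → ℝ} {a b K : ℝ}
    (hΦ : FrontCert H Φ Wu Wd a b K) :
    ∃ C0 : ℝ, ∀ L : ℝ, 0 ≤ L → ∀ X : Finset Pt, UnitSep X → InStrip H X →
      (∀ p ∈ X, 0 ≤ p.1 ∧ p.1 ≤ L) → (X.card : ℝ) ≤ (a + b) * L + C0 := by
  classical
  refine ⟨2 * vBd H a b K - (a + b) + ((⌊2 * (1 : ℝ)⌋₊ + 1) * (⌊2 * H⌋₊ + 1) : ℕ), ?_⟩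
  intro L hL X hX hXH hXL
  obtain ⟨T, hT, hmax, hsat, hsup⟩ := exists_packing (L := L) (H := H)
  have hXT := hmax X ⟨hX, hXH, hXL⟩
  obtain ⟨y, q, Lu, Ld, h1, h2, h3, h4⟩ := fold hH hΦ hT hsat hsup T (fun p hp => hp)
    (fun p hp h => absurd hp h) (fun p hp _ _ _ => hp)
  have hg : Good H (All ⌊H⌋₊ T) := all_good hH hT.sep hT.strip fun p hp => (hT.x p hp).1
  have hv : Vis H (All ⌊H⌋₊ T) L := by
    intro q a b ha hab hb hTop
    have hq1 : q.1 ≤ L := by
      rcases hTop.1 with ⟨k, hk, rfl⟩ | hq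
      · simp only
        linarith
      · exact (hT.x q hq).2
    refine ⟨?_, hq1⟩
    obtain ⟨r, r1, r2⟩ := hsat (L, (a + b) / 2) hL le_rfl (by simp only; linarith)
      (by simp only; linarith)
    simp only at r2
    have r3 : |(a + b) / 2 - r.2| ≤ 1 := by
      rw [abs_le]
      constructor <;> nlinarith [sq_nonneg (L - r.1)]
    have r4 := (hTop.2 ((a + b) / 2) (by linarith) (by linarith)).2 r (Or.inr r1) r3
    have r5 : L < arc r ((a + b) / 2) := by
      unfold arc g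
      have : L - r.1 < Real.sqrt (1 - ((a + b) / 2 - r.2) ^ 2) := by
        apply Real.lt_sqrt_of_sq_lt
        linarith
      linarith
    have r6 := arc_le q ((a + b) / 2)
    linarith
  have h5 := h3.bound hg hv hΦ.bd hΦ.K0 h1 h2
  rw [abs_le] at h5
  have h6 : (T.card : ℝ) ≤ (T.filter fun p => 1 < p.1).card +
      ((⌊2 * (1 : ℝ)⌋₊ + 1) * (⌊2 * H⌋₊ + 1) : ℕ) := by
    have h7 := Finset.card_filter_add_card_filter_not (s := T) (fun p : Pt => 1 < p.1)
    have h8 := card_le_box (X := T.filter fun p => ¬ 1 < p.1) (a := 0) (w := 1) (H := H)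
      (fun p hp q hq hne => hT.sep p (Finset.mem_filter.1 hp).1 q (Finset.mem_filter.1 hq).1 hne)
      (fun p hp => ⟨(hT.x p (Finset.mem_filter.1 hp).1).1, by
        have := not_lt.1 (Finset.mem_filter.1 hp).2
        linarith⟩)
      (fun p hp => hT.strip p (Finset.mem_filter.1 hp).1)
    have h9 : T.card ≤ (T.filter fun p => 1 < p.1).card +
      (⌊2 * (1 : ℝ)⌋₊ + 1) * (⌊2 * H⌋₊ + 1) := by omega
    exact_mod_cast h9
  have h10 : (X.card : ℝ) ≤ T.card := by exact_mod_cast hXT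
  have h11 : (4 * (maxLen H : ℝ) + 4) * K + 2 * |a| + 2 * |b| = vBd H a b K := rfl
  linarith [h5.2]

end Pool.Agent.Strip051
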