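import Pool.Agent.Strip051.Main
import Pool.Agent.Strip051.Machine
import Pool.Agent.StripSquare.Count

/-! # Molnar's bound from the insertion inequalities -/

namespace Pool.Agent.Strip051

open Pool.Agent.StripNear Pool.Agent.StripSquare
open Pool.Agent.StripTwo (molnar)

/-- A certificate for the strip of height `n h0 + s`: a measure of windows `U` of total mass `ρ`,
an edge term `ψ` and a weight function `W ≥ 1` such that every insertion increases the potential by
at least the weight. -/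
structure Cert (n : ℕ) (s : ℝ) (U : ℝ → ℝ) (ψ : Pt → Pt → ℝ) (W : ℝ → ℝ) (K : ℝ) : Prop where
  mono : Monotone U
  mass : (U (n * h0 + s) - U (-h0)) * (n + 2 * g s) ≤ (n + 1) * (n + 2)
  psi : ∀ a b : Pt, OkEdge a b → Sep a b → 0 ≤ a.2 → b.2 ≤ n * h0 + s → ψ a b ≤ K * (b.2 - a.2)
  weight : ∀ y, 0 ≤ y → y ≤ n * h0 + s → 1 ≤ W y
  gain : Gain (n * h0 + s) (phi U ψ) (fun q => -q.1 * U (-h0)) (fun q => q.1 * U (n * h0 + s)) W

theorem countBound_of_cert {n : ℕ} {s : ℝ} (hs0 : 0 ≤ s) (hs1 : s < h0)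
    (hH : 0 < n * h0 + s) {U : ℝ → ℝ} {ψ : Pt → Pt → ℝ} {W : ℝ → ℝ} {K : ℝ}
    (h : Cert n s U ψ W K) : CountBound n s := by
  obtain ⟨C0, hC0⟩ := machine hH h.mono h.psi h.gain
  exact countBound_of_sum hs0 hs1 h.mass h.weight hC0

/-- In the strip of height `s < h0` Molnar's bound is elementary. -/
theorem countBound_zero {s : ℝ} (hs0 : 0 ≤ s) (hs1 : s < h0) : CountBound 0 s := by
  have hg := g_gt_half hs0 hs1
  refine ⟨2 - g s, ?_⟩
  intro L hL X hX hH hXL
  have hS : NoSteep X := by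
    intro p hp q hq h
    exfalso
    have h1 := hH p hp
    have h2 := hH q hq
    simp only [CharP.cast_eq_zero, zero_mul, zero_add] at h1 h2
    rcases abs_cases (p.2 - q.2) with h3 | h3 <;> linarith [h3.1]
  have h1 := count (n := 0) hs0 hs1 hX hS hH hXL hL
  have h4 : (0 : ℝ) < (0 : ℕ) + 2 * g s := by
    push_cast
    linear_combination 2 * hg
  rw [div_mul_eq_mul_div, le_div_iff₀ h4] at h1
  push_cast at h1 ⊢
  linear_combination h1

/-- Molnar's conjecture from certificates for all `n ≥ 1`. -/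
theorem molnar_of_cert
    (h : ∀ (n : ℕ) (s : ℝ), 1 ≤ n → 0 ≤ s → s < h0 → ∃ U ψ W K, Cert n s U ψ W K)
    (w : ℝ) (hw : 2 ≤ w) (C : Set E2) (hC : IsStripPacking w C) (O : E2) (d : ℝ)
    (hd : HasDensity w C O d) : d ≤ molnar w := by
  refine le_molnar_of_count_all ?_ w hw C hC O d hd
  intro n s hs0 hs1
  rcases Nat.eq_zero_or_pos n with rfl | hn
  · exact countBound_zero hs0 hs1
  · obtain ⟨U, ψ, W, K, hc⟩ := h n s hn hs0 hs1
    refine countBound_of_cert hs0 hs1 ?_ hc
    have h1 : (1 : ℝ) ≤ n := by exact_mod_cast hn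
    linear_combination h0_pos + hs0 + (mul_nonneg (sub_nonneg.mpr (le_of_lt h0_pos)) (sub_nonneg.mpr h1))

end Pool.Agent.Strip051
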