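import Pool.Agent.Strip051.FrontMain
import Pool.Agent.Strip051.Reduce

/-! # Molnar's bound from functionals of fronts -/

namespace Pool.Agent.Strip051

open Pool.Agent.StripNear Pool.Agent.StripSquare
open Pool.Agent.StripTwo (molnar)

theorem countBound_of_front {n : ℕ} {s : ℝ} (hs0 : 0 ≤ s) (hs1 : s < h0)
    (hH : 0 < n * h0 + s) {Φ : Fun} {Wu Wd : ℝ → ℝ} {a b K : ℝ}
    (hΦ : FrontCert (n * h0 + s) Φ Wu Wd a b K)
    (hρ : (a + b) * (n + 2 * g s) ≤ (n + 1) * (n + 2)) : CountBound n s := by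
  obtain ⟨C0, hC0⟩ := front_machine hH hΦ
  refine countBound_of_sum (W := fun _ => 1) (ρ := a + b) (C0 := C0) hs0 hs1 hρ
    (fun _ _ _ => le_rfl) ?_
  intro L hL X hX hXH hXL
  have := hC0 L hL X hX hXH hXL
  simpa using this

/-- Molnar's conjecture from functionals of fronts for all `n ≥ 1`. -/
theorem molnar_of_front
    (h : ∀ (n : ℕ) (s : ℝ), 1 ≤ n → 0 ≤ s → s < h0 → ∃ Φ Wu Wd a b K,
      FrontCert (n * h0 + s) Φ Wu Wd a b K ∧ (a + b) * (n + 2 * g s) ≤ (n + 1) * (n + 2))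
    (w : ℝ) (hw : 2 ≤ w) (C : Set E2) (hC : IsStripPacking w C) (O : E2) (d : ℝ)
    (hd : HasDensity w C O d) : d ≤ molnar w := by
  refine le_molnar_of_count_all ?_ w hw C hC O d hd
  intro n s hs0 hs1
  rcases Nat.eq_zero_or_pos n with rfl | hn
  · exact countBound_zero hs0 hs1
  · obtain ⟨Φ, Wu, Wd, a, b, K, hc, hρ⟩ := h n s hn hs0 hs1
    refine countBound_of_front hs0 hs1 ?_ hc hρ
    have h1 : (1 : ℝ) ≤ n := by exact_mod_cast hn
    nlinarith [h0_pos]

end Pool.Agent.Strip051
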