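import Pool.Agent.Strip051.Front

/-! # The front as a zipper

The front of a set of discs, seen from a height `y`: the pieces above `y` and the pieces below `y`,
the latter as a front above `H - y` of the reflected set. -/

namespace Pool.Agent.Strip051

open Pool.Agent.StripNear Pool.Agent.StripSquare

/-- Reflection of the strip. -/
def mir (H : ℝ) (p : Pt) : Pt := (p.1, H - p.2)

theorem mir_fst (H : ℝ) (p : Pt) : (mir H p).1 = p.1 := rfl

theorem mir_snd (H : ℝ) (p : Pt) : (mir H p).2 = H - p.2 := rfl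

theorem mir_mir (H : ℝ) (p : Pt) : mir H (mir H p) = p := by
  unfold mir
  simp

/-- The reflected set. -/
def mirS (H : ℝ) (S : Set Pt) : Set Pt := {p | mir H p ∈ S}

theorem mem_mirS {H : ℝ} {S : Set Pt} {p : Pt} : p ∈ mirS H S ↔ mir H p ∈ S := Iff.rfl

theorem mir_mem {H : ℝ} {S : Set Pt} {p : Pt} (h : p ∈ S) : mir H p ∈ mirS H S := by
  rw [mem_mirS, mir_mir]
  exact h

theorem mirS_mirS (H : ℝ) (S : Set Pt) : mirS H (mirS H S) = S := by
  ext p
  rw [mem_mirS, mem_mirS, mir_mir]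

theorem mirS_insert (H : ℝ) (S : Set Pt) (P : Pt) :
    mirS H (insert P S) = insert (mir H P) (mirS H S) := by
  ext p
  rw [mem_mirS, Set.mem_insert_iff, Set.mem_insert_iff, mem_mirS]
  constructor
  · rintro (h | h)
    · left
      rw [← h, mir_mir]
    · exact Or.inr h
  · rintro (h | h)
    · left
      rw [h, mir_mir]
    · exact Or.inr h

theorem arc_mir (H : ℝ) (q : Pt) (t : ℝ) : arc (mir H q) t = arc q (H - t) := by
  unfold arc
  rw [mir_fst, mir_snd, ← g_neg (t - (H - q.2)), show -(t - (H - q.2)) = H - t - q.2 by ring]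

theorem Top.flip {S : Set Pt} {q : Pt} {a b H : ℝ} (h : Top S q a b) :
    Top (mirS H S) (mir H q) (H - b) (H - a) := by
  refine ⟨mir_mem h.1, ?_⟩
  intro t h1 h2
  obtain ⟨h3, h4⟩ := h.2 (H - t) (by linear_combination h2) (by linear_combination h1)
  refine ⟨?_, ?_⟩
  · rw [mir_snd, show t - (H - q.2) = -(H - t - q.2) by ring, abs_neg]
    exact h3
  · intro r hr h5
    rw [arc_mir]
    have h6 := h4 (mir H r) hr (by
      rw [mir_snd, show H - t - (H - r.2) = -(t - r.2) by ring, abs_neg]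
      exact h5)
    rwa [arc_mir, sub_sub_cancel] at h6

theorem Top.glue {S : Set Pt} {q : Pt} {a y b : ℝ} (hay : a < y) (hyb : y < b)
    (h1 : Top S q a y) (h2 : Top S q y b) : Top S q a b := by
  refine ⟨h1.1, ?_⟩
  intro t ht1 ht2
  rcases lt_trichotomy t y with h | h | h
  · exact h1.2 t ht1 h
  · obtain ⟨n1, n2⟩ := h1.near hay
    obtain ⟨n3, n4⟩ := h2.near hyb
    rw [h]
    refine ⟨?_, ?_⟩
    · rw [abs_le]
      constructor <;> linarith
    · intro r hr h3
      rw [abs_le] at h3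
      rcases le_or_gt r.2 y with h4 | h4
      · refine le_right (arc_cont r) (arc_cont q) (m := max a (y - 1)) (max_lt hay (by linear_combination)) ?_
        intro t' k1 k2
        rw [max_lt_iff] at k1
        exact (h1.2 t' k1.1 k2).2 r hr (by
          rw [abs_le]
          constructor <;> linarith [h3.1, h3.2])
      · refine le_left (arc_cont r) (arc_cont q) (z := min b (y + 1)) (lt_min hyb (by linear_combination)) ?_
        intro t' k1 k2
        rw [lt_min_iff] at k2
        exact (h2.2 t' k1 k2.1).2 r hr (by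
          rw [abs_le]
          constructor <;> linarith [h3.1, h3.2])
  · exact h2.2 t h ht2

/-- Gluing with one part of length zero allowed. -/
theorem Top.glue' {S : Set Pt} {q : Pt} {a y b : ℝ} (hay : a ≤ y) (hyb : y ≤ b)
    (h1 : Top S q a y) (h2 : Top S q y b) : Top S q a b := by
  rcases hay.eq_or_lt with h | h
  · rw [h]
    exact h2
  · rcases hyb.eq_or_lt with h' | h'
    · rw [← h']
      exact h1
    · exact h1.glue h h' h2

/-- The front, seen from the height `y`, where `q` is visible. -/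
structure St (S : Set Pt) (H y : ℝ) (q : Pt) (Lu Ld : List (ℝ × Pt)) : Prop where
  up : Up S H y q Lu
  dn : Up (mirS H S) H (H - y) (mir H q) Ld
  pos : y < nxt H Lu ∨ H - y < nxt H Ld

theorem St.flip {S : Set Pt} {H y : ℝ} {q : Pt} {Lu Ld : List (ℝ × Pt)} (h : St S H y q Lu Ld) :
    St (mirS H S) H (H - y) (mir H q) Ld Lu := by
  refine ⟨h.dn, ?_, ?_⟩
  · rw [mirS_mirS, mir_mir, sub_sub_cancel]
    exact h.up
  · rw [sub_sub_cancel]
    exact h.pos.symm

theorem Up.extend {S : Set Pt} {H y y' : ℝ} {q : Pt} {L : List (ℝ × Pt)} (h : Up S H y q L)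
    (hy : y' ≤ y) (hT : Top S q y' y) : Up S H y' q L := by
  cases L with
  | nil => exact ⟨hy.trans h.1, hT.glue' hy h.1 h.2⟩
  | cons e L => exact ⟨hy.trans h.1, hT.glue' hy h.1 h.2.1, h.2.2⟩

theorem Up.upS {S : Set Pt} {H y : ℝ} {q : Pt} {L : List (ℝ × Pt)} (h : Up S H y q L)
    (hy : y < nxt H L) : UpS S H y q L := by
  cases L with
  | nil => exact ⟨hy, h.2⟩
  | cons e L => exact ⟨hy, h.2⟩

theorem Up.le_nxt {S : Set Pt} {H y : ℝ} {q : Pt} {L : List (ℝ × Pt)} (h : Up S H y q L) :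
    y ≤ nxt H L := by
  cases L with
  | nil => exact h.1
  | cons e L => exact h.1

theorem Up.top {S : Set Pt} {H y : ℝ} {q : Pt} {L : List (ℝ × Pt)} (h : Up S H y q L) :
    Top S q y (nxt H L) := by
  cases L with
  | nil => exact h.2
  | cons e L => exact h.2.1

theorem Up.shrink {S : Set Pt} {H y y' : ℝ} {q : Pt} {L : List (ℝ × Pt)} (h : Up S H y q L)
    (hy : y ≤ y') (hy' : y' ≤ nxt H L) : Up S H y' q L := by
  cases L with
  | nil => exact ⟨hy', h.2.mono hy le_rfl⟩
  | cons e L => exact ⟨hy', h.2.1.mono hy le_rfl, h.2.2⟩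

/-- A functional of fronts: a term for the arcs, a term for the switches and a term for each end. -/
structure Fun where
  /-- the contribution of the part of the arc of `q` between `z` and `z'` is `F q z' - F q z` -/
  F : Pt → ℝ → ℝ
  /-- the contribution of the switch at height `z` from `q` (below) to `q'` (above) -/
  J : Pt → Pt → ℝ → ℝ
  /-- the contribution of the last disc -/
  T : Pt → ℝ
  /-- the contribution of the first disc -/
  B : Pt → ℝ

/-- The reflected functional. -/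
def Fun.flip (H : ℝ) (Φ : Fun) : Fun where
  F q z := -Φ.F (mir H q) (H - z)
  J q q' z := Φ.J (mir H q') (mir H q) (H - z)
  T q := Φ.B (mir H q)
  B q := Φ.T (mir H q)

theorem Fun.flip_flip (H : ℝ) (Φ : Fun) : (Φ.flip H).flip H = Φ := by
  cases Φ
  unfold Fun.flip
  simp [mir_mir]

/-- The value of the functional on a front above `y`. -/
def Fun.up (Φ : Fun) (H : ℝ) : ℝ → Pt → List (ℝ × Pt) → ℝ
  | y, q, [] => Φ.F q H - Φ.F q y + Φ.T q
  | y, q, e :: L => Φ.F q e.1 - Φ.F q y + Φ.J q e.2 e.1 + Φ.up H e.1 e.2 L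

/-- The value of the functional on a front. -/
def Fun.val (Φ : Fun) (H y : ℝ) (q : Pt) (Lu Ld : List (ℝ × Pt)) : ℝ :=
  Φ.up H y q Lu + (Φ.flip H).up H (H - y) (mir H q) Ld

theorem Fun.val_flip (Φ : Fun) (H y : ℝ) (q : Pt) (Lu Ld : List (ℝ × Pt)) :
    (Φ.flip H).val H (H - y) (mir H q) Ld Lu = Φ.val H y q Lu Ld := by
  unfold Fun.val
  rw [Fun.flip_flip, sub_sub_cancel, mir_mir, add_comm]

theorem Fun.up_move (Φ : Fun) (H y y' : ℝ) (q : Pt) (L : List (ℝ × Pt)) :
    Φ.up H y' q L = Φ.up H y q L + Φ.F q y - Φ.F q y' := by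
  cases L with
  | nil =>
    simp only [Fun.up]
    ring
  | cons e L =>
    simp only [Fun.up]
    ring

theorem Fun.val_shift (Φ : Fun) (H y y' : ℝ) (q : Pt) (Lu Ld : List (ℝ × Pt)) :
    Φ.val H y' q Lu Ld = Φ.val H y q Lu Ld := by
  unfold Fun.val
  rw [Φ.up_move H y y', (Φ.flip H).up_move H (H - y) (H - y')]
  simp only [Fun.flip, mir_mir, sub_sub_cancel]
  ring

theorem Fun.val_next (Φ : Fun) (H z : ℝ) (q q' : Pt) (Lu Ld : List (ℝ × Pt)) :
    Φ.val H z q' Lu ((H - z, mir H q) :: Ld) = Φ.val H z q ((z, q') :: Lu) Ld := by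
  unfold Fun.val
  simp only [Fun.up, Fun.flip, mir_mir, sub_sub_cancel]
  ring

/-- Change of the view point within a piece. -/
theorem St.shift {S : Set Pt} {H y y' : ℝ} {q : Pt} {Lu Ld : List (ℝ × Pt)}
    (h : St S H y q Lu Ld) (hy : y ≤ y') (hy' : y' ≤ nxt H Lu) (hne : y < y' ∨ y' < nxt H Lu) :
    St S H y' q Lu Ld := by
  refine ⟨h.up.shrink hy hy', ?_, ?_⟩
  · refine h.dn.extend (by linear_combination hy) ?_
    exact (h.up.top.mono le_rfl hy').flip
  · rcases hne with h1 | h1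
    · right
      have := h.dn.le_nxt
      linear_combination h1 + this
    · exact Or.inl h1

/-- Change of the view point to the next piece. -/
theorem St.next {S : Set Pt} {H z : ℝ} {q q' : Pt} {Lu Ld : List (ℝ × Pt)}
    (h : St S H z q ((z, q') :: Lu) Ld) (hpos : H - z < nxt H Ld) :
    St S H z q' Lu ((H - z, mir H q) :: Ld) := by
  obtain ⟨h1, h2, h3, h4⟩ := h.up
  refine ⟨h4.up, ?_, ?_⟩
  · refine ⟨le_rfl, ⟨mir_mem h4.up.mem, fun t k1 k2 => ?_⟩, ?_, h.dn.upS hpos⟩
    · exact absurd k1 (not_lt.mpr (by linear_combination k2))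
    · rw [mir_snd, mir_snd]
      linear_combination h3
  · left
    cases Lu with
    | nil => exact h4.1
    | cons e L => exact h4.1

/-- Change of the view point, upwards. -/
theorem St.moveUp {S : Set Pt} {H : ℝ} {Φ : Fun} {y' : ℝ} (hy' : y' ≤ H) (Lu : List (ℝ × Pt)) :
    ∀ {y : ℝ} {q : Pt} {Ld : List (ℝ × Pt)}, St S H y q Lu Ld → y ≤ y' →
      ∃ q' Lu' Ld', St S H y' q' Lu' Ld' ∧ Φ.val H y' q' Lu' Ld' = Φ.val H y q Lu Ld := by
  induction Lu with
  | nil =>
    intro y q Ld h hy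
    rcases hy.eq_or_lt with h1 | h1
    · subst h1
      exact ⟨q, [], Ld, h, rfl⟩
    · exact ⟨q, [], Ld, h.shift hy hy' (Or.inl h1), Φ.val_shift H y y' q [] Ld⟩
  | cons e L ih =>
    intro y q Ld h hy
    rcases hy.eq_or_lt with h1 | h1
    · subst h1
      exact ⟨q, e :: L, Ld, h, rfl⟩
    · rcases le_or_gt y' e.1 with h2 | h2
      · exact ⟨q, e :: L, Ld, h.shift hy h2 (Or.inl h1), Φ.val_shift H y y' q _ Ld⟩
      · have h3 : St S H e.1 q (e :: L) Ld := by
          rcases h.up.1.eq_or_lt with h4 | h4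
          · rw [← h4]
            exact h
          · exact h.shift h.up.1 le_rfl (Or.inl h4)
        have h5 : H - e.1 < nxt H Ld := by
          rcases h3.pos with h4 | h4
          · exact absurd h4 (lt_irrefl _)
          · exact h4
        obtain ⟨q', Lu', Ld', k1, k2⟩ := ih (y := e.1) (q := e.2) (h3.next h5) h2.le
        refine ⟨q', Lu', Ld', k1, ?_⟩
        rw [k2, Φ.val_next H e.1 q e.2 L Ld, Φ.val_shift H y e.1]

/-- Change of the view point. -/
theorem St.move {S : Set Pt} {H : ℝ} {Φ : Fun} {y y' : ℝ} {q : Pt} {Lu Ld : List (ℝ × Pt)}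
    (h : St S H y q Lu Ld) (hy0 : 0 ≤ y') (hy' : y' ≤ H) :
    ∃ q' Lu' Ld', St S H y' q' Lu' Ld' ∧ Φ.val H y' q' Lu' Ld' = Φ.val H y q Lu Ld := by
  rcases le_total y y' with h1 | h1
  · exact St.moveUp hy' Lu h h1
  · obtain ⟨q', Ld', Lu', k1, k2⟩ := St.moveUp (Φ := Φ.flip H) (y' := H - y') (by linear_combination hy0) Ld
      h.flip (by linear_combination h1)
    have k3 := k1.flip
    rw [mirS_mirS, sub_sub_cancel] at k3
    refine ⟨mir H q', Lu', Ld', k3, ?_⟩
    rw [Φ.val_flip] at k2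
    rw [← k2, ← Φ.val_flip, mir_mir]

end Pool.Agent.Strip051
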