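import Pool.Agent.Strip051.Weight
import Pool.Agent.StripTwo.S6_Sides

/-! # From the half-plane statements to Molnar's bound -/

namespace Pool.Agent.Strip051

open MeasureTheory Filter Topology Pool.Agent.StripNear Pool.Agent.StripTwo Pool.Agent.StripSquare

/-- The `j`-th half-plane statement for the height function `u`: the total `j`-th weight of the
points of a separated set over a segment of length `L` of the wall is at most `j L + K`. -/
def HalfBound (u : ℝ → ℝ) (j : ℕ) : Prop :=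
  ∃ K : ℝ, ∀ L : ℝ, 0 ≤ L → ∀ X : Finset Pt, UnitSep X →
    (∀ p ∈ X, 0 ≤ p.1 ∧ p.1 ≤ L ∧ 0 ≤ p.2) → ∑ p ∈ X, wt u j p.2 ≤ j * L + K

/-- Upside down. -/
noncomputable def flip (H : ℝ) (p : Pt) : Pt := (p.1, H - p.2)

theorem flip_injective (H : ℝ) : Function.Injective (flip H) := by
  intro p q h
  have h1 := congrArg Prod.fst h
  have h2 := congrArg Prod.snd h
  simp only [flip] at h1 h2
  exact Prod.ext h1 (by linarith)

theorem unitSep_flip {H : ℝ} {X : Finset Pt} (hX : UnitSep X) :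
    UnitSep (X.image (flip H)) := by
  intro p hp q hq hpq
  rw [Finset.mem_image] at hp hq
  obtain ⟨p', hp', rfl⟩ := hp
  obtain ⟨q', hq', rfl⟩ := hq
  have h := hX p' hp' q' hq' (fun e => hpq (by rw [e]))
  simp only [flip]
  nlinarith

theorem sum_flip {H : ℝ} {X : Finset Pt} (f : ℝ → ℝ) :
    ∑ p ∈ X.image (flip H), f p.2 = ∑ p ∈ X, f (H - p.2) := by
  rw [Finset.sum_image fun p _ q _ h => flip_injective H h]
  rfl

/-- Counting. -/
theorem count_of_half {u : ℝ → ℝ} {n : ℕ} {H c : ℝ} (hu : ∀ z, 0 ≤ z → 0 ≤ u z)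
    (hw : ∀ z, 0 ≤ z → z ≤ H → u z + u (H - z) ≤ n + 2 - 2 * c)
    (hh : ∀ j ∈ Finset.range (n + 1), HalfBound u (j + 1)) :
    ∃ K : ℝ, ∀ L : ℝ, 0 ≤ L → ∀ X : Finset Pt, UnitSep X → (∀ p ∈ X, 0 ≤ p.1 ∧ p.1 ≤ L) →
      InStrip H X → (n + 2 * c) * X.card ≤ (n + 1) * (n + 2) * L + K := by
  choose! K hK using hh
  refine ⟨∑ j ∈ Finset.range (n + 1), 2 * K j, fun L hL X hX hXL hXH => ?_⟩
  have h1 : ∑ p ∈ X, (n + 2 * c) ≤
      ∑ p ∈ X, ∑ j ∈ Finset.range (n + 1), (wt u (j + 1) p.2 + wt u (j + 1) (H - p.2)) :=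
    Finset.sum_le_sum fun p hp => le_sum_wt hu hw (hXH p hp).1 (hXH p hp).2
  rw [Finset.sum_const, nsmul_eq_mul, mul_comm, Finset.sum_comm] at h1
  refine h1.trans ?_
  have h2 : ∀ j ∈ Finset.range (n + 1),
      ∑ p ∈ X, (wt u (j + 1) p.2 + wt u (j + 1) (H - p.2)) ≤
        2 * (((j : ℝ) + 1) * L) + 2 * K j := by
    intro j hj
    have a1 := hK j hj L hL X hX fun p hp => ⟨(hXL p hp).1, (hXL p hp).2, (hXH p hp).1⟩
    have a2 := hK j hj L hL (X.image (flip H)) (unitSep_flip hX) (by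
      intro p hp
      rw [Finset.mem_image] at hp
      obtain ⟨q, hq, rfl⟩ := hp
      exact ⟨(hXL q hq).1, (hXL q hq).2, sub_nonneg.2 (hXH q hq).2⟩)
    rw [sum_flip (fun z => wt u (j + 1) z)] at a2
    rw [Finset.sum_add_distrib]
    push_cast at a1 a2
    linarith
  refine (Finset.sum_le_sum h2).trans (le_of_eq ?_)
  rw [Finset.sum_add_distrib, ← Finset.mul_sum, ← Finset.sum_mul, Finset.sum_add_distrib]
  congr 1
  have h3 : ∑ j ∈ Finset.range (n + 1), (j : ℝ) + ∑ j ∈ Finset.range (n + 1), (1 : ℝ) =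
      (n + 1) * (n + 2) / 2 := by
    have := Finset.sum_range_id_mul_two (n + 1)
    have h4 : (∑ j ∈ Finset.range (n + 1), (j : ℝ)) * 2 = (n + 1) * n := by
      have h5 := congrArg (Nat.cast (R := ℝ)) this
      push_cast at h5
      simpa using h5
    rw [Finset.sum_const, Finset.card_range]
    simp only [nsmul_eq_mul, mul_one]
    push_cast
    linarith
  rw [h3]
  ring

/-- **Reduction.**  Let `w ≥ 2`, `n = rowNumber w` and `c = √(1 - s²)`, where
`(w - 2) / 2 = n h0 + s`.  If `u` is a height function with `u y + u (H - y) ≤ n + 2 - 2 c` for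
which the first `n + 1` half-plane statements hold, then every packing of unit discs in the strip
of width `w` with density `d` satisfies `d ≤ molnar w`. -/
theorem molnar_of_half {w : ℝ} (hw2 : 2 ≤ w) {u : ℝ → ℝ} (hu : ∀ z, 0 ≤ z → 0 ≤ u z)
    (hw : ∀ z, 0 ≤ z → z ≤ (w - 2) / 2 →
      u z + u ((w - 2) / 2 - z) ≤ rowNumber w + 2 - 2 * StripSquare.g ((w - 2) / 2 - rowNumber w * h0))
    (hh : ∀ j ∈ Finset.range (rowNumber w + 1), HalfBound u (j + 1))
    {C : Set E2} (hC : IsStripPacking w C) {O : E2} {d : ℝ} (hd : HasDensity w C O d) :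
    d ≤ molnar w := by
  have h3 : 0 < √3 := Real.sqrt_pos.2 (by norm_num)
  set n := rowNumber w with hn
  have hn0 : (0 : ℝ) ≤ n := Nat.cast_nonneg n
  have hq : 0 ≤ (w - 2) / √3 := div_nonneg (by linarith) h3.le
  have hlo : (n : ℝ) * √3 ≤ w - 2 := by
    have h : (n : ℝ) ≤ (w - 2) / √3 := Nat.floor_le hq
    rwa [le_div_iff₀ h3] at h
  have hhi : w - 2 < ((n : ℝ) + 1) * √3 := by
    have h : (w - 2) / √3 < (n : ℝ) + 1 := Nat.lt_floor_add_one _
    rwa [div_lt_iff₀ h3] at h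
  set s : ℝ := (w - 2) / 2 - n * h0 with hs
  have hs0 : 0 ≤ s := by
    rw [hs]
    unfold h0
    linarith
  have hs1 : s < h0 := by
    rw [hs]
    unfold h0
    linarith
  have h4 : 0 < (n : ℝ) + 2 * StripSquare.g s := by
    have : 1 / 2 < StripSquare.g s := by
      unfold StripSquare.g
      rw [Real.lt_sqrt (by norm_num)]
      nlinarith [h0_sq]
    linarith
  obtain ⟨K, hK⟩ := count_of_half hu hw hh
  have h1 := density_le (w := w) (m := ((n : ℝ) + 1) * (n + 2) / (n + 2 * StripSquare.g s))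
    (C0 := K / (n + 2 * StripSquare.g s)) hw2
    (fun L hL X hX hXL hXH => by
      have := hK L hL X hX hXL hXH
      rw [div_mul_eq_mul_div, ← add_div, le_div_iff₀ h4]
      linarith) hC hd
  refine h1.trans (le_of_eq ?_)
  unfold molnar
  rw [← hn]
  have e : √(4 - (w - 2 - √3 * n) ^ 2) = 2 * StripSquare.g s := by
    unfold StripSquare.g
    rw [show 4 - (w - 2 - √3 * n) ^ 2 = 2 ^ 2 * (1 - s ^ 2) by rw [hs]; unfold h0; ring,
      Real.sqrt_mul (by norm_num), Real.sqrt_sq (by norm_num)]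
  rw [e]
  field_simp

/-- The same for the universal height function. -/
theorem molnar_of_uw {w : ℝ} (hw2 : 2 ≤ w) (hh : ∀ j : ℕ, 1 ≤ j → HalfBound uw j)
    {C : Set E2} (hC : IsStripPacking w C) {O : E2} {d : ℝ} (hd : HasDensity w C O d) :
    d ≤ molnar w := by
  have h3 : 0 < √3 := Real.sqrt_pos.2 (by norm_num)
  have hq : 0 ≤ (w - 2) / √3 := div_nonneg (by linarith) h3.le
  have hlo : (rowNumber w : ℝ) * √3 ≤ w - 2 := by
    have h : (rowNumber w : ℝ) ≤ (w - 2) / √3 := Nat.floor_le hq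
    rwa [le_div_iff₀ h3] at h
  have hhi : w - 2 < ((rowNumber w : ℝ) + 1) * √3 := by
    have h : (w - 2) / √3 < (rowNumber w : ℝ) + 1 := Nat.lt_floor_add_one _
    rwa [div_lt_iff₀ h3] at h
  refine molnar_of_half hw2 (u := uw) (fun z hz => uw_nonneg hz) (fun z _ _ => ?_)
    (fun j _ => hh (j + 1) (by omega)) hC hd
  have h1 : 0 ≤ (w - 2) / 2 - rowNumber w * h0 := by
    unfold h0
    linarith
  have h2 : (w - 2) / 2 - rowNumber w * h0 < h0 := by
    unfold h0
    linarith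
  have := uw_walls (n := rowNumber w) (y := z) h1 h2
  rwa [show (rowNumber w : ℝ) * h0 + ((w - 2) / 2 - rowNumber w * h0) - z = (w - 2) / 2 - z by
    ring] at this

/-- The summed half-plane statement of depth `J`: the total weight `(J - u)⁺` of the points of a
separated set over a segment of length `L` of the wall is at most `J (J + 1) / 2 * L + K`. -/
def SumBound (u : ℝ → ℝ) (J : ℕ) : Prop :=
  ∃ K : ℝ, ∀ L : ℝ, 0 ≤ L → ∀ X : Finset Pt, UnitSep X →
    (∀ p ∈ X, 0 ≤ p.1 ∧ p.1 ≤ L ∧ 0 ≤ p.2) →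
      ∑ p ∈ X, max 0 (J - u p.2) ≤ (J : ℝ) * (J + 1) / 2 * L + K

/-- Counting from the summed statement of depth `n + 1`, used from both walls. -/
theorem count_of_sum {u : ℝ → ℝ} {n : ℕ} {H c : ℝ}
    (hw : ∀ z, 0 ≤ z → z ≤ H → u z + u (H - z) ≤ n + 2 - 2 * c) (hh : SumBound u (n + 1)) :
    ∃ K : ℝ, ∀ L : ℝ, 0 ≤ L → ∀ X : Finset Pt, UnitSep X → (∀ p ∈ X, 0 ≤ p.1 ∧ p.1 ≤ L) →
      InStrip H X → (n + 2 * c) * X.card ≤ (n + 1) * (n + 2) * L + K := by
  obtain ⟨K, hK⟩ := hh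
  refine ⟨2 * K, fun L hL X hX hXL hXH => ?_⟩
  have a1 := hK L hL X hX fun p hp => ⟨(hXL p hp).1, (hXL p hp).2, (hXH p hp).1⟩
  have a2 := hK L hL (X.image (flip H)) (unitSep_flip hX) (by
    intro p hp
    rw [Finset.mem_image] at hp
    obtain ⟨q, hq, rfl⟩ := hp
    exact ⟨(hXL q hq).1, (hXL q hq).2, sub_nonneg.2 (hXH q hq).2⟩)
  rw [sum_flip (fun z => max 0 (((n + 1 : ℕ) : ℝ) - u z))] at a2
  have h1 : ∑ p ∈ X, (n + 2 * c) ≤
      ∑ p ∈ X, (max 0 (((n + 1 : ℕ) : ℝ) - u p.2) + max 0 (((n + 1 : ℕ) : ℝ) - u (H - p.2))) := by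
    refine Finset.sum_le_sum fun p hp => ?_
    have e1 := hw p.2 (hXH p hp).1 (hXH p hp).2
    have e2 := le_max_right 0 (((n + 1 : ℕ) : ℝ) - u p.2)
    have e3 := le_max_right 0 (((n + 1 : ℕ) : ℝ) - u (H - p.2))
    push_cast at *
    linarith
  rw [Finset.sum_const, nsmul_eq_mul, mul_comm, Finset.sum_add_distrib] at h1
  push_cast at *
  linarith

/-- Facts on the width. -/
theorem width_facts {w : ℝ} (hw2 : 2 ≤ w) :
    0 ≤ (w - 2) / 2 - rowNumber w * h0 ∧ (w - 2) / 2 - rowNumber w * h0 < h0 := by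
  have h3 : 0 < √3 := Real.sqrt_pos.2 (by norm_num)
  have hq : 0 ≤ (w - 2) / √3 := div_nonneg (by linarith) h3.le
  have hlo : (rowNumber w : ℝ) * √3 ≤ w - 2 := by
    have h : (rowNumber w : ℝ) ≤ (w - 2) / √3 := Nat.floor_le hq
    rwa [le_div_iff₀ h3] at h
  have hhi : w - 2 < ((rowNumber w : ℝ) + 1) * √3 := by
    have h : (w - 2) / √3 < (rowNumber w : ℝ) + 1 := Nat.lt_floor_add_one _
    rwa [div_lt_iff₀ h3] at h
  unfold h0
  constructor <;> linarith

/-- From a linear count in the strip to Molnar's density bound, one width. -/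
theorem molnar_of_count {w : ℝ} (hw2 : 2 ≤ w)
    (hh : ∃ K : ℝ, ∀ L : ℝ, 0 ≤ L → ∀ X : Finset Pt, UnitSep X → (∀ p ∈ X, 0 ≤ p.1 ∧ p.1 ≤ L) →
      InStrip ((w - 2) / 2) X →
        (rowNumber w + 2 * StripSquare.g ((w - 2) / 2 - rowNumber w * h0)) * X.card ≤
          (rowNumber w + 1) * (rowNumber w + 2) * L + K)
    {C : Set E2} (hC : IsStripPacking w C) {O : E2} {d : ℝ} (hd : HasDensity w C O d) :
    d ≤ molnar w := by
  set n := rowNumber w with hn
  have hn0 : (0 : ℝ) ≤ n := Nat.cast_nonneg n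
  obtain ⟨hs0, hs1⟩ := width_facts hw2
  rw [← hn] at hs0 hs1
  set s : ℝ := (w - 2) / 2 - n * h0 with hs
  have h4 : 0 < (n : ℝ) + 2 * StripSquare.g s := by
    have : 1 / 2 < StripSquare.g s := by
      unfold StripSquare.g
      rw [Real.lt_sqrt (by norm_num)]
      nlinarith [h0_sq]
    linarith
  obtain ⟨K, hK⟩ := hh
  have h1 := density_le (w := w) (m := ((n : ℝ) + 1) * (n + 2) / (n + 2 * StripSquare.g s))
    (C0 := K / (n + 2 * StripSquare.g s)) hw2
    (fun L hL X hX hXL hXH => by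
      have := hK L hL X hX hXL hXH
      rw [div_mul_eq_mul_div, ← add_div, le_div_iff₀ h4]
      linarith) hC hd
  refine h1.trans (le_of_eq ?_)
  unfold molnar
  rw [← hn]
  have e : √(4 - (w - 2 - √3 * n) ^ 2) = 2 * StripSquare.g s := by
    unfold StripSquare.g
    rw [show 4 - (w - 2 - √3 * n) ^ 2 = 2 ^ 2 * (1 - s ^ 2) by rw [hs]; unfold h0; ring,
      Real.sqrt_mul (by norm_num), Real.sqrt_sq (by norm_num)]
  rw [e]
  field_simp

/-- The reduction to the summed half-plane statement of depth `n + 1`. -/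
theorem molnar_of_sum {w : ℝ} (hw2 : 2 ≤ w) {u : ℝ → ℝ}
    (hw : ∀ z, 0 ≤ z → z ≤ (w - 2) / 2 → u z + u ((w - 2) / 2 - z) ≤
      rowNumber w + 2 - 2 * StripSquare.g ((w - 2) / 2 - rowNumber w * h0))
    (hh : SumBound u (rowNumber w + 1))
    {C : Set E2} (hC : IsStripPacking w C) {O : E2} {d : ℝ} (hd : HasDensity w C O d) :
    d ≤ molnar w :=
  molnar_of_count hw2 (count_of_sum hw hh) hC hd

end Pool.Agent.Strip051
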