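import Pool.Agent.Strip051.FrontZip

/-! # Probes

A probe is a function `a` on an interval; its value on a front `f` is the infimum of `f - a`.  The
gain of a probe at an insertion is bounded below by its gain at a comparison front. -/

namespace Pool.Agent.Strip051

open Pool.Agent.StripNear Pool.Agent.StripSquare

/-- A test body: the function `a` on the interval from `lo` to `hi`. -/
structure Probe where
  /-- the lower end -/
  lo : ℝ
  /-- the upper end -/
  hi : ℝ
  /-- the body -/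
  a : ℝ → ℝ

/-- The probe lies in the strip of height `H` and is bounded above. -/
structure Probe.Ok (j : Probe) (H : ℝ) : Prop where
  lo : 0 ≤ j.lo
  le : j.lo ≤ j.hi
  hi : j.hi ≤ H
  bdd : ∃ A, ∀ z, j.lo ≤ z → z ≤ j.hi → j.a z ≤ A

/-- The value of a probe on a front. -/
noncomputable def Probe.val (j : Probe) (f : ℝ → ℝ) : ℝ :=
  sInf ((fun z => f z - j.a z) '' Set.Icc j.lo j.hi)

theorem Probe.le_val {j : Probe} {H : ℝ} (hj : j.Ok H) {f : ℝ → ℝ} {v : ℝ}
    (h : ∀ z, j.lo ≤ z → z ≤ j.hi → j.a z + v ≤ f z) : v ≤ j.val f := by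
  apply le_csInf
  · exact ⟨_, ⟨j.lo, ⟨le_rfl, hj.le⟩, rfl⟩⟩
  · rintro _ ⟨z, hz, rfl⟩
    have := h z hz.1 hz.2
    simp only
    linear_combination this

theorem Probe.val_le {j : Probe} {H : ℝ} (hj : j.Ok H) {f : ℝ → ℝ} {m : ℝ} (hm : ∀ z, m ≤ f z)
    {z : ℝ} (h1 : j.lo ≤ z) (h2 : z ≤ j.hi) : j.val f ≤ f z - j.a z := by
  obtain ⟨A, hA⟩ := hj.bdd
  apply csInf_le
  · refine ⟨m - A, ?_⟩
    rintro _ ⟨z, hz, rfl⟩
    have := hA z hz.1 hz.2
    have := hm z
    simp only
    linear_combination this + (‹j.a z ≤ A›)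
  · exact ⟨z, ⟨h1, h2⟩, rfl⟩

theorem Probe.mono {j : Probe} {H : ℝ} (hj : j.Ok H) {f f' : ℝ → ℝ} {m : ℝ} (hm : ∀ z, m ≤ f z)
    (h : ∀ z, 0 ≤ z → z ≤ H → f z ≤ f' z) : j.val f ≤ j.val f' := by
  apply Probe.le_val hj
  intro z h1 h2
  have h3 := Probe.val_le hj hm h1 h2
  have h4 := h z (hj.lo.trans h1) (h2.trans hj.hi)
  linear_combination h3 + h4

theorem Probe.shift {j : Probe} {H : ℝ} (hj : j.Ok H) {f : ℝ → ℝ} {m x : ℝ} (hm : ∀ z, m ≤ f z) :
    j.val (fun z => f z + x) = j.val f + x := by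
  apply le_antisymm
  · have : j.val (fun z => f z + x) - x ≤ j.val f := by
      apply Probe.le_val hj
      intro z h1 h2
      have h3 := Probe.val_le hj (f := fun z => f z + x) (m := m + x)
        (fun z => by linear_combination (hm z)) h1 h2
      linear_combination h3
    linear_combination this
  · apply Probe.le_val hj
    intro z h1 h2
    have h3 := Probe.val_le hj hm h1 h2
    linear_combination h3

/-- The gain of a probe is at least its gain at a comparison front which is above the front where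
the new disc `p` is visible and below it elsewhere. -/
theorem Probe.gain {j : Probe} {H : ℝ} (hj : j.Ok H) {f γ p : ℝ → ℝ} {m : ℝ}
    (hf : ∀ z, m ≤ f z) (hγ : ∀ z, m ≤ γ z)
    (h : ∀ z, 0 ≤ z → z ≤ H → (f z ≤ γ z ∧ γ z ≤ p z) ∨ (γ z ≤ f z ∧ p z ≤ γ z)) :
    j.val (fun z => max (γ z) (p z)) - j.val γ ≤ j.val (fun z => max (f z) (p z)) - j.val f := by
  have key : ∀ z1, j.lo ≤ z1 → z1 ≤ j.hi → ∀ z2, j.lo ≤ z2 → z2 ≤ j.hi →
      j.val (fun z => max (γ z) (p z)) + j.val f ≤
        (max (f z1) (p z1) - j.a z1) + (γ z2 - j.a z2) := by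
    intro z1 a1 b1 z2 a2 b2
    have c1 := Probe.val_le hj (f := fun z => max (γ z) (p z)) (m := m)
      (fun z => (hγ z).trans (le_max_left _ _)) a1 b1
    have c2 := Probe.val_le hj (f := fun z => max (γ z) (p z)) (m := m)
      (fun z => (hγ z).trans (le_max_left _ _)) a2 b2
    have d1 := Probe.val_le hj hf a1 b1
    have d2 := Probe.val_le hj hf a2 b2
    rcases h z1 (hj.lo.trans a1) (b1.trans hj.hi) with ⟨e1, e2⟩ | ⟨e1, e2⟩
    · rw [max_eq_right e2] at c1
      rw [max_eq_right (e1.trans e2)]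
      rcases h z2 (hj.lo.trans a2) (b2.trans hj.hi) with ⟨e3, e4⟩ | ⟨e3, e4⟩
      · linear_combination c1 + d2 + e3
      · rw [max_eq_left e4] at c2
        linear_combination c2 + d1 + e1 + e2
    · rw [max_eq_left e2] at c1
      rw [max_eq_left (e2.trans e1)]
      rcases h z2 (hj.lo.trans a2) (b2.trans hj.hi) with ⟨e3, e4⟩ | ⟨e3, e4⟩
      · linear_combination c1 + d2 + e1 + e3
      · rw [max_eq_left e4] at c2
        linear_combination c2 + d1
  have k1 : ∀ z1, j.lo ≤ z1 → z1 ≤ j.hi → j.val (fun z => max (γ z) (p z)) + j.val f -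
      (max (f z1) (p z1) - j.a z1) ≤ j.val γ := by
    intro z1 a1 b1
    apply Probe.le_val hj
    intro z2 a2 b2
    have := key z1 a1 b1 z2 a2 b2
    linear_combination this
  have k2 : j.val (fun z => max (γ z) (p z)) + j.val f - j.val γ ≤
      j.val (fun z => max (f z) (p z)) := by
    apply Probe.le_val hj
    intro z1 a1 b1
    have := k1 z1 a1 b1
    linear_combination this
  linear_combination k2

/-! ### Fronts with a line -/

/-- `f` is the front of the discs of `S` and of the line `x = m`. -/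
structure Fr (S : Set Pt) (m : ℝ) (f : ℝ → ℝ) : Prop where
  cont : Continuous f
  line : ∀ z, m ≤ f z
  disc : ∀ q ∈ S, ∀ z, arc q z ≤ f z
  eq : ∀ z, f z = m ∨ ∃ q ∈ S, f z = arc q z
  le : ∀ q ∈ S, q.1 ≤ m

theorem Fr.start (m : ℝ) : Fr ∅ m (fun _ => m) :=
  ⟨continuous_const, fun _ => le_rfl, fun q hq => absurd hq (Set.notMem_empty q),
    fun _ => Or.inl rfl, fun q hq => absurd hq (Set.notMem_empty q)⟩

theorem Fr.raise {S : Set Pt} {m m' : ℝ} {f : ℝ → ℝ} (h : Fr S m f) (hm : m ≤ m') :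
    Fr S m' (fun z => max (f z) m') := by
  refine ⟨h.cont.max continuous_const, fun z => le_max_right _ _,
    fun q hq z => (h.disc q hq z).trans (le_max_left _ _), ?_, fun q hq => (h.le q hq).trans hm⟩
  intro z
  rcases le_total (f z) m' with h1 | h1
  · left
    exact max_eq_right h1
  · rcases h.eq z with h2 | ⟨q, hq, h2⟩
    · left
      rw [max_eq_right]
      rw [h2]
      exact hm
    · right
      exact ⟨q, hq, by rw [max_eq_left h1, h2]⟩

theorem Fr.insert {S : Set Pt} {P : Pt} {f : ℝ → ℝ} (h : Fr S P.1 f) :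
    Fr (insert P S) P.1 (fun z => max (f z) (arc P z)) := by
  refine ⟨h.cont.max (arc_cont P), fun z => (h.line z).trans (le_max_left _ _), ?_, ?_, ?_⟩
  · intro q hq z
    rcases Set.mem_insert_iff.1 hq with rfl | hq
    · exact le_max_right _ _
    · exact (h.disc q hq z).trans (le_max_left _ _)
  · intro z
    rcases le_total (f z) (arc P z) with h1 | h1
    · right
      exact ⟨P, Set.mem_insert _ _, max_eq_right h1⟩
    · rw [max_eq_left h1]
      rcases h.eq z with h2 | ⟨q, hq, h2⟩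
      · exact Or.inl h2
      · exact Or.inr ⟨q, Set.mem_insert_of_mem _ hq, h2⟩
  · intro q hq
    rcases Set.mem_insert_iff.1 hq with rfl | hq
    · exact le_rfl
    · exact h.le q hq

theorem Fr.mirror {S : Set Pt} {m : ℝ} {f : ℝ → ℝ} (h : Fr S m f) (H : ℝ) :
    Fr (mirS H S) m (fun z => f (H - z)) := by
  refine ⟨h.cont.comp (by fun_prop), fun z => h.line _, ?_, ?_, fun q hq => h.le (mir H q) hq⟩
  · intro q hq z
    have := h.disc _ hq (H - z)
    rwa [arc_mir, sub_sub_cancel] at this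
  · intro z
    rcases h.eq (H - z) with h1 | ⟨q, hq, h1⟩
    · exact Or.inl h1
    · exact Or.inr ⟨mir H q, mir_mem hq, by rw [arc_mir]; exact h1⟩

theorem g_far {r : ℝ} (h : 1 ≤ |r|) : g r = 0 := by
  unfold g
  apply Real.sqrt_eq_zero_of_nonpos
  have : 1 ≤ r ^ 2 := by
    rw [← sq_abs]
    linear_combination 2 * h + (mul_nonneg (sub_nonneg.mpr h) (sub_nonneg.mpr h))
  linear_combination this




end Pool.Agent.Strip051
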