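import Pool.Agent.Strip051.Probe
import Pool.Agent.Strip051.FrontIns

/-! # The comparison front

Above the new point `P` the old front is compared with the disc of one virtual point `u` at
distance one from `P`. -/

namespace Pool.Agent.Strip051

open Pool.Agent.StripNear Pool.Agent.StripSquare

/-- The virtual disc `r` above the new point, seen at the height `v` above the new point. -/
noncomputable def vir (r v : ℝ) : ℝ := max 0 (g (v - r) - g r)

/-- The height of the exit above the new point. -/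
noncomputable def ext (r : ℝ) : ℝ := r / 2 + h0 * g r

/-- Admissible heights `r` of the virtual disc, the wall is at distance `d`. -/
def Adm (d r : ℝ) : Prop :=
  (1 / 2 ≤ r ∧ r ≤ 1 ∧ r ≤ d ∧ ext r ≤ d) ∨ (r = d ∧ 0 ≤ d ∧ d < h0)

theorem vir_nonneg (r v : ℝ) : 0 ≤ vir r v := le_max_left _ _

theorem vir_zero (r : ℝ) : vir r 0 = 0 := by
  unfold vir
  rw [zero_sub, g_neg, sub_self, max_self]

theorem vir_arc (P : Pt) (r z : ℝ) :
    P.1 + vir r (z - P.2) = max P.1 (arc (P.1 - g r, P.2 + r) z) := by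
  unfold vir arc
  rw [← max_add_add_left, add_zero]
  congr 1
  simp only
  rw [show z - P.2 - r = z - (P.2 + r) by ring]
  ring

theorem arc_far {q : Pt} {z : ℝ} (h : 1 ≤ |z - q.2|) : arc q z = q.1 := by
  unfold arc
  rw [g_far h, add_zero]

/-- The heights `r` and `t` of the virtual disc and of the exit. -/
theorem ext_spec {t : ℝ} (h1 : 1 / 2 ≤ t) (h2 : t ≤ 1) :
    0 ≤ h0 * t - g t / 2 ∧ (t / 2 + h0 * g t) ^ 2 + (h0 * t - g t / 2) ^ 2 = 1 ∧
      g (t / 2 + h0 * g t) = h0 * t - g t / 2 ∧ ext (t / 2 + h0 * g t) = t ∧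
      1 / 2 ≤ t / 2 + h0 * g t ∧ t / 2 + h0 * g t ≤ 1 := by
  have hs := h0_sq
  have hp := h0_pos
  have hg := g_nonneg t
  have hq := g_sq (r := t) (by linear_combination (3 / 2) * h2 + (mul_nonneg (sub_nonneg.mpr h1) (sub_nonneg.mpr h2)))
  have a1 : g t ≤ h0 := by
    have : g t ^ 2 ≤ h0 ^ 2 := by linear_combination h1 - hs + hq + (mul_nonneg (sub_nonneg.mpr h1) (sub_nonneg.mpr h1))
    exact abs_le_of_sq_le_sq' this hp.le |>.2
  have a2 : 0 ≤ h0 * t - g t / 2 := by linear_combination (1 / 2) * a1 + (mul_nonneg (sub_nonneg.mpr h1) (sub_nonneg.mpr (le_of_lt hp)))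
  have a3 : (t / 2 + h0 * g t) ^ 2 + (h0 * t - g t / 2) ^ 2 = 1 := by
    have : (t / 2 + h0 * g t) ^ 2 + (h0 * t - g t / 2) ^ 2 =
      (1 / 4 + h0 ^ 2) * (t ^ 2 + g t ^ 2) := by ring
    rw [this, hq, hs]
    ring
  have a4 : g (t / 2 + h0 * g t) = h0 * t - g t / 2 := by
    unfold g at *
    rw [show 1 - (t / 2 + h0 * √(1 - t ^ 2)) ^ 2 = (h0 * t - √(1 - t ^ 2) / 2) ^ 2 by linear_combination -a3,
      Real.sqrt_sq a2]
  refine ⟨a2, a3, a4, ?_, ?_, ?_⟩
  · unfold ext
    rw [a4]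
    have : (t / 2 + h0 * g t) / 2 + h0 * (h0 * t - g t / 2) = t / 4 + h0 ^ 2 * t := by ring
    rw [this, hs]
    ring
  · have b1 : h0 ≥ 1 / 2 := by exact not_lt.mp (fun hg__ => absurd hg__ (not_lt.mpr (by linear_combination -2 * hs + 2 * (mul_pos (sub_pos.mpr hg__) (sub_pos.mpr hp)))))
    have b2 : 1 ≤ t + g t := by exact not_lt.mp (fun hg__ => absurd hg (not_le.mpr (by linear_combination (3 / 2) * hg__ - hq + (mul_nonneg (sub_nonneg.mpr h1) (sub_nonneg.mpr h2)) + (mul_nonneg (sub_nonneg.mpr h1) (sub_nonneg.mpr hg)) + (mul_nonneg (sub_nonneg.mpr (le_of_lt hg__)) (sub_nonneg.mpr hg)))))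
    linear_combination (mul_nonneg (sub_nonneg.mpr h2) (sub_nonneg.mpr b1)) + (mul_nonneg (sub_nonneg.mpr (le_of_lt hp)) (sub_nonneg.mpr b2))
  · linear_combination (1 / 2) * hs + (1 / 2) * hq + (1 / 2) * (mul_nonneg (sub_nonneg.mpr h1) (sub_nonneg.mpr h1)) +
    (1 / 2) * (mul_nonneg (sub_nonneg.mpr a1) (sub_nonneg.mpr a1))

/-- The arcs of the virtual disc and of the new disc meet at the exit. -/
theorem ext_meet {t : ℝ} (h1 : 1 / 2 ≤ t) (h2 : t ≤ 1) :
    g (t - (t / 2 + h0 * g t)) - g (t / 2 + h0 * g t) = g t := by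
  obtain ⟨a2, a3, a4, -⟩ := ext_spec h1 h2
  have hs := h0_sq
  have hp := h0_pos
  have hg := g_nonneg t
  have hq := g_sq (r := t) (by linear_combination (3 / 2) * h2 + (mul_nonneg (sub_nonneg.mpr h1) (sub_nonneg.mpr h2)))
  have b1 : g (t - (t / 2 + h0 * g t)) = h0 * t + g t / 2 := by
    have c1 : 1 - (t - (t / 2 + h0 * g t)) ^ 2 = (h0 * t + g t / 2) ^ 2 := by
      have : (t - (t / 2 + h0 * g t)) ^ 2 + (h0 * t + g t / 2) ^ 2 =
        (1 / 4 + h0 ^ 2) * (t ^ 2 + g t ^ 2) := by ring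
      rw [hq, hs] at this
      linear_combination -a3
    have c2 : g (t - (t / 2 + h0 * g t)) = √(1 - (t - (t / 2 + h0 * g t)) ^ 2) := rfl
    rw [c2, c1, Real.sqrt_sq (by positivity)]
  rw [b1, a4]
  ring

/-- An old disc through the exit is at least as high as the virtual disc. -/
theorem exit_disc {P q : Pt} {t : ℝ} (ht0 : 0 < t) (ht1 : t < 1) (hx : q.1 ≤ P.1)
    (hs : Sep P q) (he : arc q (P.2 + t) = P.1 + g t) :
    1 / 2 ≤ t ∧ t / 2 + h0 * g t ≤ q.2 - P.2 := by
  have hh := h0_sq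
  have hp := h0_pos
  have hq := g_sq (r := t) (by linear_combination ht1 + (mul_pos (sub_pos.mpr ht0) (sub_pos.mpr ht1)))
  have hg : 0 < g t := by
    unfold g
    exact Real.sqrt_pos.2 (by linear_combination ht1 + (mul_pos (sub_pos.mpr ht0) (sub_pos.mpr ht1)))
  set G := g t with hG
  have h1 : |P.2 + t - q.2| < 1 := by
    by_contra h
    rw [arc_far (not_lt.1 h)] at he
    exact absurd hg (not_lt.mpr (by linear_combination hx - he))
  rw [abs_lt] at h1
  have h2 := g_sq (r := P.2 + t - q.2) (by linear_combination (mul_pos (sub_pos.mpr h1.1) (sub_pos.mpr h1.2)))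
  have h3 : g (P.2 + t - q.2) = P.1 - q.1 + G := by
    unfold arc at he
    linear_combination he
  rw [h3] at h2
  set a := P.1 - q.1 with ha
  set w := q.2 - P.2 with hw
  have ha0 : 0 ≤ a := by linear_combination hx
  have h4 : (a + G) ^ 2 + (t - w) ^ 2 = 1 := by
    have : P.2 + t - q.2 = t - w := by
      rw [hw]
      ring
    rw [this] at h2
    linear_combination h2
  have h5 : 1 ≤ a ^ 2 + w ^ 2 := by
    unfold Sep at hs
    have : (P.2 - q.2) ^ 2 = w ^ 2 := by
      rw [hw]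
      ring
    linear_combination hs
  have h6 : 1 / 2 ≤ t * w - a * G := by linear_combination -(1 / 2) * hq + (1 / 2) * h2 + (1 / 2) * h5
  have h7 : w ≤ 2 * t := by
    have : (t - w) ^ 2 ≤ t ^ 2 := by linear_combination (sq_nonneg (a)) + 2 * (mul_nonneg ha0 hg.le) - hq + h2
    have := abs_le_of_sq_le_sq' this ht0.le
    linear_combination this.1
  have h8 : 1 / 2 ≤ t := by exact not_lt.mp (fun hg__ => absurd h5 (not_le.mpr (by linear_combination 2 * hg__ + 2 * (mul_nonneg ha0 hg.le) - hq + h2 + 2 * (mul_nonneg (sub_nonneg.mpr (le_of_lt ht0)) (sub_nonneg.mpr h7)) + 4 * (mul_pos (sub_pos.mpr hg__) (sub_pos.mpr ht0)))))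
  refine ⟨h8, ?_⟩
  by_contra hcon
  push Not at hcon
  -- rotated coordinates
  set C := a + G with hC
  set σ := t / 2 - h0 * G with hσ
  set κ := G / 2 + h0 * t with hκ
  set s := t - w with hs'
  have e1 : C ^ 2 + s ^ 2 = 1 := h4
  have e2 : κ ^ 2 + σ ^ 2 = 1 := by
    have : κ ^ 2 + σ ^ 2 = (1 / 4 + h0 ^ 2) * (t ^ 2 + G ^ 2) := by
      rw [hκ, hσ]
      ring
    rw [this, hq, hh]
    ring
  have e3 : G * C + t * s ≤ 1 / 2 := by
    have : G * C + t * s = (G ^ 2 + t ^ 2) - (t * w - a * G) := by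
      rw [hC, hs']
      ring
    rw [this, hq]
    linear_combination h6
  have e4 : G * κ + t * σ = 1 / 2 := by
    have : G * κ + t * σ = (G ^ 2 + t ^ 2) / 2 := by
      rw [hκ, hσ]
      ring
    rw [this, hq]
    ring
  have X : 0 < s - σ := by
    rw [hs', hσ]
    linear_combination hcon
  have e5 : t * (s - σ) ≤ G * (κ - C) := by linear_combination (1 / 2) * hq + h6
  have e6 : 0 < κ - C := by
    by_contra h
    have : G * (κ - C) ≤ 0 := by linear_combination (mul_nonneg (sub_nonneg.mpr (le_of_lt hg)) (sub_nonneg.mpr (not_lt.mp h)))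
    exact absurd h6 (not_le.mpr (by linear_combination (mul_pos ht0 X) + (1 / 2) * hq + this))
  have e7 : (κ - C) * (κ + C) = (s - σ) * (s + σ) := by linear_combination -h2 + e2
  have hκ0 : 0 ≤ κ := by
    rw [hκ]
    positivity
  have hC0 : G ≤ C := by
    rw [hC]
    linear_combination hx
  have e8 : t * (κ + C) ≤ G * (s + σ) := by
    have h9 : (s - σ) * (t * (κ + C)) ≤ (s - σ) * (G * (s + σ)) := by
      calc (s - σ) * (t * (κ + C)) = (t * (s - σ)) * (κ + C) := by ring
        _ ≤ (G * (κ - C)) * (κ + C) := mul_le_mul_of_nonneg_right e5 (by linear_combination 2 * hx + 2 * hg + e6)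
        _ = G * ((κ - C) * (κ + C)) := by ring
        _ = (s - σ) * (G * (s + σ)) := by rw [e7]; ring
    exact le_of_mul_le_mul_left h9 X
  have e9 : t * κ - G * σ = h0 := by
    have : t * κ - G * σ = h0 * (t ^ 2 + G ^ 2) := by
      rw [hκ, hσ]
      ring
    rw [this, hq]
    ring
  have e10 : t * C + h0 ≤ G * s := by linear_combination e8 - e9
  have e11 : t * G ≤ t * C := mul_le_mul_of_nonneg_left hC0 ht0.le
  have e12 : 0 < w := by linear_combination h6 + h8 + (mul_pos (sub_pos.mpr ht0) (sub_pos.mpr ht1)) + (mul_pos (sub_pos.mpr ht1) (sub_pos.mpr h1.2)) +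
    (mul_nonneg (sub_nonneg.mpr hx) (sub_nonneg.mpr (le_of_lt hg)))
  have e13 : G * s = G * t - G * w := by
    rw [hs']
    ring
  exact absurd e8 (not_le.mpr (by linear_combination (mul_pos hg e12) + hp - e9 + e11))

end Pool.Agent.Strip051
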