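import Pool.Agent.Strip051.ProbeUp
import Pool.Agent.Strip051.Reduce
import Pool.Agent.Strip051.FrontBd

/-! # From the insertion inequality for a sum of probes to a counting bound -/

namespace Pool.Agent.Strip051

open Pool.Agent.StripNear Pool.Agent.StripSquare
open Pool.Agent.StripTwo (molnar)

/-- The comparison front: the virtual disc `r` above, the virtual disc `s` below the new point; `v`
is the height relative to the new point. -/
noncomputable def gam (r s v : ℝ) : ℝ := if 0 ≤ v then vir r v else vir s (-v)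

theorem gam_nonneg (r s v : ℝ) : 0 ≤ gam r s v := by
  unfold gam
  split <;> exact vir_nonneg _ _

/-- A finite sum of probes which gains at least one at every insertion. -/
structure ProbeCert (H : ℝ) {ι : Type} [Fintype ι] (c : ι → ℝ) (j : ι → Probe) : Prop where
  pos : ∀ i, 0 ≤ c i
  ok : ∀ i, (j i).Ok H
  gain : ∀ y r s, 0 ≤ y → y ≤ H → Adm (H - y) r → Adm y s →
    1 ≤ ∑ i, c i * ((j i).val (fun z => max (gam r s (z - y)) (g (z - y))) -
      (j i).val (fun z => gam r s (z - y)))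

/-- The potential. -/
noncomputable def pot {ι : Type} [Fintype ι] (c : ι → ℝ) (j : ι → Probe) (f : ℝ → ℝ) : ℝ :=
  ∑ i, c i * (j i).val f

theorem pot_mono {H : ℝ} {ι : Type} [Fintype ι] {c : ι → ℝ} {j : ι → Probe}
    (h : ProbeCert H c j) {f f' : ℝ → ℝ} {m : ℝ} (hm : ∀ z, m ≤ f z)
    (hf : ∀ z, 0 ≤ z → z ≤ H → f z ≤ f' z) : pot c j f ≤ pot c j f' :=
  Finset.sum_le_sum fun i _ => mul_le_mul_of_nonneg_left (Probe.mono (h.ok i) hm hf) (h.pos i)

/-- The comparison on both sides. -/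
theorem two_compare {S : Set Pt} {P : Pt} {f : ℝ → ℝ} {H : ℝ} (hF : Fr S P.1 f)
    (hs : ∀ q ∈ S, 0 ≤ q.2 ∧ q.2 ≤ H) (hsep : ∀ q ∈ S, Sep P q) (hP : 0 ≤ P.2 ∧ P.2 ≤ H) :
    ∃ r s, Adm (H - P.2) r ∧ Adm P.2 s ∧ ∀ z, 0 ≤ z → z ≤ H →
      (f z ≤ P.1 + gam r s (z - P.2) ∧ P.1 + gam r s (z - P.2) ≤ arc P z) ∨
        (P.1 + gam r s (z - P.2) ≤ f z ∧ arc P z ≤ P.1 + gam r s (z - P.2)) := by
  obtain ⟨r, hr, h1⟩ := up_compare hF (fun q hq => (hs q hq).2) hsep hP.2
  obtain ⟨s, hs', h2⟩ := up_compare (P := mir H P) (H := H) (hF.mirror H)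
    (fun q hq => by
      have := (hs _ hq).1
      rw [mir_snd] at this
      linear_combination this)
    (fun q hq => by
      apply sep_mir (H := H)
      rw [mir_mir]
      exact hsep _ hq)
    (by
      rw [mir_snd]
      linear_combination hP.1)
  rw [mir_snd, sub_sub_cancel] at hs'
  refine ⟨r, s, hr, hs', ?_⟩
  intro z hz0 hzH
  unfold gam
  split
  · next h => exact h1 z (by linear_combination h) hzH
  · next h =>
    have h3 := h2 (H - z) (by rw [mir_snd]; linear_combination (not_le.mp h)) (by linear_combination hz0)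
    unfold Cmp at h3
    simp only at h3
    rw [mir_snd, mir_fst, arc_mir, sub_sub_cancel, show H - z - (H - P.2) = -(z - P.2) by ring] at h3
    exact h3

theorem step {H : ℝ} {ι : Type} [Fintype ι] {c : ι → ℝ} {j : ι → Probe} (h : ProbeCert H c j)
    {S : Set Pt} {P : Pt} {m : ℝ} {f : ℝ → ℝ} (hF : Fr S m f) (hm : m ≤ P.1)
    (hs : ∀ q ∈ S, 0 ≤ q.2 ∧ q.2 ≤ H) (hsep : ∀ q ∈ S, Sep P q) (hP : 0 ≤ P.2 ∧ P.2 ≤ H) :
    ∃ f', Fr (insert P S) P.1 f' ∧ pot c j f + 1 ≤ pot c j f' := by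
  have hF1 := hF.raise hm
  set f1 : ℝ → ℝ := fun z => max (f z) P.1 with hf1
  obtain ⟨r, s, hr, hs', h1⟩ := two_compare hF1 hs hsep hP
  refine ⟨_, hF1.insert, ?_⟩
  have h2 : pot c j f ≤ pot c j f1 := pot_mono h hF.line fun z _ _ => le_max_left _ _
  have h3 := h.gain P.2 r s hP.1 hP.2 hr hs'
  have h4 : ∀ i, (j i).val (fun z => max (gam r s (z - P.2)) (g (z - P.2))) -
      (j i).val (fun z => gam r s (z - P.2)) ≤
      (j i).val (fun z => max (f1 z) (arc P z)) - (j i).val f1 := by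
    intro i
    have k1 := Probe.gain (h.ok i) (f := f1) (γ := fun z => P.1 + gam r s (z - P.2))
      (p := arc P) (m := P.1) hF1.line (fun z => by linear_combination (gam_nonneg r s (z - P.2))) h1
    have k2 := Probe.shift (h.ok i) (f := fun z => gam r s (z - P.2)) (m := 0) (x := P.1)
      (fun z => gam_nonneg r s (z - P.2))
    have k3 := Probe.shift (h.ok i) (f := fun z => max (gam r s (z - P.2)) (g (z - P.2)))
      (m := 0) (x := P.1) (fun z => (gam_nonneg r s (z - P.2)).trans (le_max_left _ _))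
    have k4 : (fun z => max (P.1 + gam r s (z - P.2)) (arc P z)) =
        fun z => max (gam r s (z - P.2)) (g (z - P.2)) + P.1 := by
      funext z
      unfold arc
      rw [max_add_add_left, add_comm]
    have k5 : (fun z => P.1 + gam r s (z - P.2)) = fun z => gam r s (z - P.2) + P.1 := by
      funext z
      ring
    rw [k4, k5, k2, k3] at k1
    linear_combination k1
  have h5 : ∑ i, c i * ((j i).val (fun z => max (gam r s (z - P.2)) (g (z - P.2))) -
      (j i).val (fun z => gam r s (z - P.2))) ≤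
      ∑ i, c i * ((j i).val (fun z => max (f1 z) (arc P z)) - (j i).val f1) :=
    Finset.sum_le_sum fun i _ => mul_le_mul_of_nonneg_left (h4 i) (h.pos i)
  have h6 : ∑ i, c i * ((j i).val (fun z => max (f1 z) (arc P z)) - (j i).val f1) =
      pot c j (fun z => max (f1 z) (arc P z)) - pot c j f1 := by
    unfold pot
    rw [← Finset.sum_sub_distrib]
    exact Finset.sum_congr rfl fun i _ => by ring
  linear_combination h2 + h3 + h5 + h6

theorem probe_fold {H : ℝ} {ι : Type} [Fintype ι] {c : ι → ℝ} {j : ι → Probe}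
    (h : ProbeCert H c j) {X : Finset Pt} (hX : UnitSep X) (hXH : InStrip H X)
    (hX0 : ∀ p ∈ X, 0 ≤ p.1) (s : Finset Pt) : (∀ p ∈ s, p ∈ X) →
    ∃ m f, Fr {p | p ∈ s} m f ∧ (m = 0 ∨ ∃ q ∈ s, m = q.1) ∧
      pot c j (fun _ => 0) + s.card ≤ pot c j f := by
  classical
  refine Finset.induction_on_max_value (fun p : Pt => toLex p) s ?_ ?_
  · intro _
    refine ⟨0, fun _ => 0, ?_, Or.inl rfl, by simp⟩
    have h1 := Fr.start 0
    have h2 : {p : Pt | p ∈ (∅ : Finset Pt)} = ∅ := by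
      ext p
      simp
    rw [h2]
    exact h1
  · intro P s hPs hmax ih hsX
    obtain ⟨m, f, h1, h2, h3⟩ := ih fun q hq => hsX q (Finset.mem_insert_of_mem hq)
    have hPX := hsX P (Finset.mem_insert_self _ _)
    have hm : m ≤ P.1 := by
      rcases h2 with h2 | ⟨q, hq, h2⟩
      · rw [h2]
        exact hX0 P hPX
      · rw [h2]
        have h4 := hmax q hq
        rw [Prod.Lex.le_iff] at h4
        rcases h4 with h4 | ⟨h4, -⟩
        · exact h4.le
        · exact h4.le
    obtain ⟨f', k1, k2⟩ := step h h1 hm (fun q hq => hXH q (hsX q (Finset.mem_insert_of_mem hq)))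
      (fun q hq => hX P hPX q (hsX q (Finset.mem_insert_of_mem hq)) fun e => hPs (by rw [e]; exact hq))
      (hXH P hPX)
    refine ⟨P.1, f', ?_, Or.inr ⟨P, Finset.mem_insert_self _ _, rfl⟩, ?_⟩
    · have h5 : {p : Pt | p ∈ insert P s} = insert P {p : Pt | p ∈ s} := by
        ext p
        simp
      rw [h5]
      exact k1
    · rw [Finset.card_insert_of_notMem hPs]
      push_cast
      linear_combination h3 + k2

/-- From the insertion inequality to the bound for the number of points. -/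
theorem probe_machine {H : ℝ} {ι : Type} [Fintype ι] {c : ι → ℝ} {j : ι → Probe}
    (h : ProbeCert H c j) :
    ∃ C0 : ℝ, ∀ L : ℝ, 0 ≤ L → ∀ X : Finset Pt, UnitSep X → InStrip H X →
      (∀ p ∈ X, 0 ≤ p.1 ∧ p.1 ≤ L) → (X.card : ℝ) ≤ (∑ i, c i) * L + C0 := by
  refine ⟨∑ i, c i * (1 - (j i).a (j i).lo) - pot c j (fun _ => 0), ?_⟩
  intro L hL X hX hXH hXL
  obtain ⟨m, f, h1, h2, h3⟩ := probe_fold h hX hXH (fun p hp => (hXL p hp).1) X fun p hp => hp
  have hf : ∀ z, f z ≤ L + 1 := by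
    intro z
    rcases h1.eq z with h4 | ⟨q, hq, h4⟩
    · rw [h4]
      rcases h2 with h2 | ⟨q, hq, h2⟩
      · linear_combination hL + h2
      · rw [h2]
        linear_combination ((hXL q hq).2)
    · rw [h4]
      linear_combination (arc_le q z) + ((hXL q hq).2)
  have h4 : pot c j f ≤ ∑ i, c i * (L + 1 - (j i).a (j i).lo) := by
    apply Finset.sum_le_sum
    intro i _
    apply mul_le_mul_of_nonneg_left _ (h.pos i)
    have h5 := Probe.val_le (h.ok i) h1.line le_rfl (h.ok i).le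
    linear_combination (hf (j i).lo) + h5
  have h5 : ∑ i, c i * (L + 1 - (j i).a (j i).lo) =
      (∑ i, c i) * L + ∑ i, c i * (1 - (j i).a (j i).lo) := by
    rw [Finset.sum_mul, ← Finset.sum_add_distrib]
    exact Finset.sum_congr rfl fun i _ => by ring
  linear_combination h3 + h4 + h5

theorem countBound_of_probe {n : ℕ} {s : ℝ} (hs0 : 0 ≤ s) (hs1 : s < h0) {ι : Type} [Fintype ι]
    {c : ι → ℝ} {j : ι → Probe} (h : ProbeCert (n * h0 + s) c j)
    (hρ : (∑ i, c i) * (n + 2 * g s) ≤ (n + 1) * (n + 2)) : CountBound n s := by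
  obtain ⟨C0, hC0⟩ := probe_machine h
  refine countBound_of_sum (W := fun _ => 1) (ρ := ∑ i, c i) (C0 := C0) hs0 hs1 hρ
    (fun _ _ _ => le_rfl) ?_
  intro L hL X hX hXH hXL
  have := hC0 L hL X hX hXH hXL
  simpa using this

/-- Molnar's bound for the widths between `2 + n √3` and `2 + (n + 1) √3`, from sums of probes. -/
theorem molnar_of_probe {n : ℕ}
    (h : ∀ s : ℝ, 0 ≤ s → s < h0 → ∃ (ι : Type) (_ : Fintype ι) (c : ι → ℝ) (j : ι → Probe),
      ProbeCert (n * h0 + s) c j ∧ (∑ i, c i) * (n + 2 * g s) ≤ (n + 1) * (n + 2))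
    {w : ℝ} (hw : 2 + n * Real.sqrt 3 ≤ w) (hw' : w < 2 + (n + 1) * Real.sqrt 3) {C : Set E2}
    (hC : IsStripPacking w C) {O : E2} {d : ℝ} (hd : HasDensity w C O d) : d ≤ molnar w := by
  have h3 : 0 < Real.sqrt 3 := Real.sqrt_pos.2 (by norm_num)
  have hn : (0 : ℝ) ≤ n := Nat.cast_nonneg n
  have hw2 : 2 ≤ w := by linear_combination hw + (mul_nonneg (sub_nonneg.mpr hw) (sub_nonneg.mpr hn)) + (mul_nonneg (sub_nonneg.mpr (le_of_lt hw')) (sub_nonneg.mpr hn))
  have hr : StripTwo.rowNumber w = n := by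
    unfold StripTwo.rowNumber
    rw [Nat.floor_eq_iff (div_nonneg (by linear_combination hw2) h3.le), le_div_iff₀ h3, div_lt_iff₀ h3]
    constructor <;> linarith
  obtain ⟨r0, r1, -⟩ := rest_spec hw2
  apply le_molnar_of_count hw2 _ hC hd
  rw [hr]
  obtain ⟨ι, hι, c, j, k1, k2⟩ := h (rest w) r0 r1
  exact countBound_of_probe r0 r1 k1 k2

end Pool.Agent.Strip051
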