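import Pool.Agent.StripSquare.Arc

/-! # The weights of the half-plane statements

For a height function `u` the `j`-th weight of a point at height `y` is
`min 1 (max 0 (j - u y))`.  The universal height function is `uw = -2 v`:
`uw (k h0 + s) = k + 2 (1 - √(1 - s²))` for `0 ≤ s < h0`. -/

namespace Pool.Agent.Strip051

open Pool.Agent.StripNear Pool.Agent.StripSquare

/-- `v` is subadditive. -/
theorem v_subadd (y z : ℝ) : v (y + z) ≤ v y + v z := by
  have e : y + z = (y + phase z) + (row z) * h0 := by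
    unfold phase
    ring
  have h1 := v_add (y := y) (phase_nonneg z) (phase_lt z).le
  have h2 := v_add_int (y + phase z) (row z)
  rw [← e] at h2
  have h3 : v z = g (phase z) - 1 - row z / 2 := rfl
  linarith

/-- The universal height function. -/
noncomputable def uw (y : ℝ) : ℝ := -2 * v y

theorem uw_zero : uw 0 = 0 := by
  unfold uw
  rw [v_zero]
  simp

theorem uw_mono {y z : ℝ} (h : y ≤ z) : uw y ≤ uw z := by
  unfold uw
  linarith [v_anti h]

theorem uw_nonneg {y : ℝ} (h : 0 ≤ y) : 0 ≤ uw y := by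
  have := uw_mono h
  rwa [uw_zero] at this

/-- Superadditivity. -/
theorem uw_superadd (y z : ℝ) : uw y + uw z ≤ uw (y + z) := by
  unfold uw
  linarith [v_subadd y z]

theorem uw_add_int (y : ℝ) (m : ℤ) : uw (y + m * h0) = uw y + m := by
  unfold uw
  rw [v_add_int]
  ring

theorem uw_eq {y s : ℝ} {k : ℤ} (h : y = k * h0 + s) (h1 : 0 ≤ s) (h2 : s < h0) :
    uw y = k + 2 * (1 - g s) := by
  unfold uw
  rw [v_eq h h1 h2]
  ring

/-- The value at the height of the strip. -/
theorem uw_height {n : ℕ} {s : ℝ} (h1 : 0 ≤ s) (h2 : s < h0) :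
    uw (n * h0 + s) = n + 2 - 2 * g s := by
  rw [uw_eq (k := (n : ℤ)) (s := s) (by push_cast; ring) h1 h2]
  push_cast
  ring

/-- The two walls together. -/
theorem uw_walls {n : ℕ} {s y : ℝ} (h1 : 0 ≤ s) (h2 : s < h0) :
    uw y + uw (n * h0 + s - y) ≤ n + 2 - 2 * g s := by
  have := uw_superadd y (n * h0 + s - y)
  rwa [show y + (n * h0 + s - y) = n * h0 + s by ring, uw_height h1 h2] at this

/-- The weight of a point at height `y` in the `j`-th half-plane statement. -/
noncomputable def wt (u : ℝ → ℝ) (j : ℕ) (y : ℝ) : ℝ := min 1 (max 0 (j - u y))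

theorem wt_nonneg (u : ℝ → ℝ) (j : ℕ) (y : ℝ) : 0 ≤ wt u j y :=
  le_min zero_le_one (le_max_left _ _)

theorem wt_le_one (u : ℝ → ℝ) (j : ℕ) (y : ℝ) : wt u j y ≤ 1 := min_le_left _ _

/-- All weights together, a lower bound. -/
theorem sub_le_sum (m : ℕ) {t : ℝ} (h : 0 ≤ t) :
    m - t ≤ ∑ j ∈ Finset.range m, min 1 (max 0 (((j + 1 : ℕ) : ℝ) - t)) := by
  induction m with
  | zero => simpa using h
  | succ m ih =>
    rw [Finset.sum_range_succ]
    push_cast at *
    rcases le_total t m with h1 | h1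
    · have : min 1 (max 0 ((m : ℝ) + 1 - t)) = 1 := by
        rw [min_eq_left]
        exact le_max_of_le_right (by linarith)
      rw [this]
      linarith
    · have h2 : 0 ≤ ∑ j ∈ Finset.range m, min (1 : ℝ) (max 0 ((j : ℝ) + 1 - t)) :=
        Finset.sum_nonneg fun j _ => le_min zero_le_one (le_max_left _ _)
      have h3 : (m : ℝ) + 1 - t ≤ min 1 (max 0 ((m : ℝ) + 1 - t)) :=
        le_min (by linarith) (le_max_right _ _)
      linarith

/-- The weights seen from both walls. -/
theorem le_sum_wt {u : ℝ → ℝ} {n : ℕ} {H c y : ℝ} (hu : ∀ z, 0 ≤ z → 0 ≤ u z)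
    (hw : ∀ z, 0 ≤ z → z ≤ H → u z + u (H - z) ≤ n + 2 - 2 * c) (h1 : 0 ≤ y) (h2 : y ≤ H) :
    n + 2 * c ≤ ∑ j ∈ Finset.range (n + 1), (wt u (j + 1) y + wt u (j + 1) (H - y)) := by
  have e1 := sub_le_sum (n + 1) (hu y h1)
  have e2 := sub_le_sum (n + 1) (hu (H - y) (by linarith))
  have e3 := hw y h1 h2
  rw [Finset.sum_add_distrib]
  unfold wt
  push_cast at *
  linarith

end Pool.Agent.Strip051
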